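import Pool.Agent.RelO.Targets

/-!
# The theorem (job MAIN)
-/

set_option autoImplicit false

namespace Pool.Agent.RelO

open MeasureTheory Set
open scoped ENNReal
open Pool.Agent.RelM (Lang Instr Cfg step run Halts Decides E1 E2 NP pair triple binVal outVal
  Approx IsDensity str pre IsNullCover Null1 Null2 wq sq0 sq1 Asks hq Idx Om fair coin Rl mixP)

namespace MAIN_

/-! ### Odds -/

theorem odds_mono {ρ ρ' : ℝ} {d : List Bool → ℝ} (h1 : 1 / 2 ≤ ρ') (h2 : ρ' ≤ ρ)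
    (hd : IsOdds ρ d) : IsOdds ρ' d := by
  refine ⟨hd.nonneg, fun w b => ?_⟩
  have ha := hd.le w b
  have hb := hd.le w (!b)
  rw [Bool.not_not] at hb
  rcases eq_or_lt_of_le (h1.trans h2) with h | h
  · have : ρ' = ρ := by linarith
    rw [this]; exact ha
  · have h3 : 0 < 2 * ρ - 1 := by linarith
    have key : (2 * ρ - 1) * (ρ' * d (w ++ [b]) + (1 - ρ') * d (w ++ [!b])) ≤
        (2 * ρ - 1) * d w := by
      have e1 : (2 * ρ - 1) * (ρ' * d (w ++ [b]) + (1 - ρ') * d (w ++ [!b])) =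
          (ρ' + ρ - 1) * (ρ * d (w ++ [b]) + (1 - ρ) * d (w ++ [!b])) +
            (ρ - ρ') * (ρ * d (w ++ [!b]) + (1 - ρ) * d (w ++ [b])) := by ring
      rw [e1]
      have h4 : 0 ≤ ρ' + ρ - 1 := by linarith
      have h5 : 0 ≤ ρ - ρ' := by linarith
      nlinarith [mul_le_mul_of_nonneg_left ha h4, mul_le_mul_of_nonneg_left hb h5]
    exact le_of_mul_le_mul_left key h3

theorem gale_odds {s : ℝ} {d : List Bool → ℝ} (h0 : 1 / 2 ≤ s) (h1 : s < 1)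
    (hd : IsGale s d) : IsOdds ((2 : ℝ) ^ (-s)) d := by
  have hp : (0 : ℝ) < 2 ^ (-s) := by positivity
  have hs : (2 : ℝ) ^ (-s) * 2 ^ s = 1 := by
    rw [← Real.rpow_add (by norm_num)]
    simp
  have hhalf : (1 / 2 : ℝ) ≤ 2 ^ (-s) := by
    have : (2 : ℝ) ^ (-1 : ℝ) ≤ 2 ^ (-s) :=
      Real.rpow_le_rpow_of_exponent_le (by norm_num) (by linarith)
    rw [Real.rpow_neg_one] at this
    linarith
  refine ⟨hd.nonneg, fun w b => ?_⟩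
  have ha := hd.le w
  have hf := hd.nonneg (w ++ [false])
  have ht := hd.nonneg (w ++ [true])
  have h2 : (2 : ℝ) ^ (-s) * (d (w ++ [false]) + d (w ++ [true])) ≤ d w := by
    calc (2 : ℝ) ^ (-s) * (d (w ++ [false]) + d (w ++ [true]))
        ≤ (2 : ℝ) ^ (-s) * ((2 : ℝ) ^ s * d w) := by gcongr
      _ = d w := by rw [← mul_assoc, hs, one_mul]
  cases b
  · show (2 : ℝ) ^ (-s) * d (w ++ [false]) + (1 - (2 : ℝ) ^ (-s)) * d (w ++ [true]) ≤ d w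
    nlinarith [mul_nonneg (by linarith : (0 : ℝ) ≤ 2 * 2 ^ (-s) - 1) ht]
  · show (2 : ℝ) ^ (-s) * d (w ++ [true]) + (1 - (2 : ℝ) ^ (-s)) * d (w ++ [false]) ≤ d w
    nlinarith [mul_nonneg (by linarith : (0 : ℝ) ≤ 2 * 2 ^ (-s) - 1) hf]

theorem gale_mono {s s' : ℝ} {d : List Bool → ℝ} (h : s ≤ s') (hd : IsGale s d) :
    IsGale s' d := by
  refine ⟨hd.nonneg, fun w => (hd.le w).trans ?_⟩
  have := hd.nonneg w
  gcongr
  norm_num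

theorem cover_mono {ρ ρ' : ℝ} {d : ℕ → List Bool → ℝ} {X X' : Set Lang} (h1 : 1 / 2 ≤ ρ')
    (h2 : ρ' ≤ ρ) (hX : X' ⊆ X) (hd : IsOddsCover ρ d X) : IsOddsCover ρ' d X' :=
  fun k => ⟨odds_mono h1 h2 (hd k).1, (hd k).2.1, fun A hA => (hd k).2.2 A (hX hA)⟩

theorem gale_cover {s : ℝ} (hs : s < 1) : ∃ ρ : ℝ, 1 / 2 < ρ ∧ ρ ≤ 1 ∧
    ∀ (d : ℕ → List Bool → ℝ) (X : Set Lang), IsGaleCover s d X → IsOddsCover ρ d X := by
  have h1 : max s (1 / 2) < 1 := max_lt hs (by norm_num)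
  have h2 : 1 / 2 ≤ max s (1 / 2) := le_max_right _ _
  refine ⟨(2 : ℝ) ^ (-max s (1 / 2)), ?_, ?_, ?_⟩
  · have : (2 : ℝ) ^ (-1 : ℝ) < 2 ^ (-max s (1 / 2)) :=
      Real.rpow_lt_rpow_of_exponent_lt (by norm_num) (by linarith)
    rw [Real.rpow_neg_one] at this
    linarith
  · exact Real.rpow_le_one_of_one_le_of_nonpos (by norm_num) (by linarith)
  · intro d X h k
    exact ⟨gale_odds h2 h1 (gale_mono (le_max_left _ _) (h k).1), (h k).2.1, (h k).2.2⟩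

/-- The odds used. -/
noncomputable def rr (q : ℕ) : ℝ := 1 / 2 + 1 / (q + 2)

theorem rr_gt (q : ℕ) : 1 / 2 < rr q := by
  unfold rr
  have : (0 : ℝ) < 1 / (q + 2) := by positivity
  linarith

theorem rr_le (q : ℕ) : rr q ≤ 1 := by
  unfold rr
  have : (1 : ℝ) / (q + 2) ≤ 1 / 2 := by
    apply one_div_le_one_div_of_le (by norm_num)
    have : (0 : ℝ) ≤ q := by positivity
    linarith
  linarith

theorem rr_small {ρ : ℝ} (h : 1 / 2 < ρ) : ∃ q, rr q ≤ ρ := by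
  obtain ⟨q, hq⟩ := exists_nat_one_div_lt (show (0 : ℝ) < ρ - 1 / 2 by linarith)
  refine ⟨q, ?_⟩
  unfold rr
  have : (1 : ℝ) / (q + 2) ≤ 1 / (q + 1) := by
    apply one_div_le_one_div_of_le (by positivity)
    linarith
  linarith

/-! ### Covering -/

theorem cov (hCOVB : T_COVB) (hDLOW : T_DLOW) (Φ : Fam) (ω : Om) (e : ℕ)
    (hA : ∀ K : ℝ, ∃ n : ℕ, K ≤ cap Φ e n ω) (hGE : T_NNGE) (k : ℕ) :
    ∃ n, 1 ≤ dd Φ (hints Φ ω) k (pre (Φ.f e (oo Φ ω)) n) := by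
  classical
  obtain ⟨n', hn'⟩ := hA (2 ^ (k + e + 1))
  have h2 : (1 : ℝ) < 2 ^ (k + e + 1) := one_lt_pow₀ (by norm_num) (by omega)
  have hex : ∃ j ∈ (Finset.range n').filter (fun j => st j = e), True := by
    by_contra hne
    push Not at hne
    have h3 : cap Φ e n' ω = 1 := by
      unfold cap
      have h4 : (Finset.range n').filter (fun j => st j = e) = ∅ := by
        rw [Finset.eq_empty_iff_forall_notMem]
        intro j hj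
        exact hne j hj
      rw [h4, Finset.prod_empty]
    rw [h3] at hn'
    linarith
  obtain ⟨j, hj, -⟩ := hex
  rw [Finset.mem_filter, Finset.mem_range] at hj
  obtain ⟨n, rfl⟩ : ∃ n, n' = n + 1 := ⟨n' - 1, by omega⟩
  refine ⟨2 ^ nn Φ n, ?_⟩
  have he : e ≤ j := by
    rw [← hj.2]
    exact Nat.unpair_left_le j
  have hlen : e < (pre (Φ.f e (oo Φ ω)) (2 ^ nn Φ n)).length := by
    have h5 : (pre (Φ.f e (oo Φ ω)) (2 ^ nn Φ n)).length = 2 ^ nn Φ n := by simp [pre]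
    rw [h5]
    have h6 := hGE Φ n
    have h7 : nn Φ n < 2 ^ nn Φ n := Nat.lt_two_pow_self
    omega
  have h8 := hDLOW Φ (hints Φ ω) k e _ hlen
  rw [hCOVB Φ e n ω] at h8
  refine le_trans ?_ h8
  calc (1 : ℝ) = (1 / 2) ^ (k + e + 1) * 2 ^ (k + e + 1) := by
        rw [← mul_pow]; norm_num
    _ ≤ (1 / 2) ^ (k + e + 1) * cap Φ e (n + 1) ω := by gcongr

theorem oo_tt (hOTT : T_OTT) (Φ : Fam) (ω : Om) (u : List Bool) :
    oo Φ ω (true :: true :: u) = bitsOf Φ (hints Φ ω) u := hOTT _ _ _ _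

theorem appr (hOTT : T_OTT) (hREAD : Pool.Agent.RelM.T_READ) (hBITS : T_BITS) (hNUM : T_NUM) :
    ∃ (P : List Instr) (c : ℕ), ∀ (Φ : Fam) (ω : Om),
      Approx (oo Φ ω) P (fun l => (l + 2) ^ c) (dd Φ (hints Φ ω)) := by
  obtain ⟨P, c, h⟩ := hREAD
  refine ⟨P, c, fun Φ ω k r w => ?_⟩
  have h1 := h (oo Φ ω) (num Φ (hints Φ ω))
    (fun j k r w => by rw [oo_tt hOTT]; exact (hBITS Φ (hints Φ ω) j k r w).1)
    (fun j k r w => by rw [oo_tt hOTT]; exact (hBITS Φ (hints Φ ω) j k r w).2.1)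
    (fun j k r w => by rw [oo_tt hOTT]; exact (hBITS Φ (hints Φ ω) j k r w).2.2)
    (fun k r w => (hNUM Φ (hints Φ ω) k r w).1) k r w
  refine ⟨h1.1, ?_⟩
  rw [h1.2]
  exact (hNUM Φ (hints Φ ω) k r w).2

end MAIN_

open MAIN_ in
/-- The theorem from the targets. -/
theorem main_of (hFAM : T_FAM) (hPLIM : T_PLIM) (hSYS : T_SYS) (hCOVA : T_COVA)
    (hCOVB : T_COVB) (hDDENS : T_DDENS) (hDLAM : T_DLAM) (hDLOW : T_DLOW) (hGE : T_NNGE)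
    (hOTT : T_OTT) (hREAD : Pool.Agent.RelM.T_READ) (hBITS : T_BITS) (hNUM : T_NUM)
    (hTIME : T_TIME) (hT12 : T_T12) (hNN : T_NONNULL) (hF1 : T_FAST1) (hF2 : T_FAST2)
    (hNPR : T_NPR) (hE1R : T_E1R) (hE2R : T_E2R) : T_MAIN := by
  intro F k hF
  obtain ⟨Φ, hΦ1, hΦ2⟩ := hFAM F k hF
  obtain ⟨P, hP⟩ := hPLIM _ _ _ (hSYS Φ)
  have hprob : IsProbabilityMeasure P := hP.prob
  have a1 : ∀ᵐ ω ∂P, ∀ e : ℕ, ∀ K : ℝ, ∃ n : ℕ, K ≤ cap Φ e n ω :=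
    ae_all_iff.2 fun e => hCOVA Φ P hP e
  have a2 : ∀ᵐ ω ∂P, ∀ (c q : ℕ) (Pr : List Instr),
      ¬ ∃ d : ℕ → List Bool → ℝ, IsOddsCover (rr q) d {Rl ω (2 * (5 * c + 5) + 1)} ∧
        Approx (oo Φ ω) Pr (fun l => (l + 2) ^ c) d :=
    ae_all_iff.2 fun c => ae_all_iff.2 fun q => ae_all_iff.2 fun Pr =>
      hNN Φ P hP _ Pr _ (rr q) (rr_gt q) (rr_le q) (hF1 c)
  have a3 : ∀ᵐ ω ∂P, ∀ (c q : ℕ) (Pr : List Instr),
      ¬ ∃ d : ℕ → List Bool → ℝ, IsOddsCover (rr q) d {Rl ω (2 * (c + 1))} ∧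
        Approx (oo Φ ω) Pr (fun l => 2 ^ ((Nat.log 2 l + 2) ^ c)) d :=
    ae_all_iff.2 fun c => ae_all_iff.2 fun q => ae_all_iff.2 fun Pr =>
      hNN Φ P hP _ Pr _ (rr q) (rr_gt q) (rr_le q) (hF2 c)
  obtain ⟨ω, h1, h2, h3⟩ := (a1.and (a2.and a3)).exists
  obtain ⟨PR, cR, hap⟩ := appr hOTT hREAD hBITS hNUM
  have hcover : IsNullCover (dd Φ (hints Φ ω)) (NP (oo Φ ω) ∪ Set.range fun i => F i (oo Φ ω)) := by
    intro kk
    refine ⟨hDDENS _ _ _, hDLAM _ _ _, ?_⟩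
    intro A hA
    have hA' : ∃ e, Φ.f e (oo Φ ω) = A := by
      rcases hA with hA | ⟨i, rfl⟩
      · exact hΦ2 _ _ hA
      · obtain ⟨e, he⟩ := hΦ1 i
        exact ⟨e, by rw [he]⟩
    obtain ⟨e, rfl⟩ := hA'
    exact cov hCOVB hDLOW Φ ω e (h1 e) hGE kk
  have hO1 : ∀ ρ : ℝ, 1 / 2 < ρ → ρ ≤ 1 → ¬ OddsNull1 ρ (oo Φ ω) (NP (oo Φ ω) ∩ E1 (oo Φ ω)) := by
    rintro ρ hρ - ⟨d, hd, Pr, c, hA⟩
    obtain ⟨q, hq⟩ := rr_small hρ
    refine h2 c q Pr ⟨d, cover_mono (rr_gt q).le hq ?_ hd, hA⟩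
    rintro A rfl
    exact ⟨hNPR _ _ _, hE1R _ _ _⟩
  have hO2 : ∀ ρ : ℝ, 1 / 2 < ρ → ρ ≤ 1 → ¬ OddsNull2 ρ (oo Φ ω) (NP (oo Φ ω) ∩ E2 (oo Φ ω)) := by
    rintro ρ hρ - ⟨d, hd, Pr, c, hA⟩
    obtain ⟨q, hq⟩ := rr_small hρ
    refine h3 c q Pr ⟨d, cover_mono (rr_gt q).le hq ?_ hd, hA⟩
    rintro A rfl
    exact ⟨hNPR _ _ _, hE2R _ _ _⟩
  refine ⟨oo Φ ω, ⟨dd Φ (hints Φ ω), hcover, PR, cR, hap Φ ω⟩, ?_, ?_, ?_⟩
  · obtain ⟨c', hc'⟩ := hT12 cR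
    exact ⟨dd Φ (hints Φ ω), hcover, PR, c', hTIME _ _ _ _ _ hc' (hap Φ ω)⟩
  · exact fun ρ h h' => ⟨hO1 ρ h h', hO2 ρ h h'⟩
  · intro s hs
    obtain ⟨ρ, hρ1, hρ2, hρ⟩ := gale_cover hs
    constructor
    · rintro ⟨d, hd, Pr, c, hA⟩
      exact hO1 ρ hρ1 hρ2 ⟨d, hρ d _ hd, Pr, c, hA⟩
    · rintro ⟨d, hd, Pr, c, hA⟩
      exact hO2 ρ hρ1 hρ2 ⟨d, hρ d _ hd, Pr, c, hA⟩

end Pool.Agent.RelO
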