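import Pool.Agent.RelO.Targets

/-!
# The lengths of the keys
-/

set_option autoImplicit false

namespace Pool.Agent.RelO

open Pool.Agent.RelM (Lang Idx Om)

namespace LEV_

theorem le_pow (κ n : ℕ) : κ + 2 ≤ (n + 2) ^ (κ + 1) := by
  have h1 : κ + 1 < 2 ^ (κ + 1) := Nat.lt_two_pow_self
  have h2 : 2 ^ (κ + 1) ≤ (n + 2) ^ (κ + 1) := Nat.pow_le_pow_left (by omega) _
  omega

theorem base_le_pow (κ n : ℕ) : n + 2 ≤ (n + 2) ^ (κ + 2) :=
  calc n + 2 = (n + 2) ^ 1 := (pow_one _).symm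
    _ ≤ (n + 2) ^ (κ + 2) := Nat.pow_le_pow_right (by omega) (by omega)

end LEV_

theorem levfin : T_LEVFIN := by
  intro κ x m h
  unfold lev at h
  split_ifs at h with hk
  · have h1 := LEV_.base_le_pow κ x.length
    have h2 := LEV_.le_pow κ x.length
    have h3 : (x.length + 2) ^ (κ + 1) ≤ (x.length + 2) ^ (κ + 2) :=
      Nat.pow_le_pow_right (by omega) (by omega)
    omega
  · have h1 : (κ + 2) * 1 ≤ (κ + 2) * (x.length + 2) := Nat.mul_le_mul_left _ (by omega)
    have h2 : 1 * (x.length + 2) ≤ (κ + 2) * (x.length + 2) := Nat.mul_le_mul_right _ (by omega)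
    omega

theorem levmono : T_LEVMONO := by
  intro κ x y h
  unfold lev
  split_ifs with hk
  · exact Nat.pow_le_pow_left (by omega) _
  · exact Nat.mul_le_mul_left _ (by omega)

theorem levpow : T_LEVPOW := by
  intro κ x
  unfold lev
  split_ifs with hk
  · exact le_refl _
  · rw [pow_succ (x.length + 2) (κ + 1)]
    exact Nat.mul_le_mul_right _ (LEV_.le_pow κ x.length)

theorem shortfin : T_SHORTFIN := by
  intro m
  have h1 : (Set.Iic m ×ˢ ({x : List Bool | x.length ≤ m} ×ˢ Set.Iic m) : Set Idx).Finite :=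
    (Set.finite_Iic m).prod ((List.finite_length_le Bool m).prod (Set.finite_Iic m))
  refine h1.subset ?_
  rintro ⟨κ, x, i⟩ ⟨h2, h3⟩
  obtain ⟨h4, h5⟩ := levfin κ x m h2
  exact ⟨h4, h5, h3.trans h2⟩

end Pool.Agent.RelO
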