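import Pool.Agent.RelM.Defs

/-!
# Null covers at odds that are not fair, and null covers by supergales, relative to an oracle

For `ρ = 1/2` the condition `IsOdds ρ` is the one of a density function. For `ρ > 1/2` it is more
demanding: the gambler whose capital is `d` may bet on the next bit, but is paid less than at fair
odds. The machines, the classes and the null covers are those of `Pool.Agent.RelM.Defs`.
-/

set_option autoImplicit false

namespace Pool.Agent.RelO

open Pool.Agent.RelM (Lang Instr Approx pre)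

/-- `d` is the capital of a gambler who plays at the odds `ρ`: the mean of the two possible values
after the next bit is at most the present value when any one of the two bits has probability
`ρ`. -/
structure IsOdds (ρ : ℝ) (d : List Bool → ℝ) : Prop where
  nonneg : ∀ w, 0 ≤ d w
  le : ∀ (w : List Bool) (b : Bool), ρ * d (w ++ [b]) + (1 - ρ) * d (w ++ [!b]) ≤ d w

/-- `d` is a null cover of `X` by gamblers who play at the odds `ρ`. -/
def IsOddsCover (ρ : ℝ) (d : ℕ → List Bool → ℝ) (X : Set Lang) : Prop :=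
  ∀ k : ℕ, IsOdds ρ (d k) ∧ d k [] ≤ (1 / 2 : ℝ) ^ k ∧ ∀ A ∈ X, ∃ n : ℕ, 1 ≤ d k (pre A n)

/-- `X` has a null cover at the odds `ρ` that is computable in polynomial time relative to `O`. -/
def OddsNull1 (ρ : ℝ) (O : Lang) (X : Set Lang) : Prop :=
  ∃ d : ℕ → List Bool → ℝ, IsOddsCover ρ d X ∧
    ∃ (P : List Instr) (c : ℕ), Approx O P (fun l => (l + 2) ^ c) d

/-- `X` has a null cover at the odds `ρ` that is computable relative to `O` in time
`2 ^ ((log l) ^ O(1))`. -/
def OddsNull2 (ρ : ℝ) (O : Lang) (X : Set Lang) : Prop :=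
  ∃ d : ℕ → List Bool → ℝ, IsOddsCover ρ d X ∧
    ∃ (P : List Instr) (c : ℕ), Approx O P (fun l => 2 ^ ((Nat.log 2 l + 2) ^ c)) d

/-- `d` is an `s`-supergale. -/
structure IsGale (s : ℝ) (d : List Bool → ℝ) : Prop where
  nonneg : ∀ w, 0 ≤ d w
  le : ∀ w, d (w ++ [false]) + d (w ++ [true]) ≤ (2 : ℝ) ^ s * d w

/-- `d` is a null cover of `X` by `s`-supergales. -/
def IsGaleCover (s : ℝ) (d : ℕ → List Bool → ℝ) (X : Set Lang) : Prop :=
  ∀ k : ℕ, IsGale s (d k) ∧ d k [] ≤ (1 / 2 : ℝ) ^ k ∧ ∀ A ∈ X, ∃ n : ℕ, 1 ≤ d k (pre A n)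

/-- `X` has a null cover by `s`-supergales that is computable in polynomial time relative
to `O`. -/
def GaleNull1 (s : ℝ) (O : Lang) (X : Set Lang) : Prop :=
  ∃ d : ℕ → List Bool → ℝ, IsGaleCover s d X ∧
    ∃ (P : List Instr) (c : ℕ), Approx O P (fun l => (l + 2) ^ c) d

/-- `X` has a null cover by `s`-supergales that is computable relative to `O` in time
`2 ^ ((log l) ^ O(1))`. -/
def GaleNull2 (s : ℝ) (O : Lang) (X : Set Lang) : Prop :=
  ∃ d : ℕ → List Bool → ℝ, IsGaleCover s d X ∧
    ∃ (P : List Instr) (c : ℕ), Approx O P (fun l => 2 ^ ((Nat.log 2 l + 2) ^ c)) d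

end Pool.Agent.RelO
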