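import Pool.Agent.RelM.Targets
import Pool.Agent.RelO.Defs

/-!
# The oracle relative to which `NP` is barely null

The oracle has the four parts of the oracle of `Pool.Agent.RelM.Core`: the bit of `x` in the
language `Rl ω κ` is hidden behind a key of length `lev κ x`, can be bought for `2 ^ lev κ x`, and
part `11` holds the bits of a sequence of density functions. These density functions bet on hints:
stage `j` gives a hint `hints ω j` about the answer of the family member `st j` on the word
`xx j = 0 ^ (nn j)`. The hint is the more probable answer given the coins older than stage `j`. The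
coins are not fair: those of stage `j` have the density `1 + lam j * (1_good - μ)` with respect to
fair coins, where `good` is the event that the hint is right.
-/

set_option autoImplicit false

namespace Pool.Agent.RelO

open MeasureTheory Set
open scoped ENNReal
open Pool.Agent.RelM (Lang Instr Cfg step run Halts Decides E1 E2 NP pair triple binVal outVal
  Approx IsDensity str pre IsNullCover Null1 Null2 wq sq0 sq1 Asks hq Idx Om fair coin Rl mixP)

/-! ## The family of languages to be covered -/

/-- A countable family of languages relative to an oracle, in which the answers on `x` depend only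
on the words of length at most `(|x| + 2) ^ k i` in the oracle. -/
structure Fam : Type where
  f : ℕ → Lang → Lang
  k : ℕ → ℕ
  loc : ∀ (i : ℕ) (O O' : Lang) (x : List Bool),
    (∀ q : List Bool, q.length ≤ (x.length + 2) ^ k i → O q = O' q) → f i O x = f i O' x

/-! ## Coins -/

/-- The length of the key of `x` in `Rl ω κ`. -/
def lev (κ : ℕ) (x : List Bool) : ℕ :=
  if κ % 2 = 0 then (x.length + 2) ^ (κ + 2) else (κ + 2) * (x.length + 2)

/-- The key of `x` in `Rl ω κ`. -/
def wit (ω : Om) (κ : ℕ) (x : List Bool) : List Bool :=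
  (List.range (lev κ x)).map fun i => ω (κ, x, i + 1)

/-- The coins of the pairs κ, x with keys of length at most `m`. -/
def Short (m : ℕ) : Set Idx := {a | lev a.1 a.2.1 ≤ m ∧ a.2.2 ≤ lev a.1 a.2.1}

/-- `F` depends only on the coins in `s`. -/
def Dep {α : Type} (s : Set Idx) (F : Om → α) : Prop :=
  ∀ ω ω' : Om, (∀ a ∈ s, ω a = ω' a) → F ω = F ω'

/-! ## The oracle -/

open Classical in
/-- The oracle, in which the bits of the pairs κ, x outside `S` are hidden. -/
noncomputable def orcV (S : ℕ → List Bool → Prop) (G : Lang) (ω : Om) : Lang := fun q => decide (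
  (∃ κ x, S κ x ∧ q = wq κ x (wit ω κ x) ∧ Rl ω κ x = true) ∨
  (∃ κ x m, q = sq0 κ x m ∧ 2 ^ lev κ x ≤ m) ∨
  (∃ κ x m, S κ x ∧ q = sq1 κ x m ∧ 2 ^ lev κ x ≤ m ∧ Rl ω κ x = true) ∨
  (∃ u, q = true :: true :: u ∧ G u = true))

/-- The oracle with the part `G`. -/
noncomputable def orc (G : Lang) (ω : Om) : Lang := orcV (fun _ _ => True) G ω

/-! ## Stages -/

/-- The family member treated at stage `j`. -/
def st (j : ℕ) : ℕ := (Nat.unpair j).1

/-- Bound for the lengths of the words that matter at stage `j` on inputs of length `n`. -/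
def qb (Φ : Fam) (j n : ℕ) : ℕ := (n + 2) ^ Φ.k (st j)

/-- The special length of stage `j` must be at least this large. -/
noncomputable def thr (Φ : Fam) (j : ℕ) : ℕ :=
  sInf {N | j + 2 ≤ N ∧ ∀ n, N ≤ n → qb Φ j n + 2 < 2 ^ n}

/-- The special length of stage `j`. -/
noncomputable def nn (Φ : Fam) : ℕ → ℕ
  | 0 => thr Φ 0
  | j + 1 => max (max (qb Φ j (nn Φ j)) (nn Φ j) + 1) (thr Φ (j + 1))

/-- The word of stage `j`. It is the word number `2 ^ nn j - 1`. -/
noncomputable def xx (Φ : Fam) (j : ℕ) : List Bool := List.replicate (nn Φ j) false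

/-- The advantage of stage `j`. -/
noncomputable def ep (j : ℕ) : ℝ := 1 / (8 * ((Nat.log 2 (j + 2) : ℝ) + 1))

/-- The tilt of stage `j`. -/
noncomputable def lam (j : ℕ) : ℝ := 4 * ep j

/-! ## The density functions -/

/-- The capital on `w` of the gambler who bets the fraction `ep j` of the capital on the hint `η j`
at the word `xx j` at the stages `j` for the family member `e`. -/
noncomputable def Mst (Φ : Fam) (η : ℕ → Bool) (e : ℕ) (w : List Bool) : ℝ :=
  ∏ j ∈ (Finset.range w.length).filter (fun j => st j = e ∧ 2 ^ nn Φ j ≤ w.length),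
    (if w[2 ^ nn Φ j - 1]? = some (η j) then 1 + ep j else 1 - ep j)

/-- The density function number `k`, the sum of `2 ^ (-(k + e + 1)) * Mst Φ η e w` over all `e`
(for `e ≥ |w|` the factor `Mst Φ η e w` is `1`). -/
noncomputable def dd (Φ : Fam) (η : ℕ → Bool) (k : ℕ) (w : List Bool) : ℝ :=
  (1 / 2 : ℝ) ^ k * ((1 / 2 : ℝ) ^ w.length +
    ∑ e ∈ Finset.range w.length, (1 / 2 : ℝ) ^ (e + 1) * Mst Φ η e w)

/-- The numerator of the approximation. -/
noncomputable def num (Φ : Fam) (η : ℕ → Bool) (k r : ℕ) (w : List Bool) : ℕ :=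
  ⌊(2 : ℝ) ^ (r + 1) * dd Φ η k w⌋₊

open Classical in
/-- The bits of the numerators of the approximations. -/
noncomputable def bitsOf (Φ : Fam) (η : ℕ → Bool) : Lang := fun u => decide (
  (∃ j k r w, u = hq false false j k r w ∧ j < Nat.size (num Φ η k r w)) ∨
  (∃ j k r w, u = hq false true j k r w ∧ Nat.testBit (num Φ η k r w) j = true) ∨
  (∃ j k r w, u = hq true false j k r w ∧ j < r + 1))

/-! ## The hints -/

/-- The coins older than stage `j`. -/
def Old (Φ : Fam) (j : ℕ) : Set Idx := {a | lev a.1 a.2.1 < nn Φ j ∧ a.2.2 ≤ lev a.1 a.2.1}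

/-- The answer of the family member `st j` on `xx j`, for the hints `η`. -/
noncomputable def ans (Φ : Fam) (j : ℕ) (η : ℕ → Bool) (ω : Om) : Bool :=
  Φ.f (st j) (orc (bitsOf Φ η) ω) (xx Φ j)

open Classical in
/-- The more probable answer of the family member `st j` on `xx j`, given the coins older than
stage `j`, for the hints `η`. -/
noncomputable def maj (Φ : Fam) (j : ℕ) (η : ℕ → Bool) (ω : Om) : Bool :=
  decide (2⁻¹ ≤ coin {τ | ans Φ j η (mixP (Old Φ j) ω τ) = true})

/-- The hints of the stages before `j`, continued by `false`. -/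
noncomputable def hl (Φ : Fam) (ω : Om) : ℕ → ℕ → Bool
  | 0 => fun _ => false
  | j + 1 => Function.update (hl Φ ω j) j (maj Φ j (hl Φ ω j) ω)

/-- The hints. -/
noncomputable def hints (Φ : Fam) (ω : Om) : ℕ → Bool := fun j => hl Φ ω (j + 1) j

/-- The hint of stage `j` is right. -/
def good (Φ : Fam) (j : ℕ) : Set Om := {ω | ans Φ j (hl Φ ω j) ω = maj Φ j (hl Φ ω j) ω}

/-- The oracle. -/
noncomputable def oo (Φ : Fam) (ω : Om) : Lang := orc (bitsOf Φ (hints Φ ω)) ω

/-! ## Hiding -/

/-- The coins of cost `m` are old for the first time at stage `jj m`. -/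
noncomputable def jj (Φ : Fam) (m : ℕ) : ℕ := sInf {j | m < nn Φ j}

/-- The pairs visible to a gambler who bets on the word number `t` of `Rl ω κ`. -/
def SS (Φ : Fam) (κ t : ℕ) : ℕ → List Bool → Prop := fun κ' x =>
  lev κ' x < nn Φ (jj Φ (lev κ (str t))) ∧ ¬ (κ' = κ ∧ ∃ t', t ≤ t' ∧ x = str t')

/-- The oracle in which only these pairs are visible, and only the hints that can be read. -/
noncomputable def ov (Φ : Fam) (κ t : ℕ) (ω : Om) : Lang :=
  orcV (SS Φ κ t) (bitsOf Φ (hl Φ ω (jj Φ (lev κ (str t))))) ω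

/-! ## The measure -/

/-- The probability that the hint of stage `j` is right, given the coins in `old j`. -/
noncomputable def mu (old : ℕ → Set Idx) (good : ℕ → Set Om) (j : ℕ) (ω : Om) : ℝ :=
  (coin {τ | mixP (old j) ω τ ∈ good j}).toReal

open Classical in
/-- The factor of stage `j` in the density. -/
noncomputable def gg (old : ℕ → Set Idx) (good : ℕ → Set Om) (lam : ℕ → ℝ) (j : ℕ) (ω : Om) : ℝ :=
  1 + lam j * ((if ω ∈ good j then 1 else 0) - mu old good j ω)

/-- The density of the coins in `old j` with respect to fair coins. -/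
noncomputable def DD (old : ℕ → Set Idx) (good : ℕ → Set Om) (lam : ℕ → ℝ) : ℕ → Om → ℝ≥0∞
  | 0 => fun _ => 1
  | j + 1 => fun ω => DD old good lam j ω * ENNReal.ofReal (gg old good lam j ω)

/-- The data of a tilted measure. -/
structure Sys (old : ℕ → Set Idx) (good : ℕ → Set Om) (lam : ℕ → ℝ) : Prop where
  fin : ∀ j, (old j).Finite
  mono : ∀ j, old j ⊆ old (j + 1)
  dep : ∀ j, Dep (old (j + 1)) (fun ω => ω ∈ good j)
  lam0 : ∀ j, 0 ≤ lam j
  lam1 : ∀ j, lam j ≤ 1 / 4

/-- `P` is a tilted measure. -/
structure IsWorld (old : ℕ → Set Idx) (good : ℕ → Set Om) (lam : ℕ → ℝ) (P : Measure Om) :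
    Prop where
  prob : IsProbabilityMeasure P
  den : ∀ (j : ℕ) (F : Om → ℝ≥0∞), Measurable F → Dep (old j) F →
    ∫⁻ ω, F ω ∂P = ∫⁻ ω, F ω * DD old good lam j ω ∂coin

/-! ## The maximal inequality -/

/-- The process with start `Y` which at time `t + 1` is `X t (b t)`. -/
def proc {Ω : Type} (b : ℕ → Ω → Bool) (X : ℕ → Bool → Ω → ℝ) (Y : Ω → ℝ) : ℕ → Ω → ℝ
  | 0 => Y
  | t + 1 => fun ω => X t (b t ω) ω

end Pool.Agent.RelO
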