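import Pool.Agent.RelO.Targets
import Pool.Agent.RelM.LOC

/-!
# The family of languages and the time bounds (job FAM)
-/

set_option autoImplicit false

namespace Pool.Agent.RelO

open MeasureTheory Set
open Pool.Agent.RelM (Lang Instr Cfg step run Halts Decides E1 E2 NP pair triple binVal outVal
  Approx IsDensity str pre IsNullCover Null1 Null2 wq sq0 sq1 Asks hq Idx Om fair coin Rl mixP)

namespace FAM_

open Classical in
/-- The language accepted by the nondeterministic machine `m`. -/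
noncomputable def acc (m : List Instr × ℕ × ℕ) (O : Lang) : Lang := fun x => decide (
  ∃ y : List Bool, y.length ≤ (x.length + 2) ^ m.2.1 ∧
    (run O m.1 (pair x y) ((x.length + 2) ^ m.2.2)).st 1 = [true])

theorem acc_iff (m : List Instr × ℕ × ℕ) (O : Lang) (x : List Bool) :
    acc m O x = true ↔ ∃ y : List Bool, y.length ≤ (x.length + 2) ^ m.2.1 ∧
      (run O m.1 (pair x y) ((x.length + 2) ^ m.2.2)).st 1 = [true] := by
  unfold acc
  exact @decide_eq_true_iff _ (Classical.propDecidable _)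

theorem pair_length (x y : List Bool) : (pair x y).length = 2 * x.length + 1 + y.length := by
  have h : (x.flatMap (fun b => [true, b])).length = 2 * x.length := by
    induction x with
    | nil => rfl
    | cons b l ih =>
      rw [List.flatMap_cons, List.length_append, ih]
      simp
      ring
  unfold pair
  rw [List.length_append, h, List.length_cons]
  ring

theorem bound (a j k : ℕ) :
    2 * a + 1 + (a + 2) ^ j + (a + 2) ^ k ≤ (a + 2) ^ (j + k + 3) := by
  have hj : (a + 2) ^ j ≤ (a + 2) ^ (j + k) := Nat.pow_le_pow_right (by omega) (by omega)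
  have hk : (a + 2) ^ k ≤ (a + 2) ^ (j + k) := Nat.pow_le_pow_right (by omega) (by omega)
  have h1 : 1 ≤ (a + 2) ^ (j + k) := Nat.one_le_pow _ _ (by omega)
  rw [pow_add _ (j + k) 3]
  generalize (a + 2) ^ (j + k) = M at *
  have h3 : 2 * a + 3 ≤ (a + 2) ^ 3 := by nlinarith [Nat.zero_le (a ^ 3), Nat.zero_le (a ^ 2)]
  calc 2 * a + 1 + (a + 2) ^ j + (a + 2) ^ k ≤ M * (2 * a + 3) := by nlinarith
    _ ≤ M * (a + 2) ^ 3 := Nat.mul_le_mul_left _ h3

theorem acc_loc (m : List Instr × ℕ × ℕ) (O O' : Lang) (x : List Bool)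
    (h : ∀ q : List Bool, q.length ≤ (x.length + 2) ^ (m.2.1 + m.2.2 + 3) → O q = O' q) :
    acc m O x = acc m O' x := by
  unfold acc
  congr 1
  apply propext
  refine exists_congr fun y => and_congr_right fun hy => ?_
  have hr := Pool.Agent.RelM.loc_of_short O O' m.1 (pair x y) ((x.length + 2) ^ m.2.2)
    (fun q hq => h q (by
      rw [pair_length] at hq
      have := bound x.length m.2.1 m.2.2
      omega)) _ le_rfl
  rw [hr]

end FAM_

theorem fam : T_FAM := by
  intro F k hF
  obtain ⟨g, hg⟩ := exists_surjective_nat (List Instr × ℕ × ℕ)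
  refine ⟨⟨fun i => if i % 2 = 0 then F (i / 2) else FAM_.acc (g (i / 2)),
    fun i => if i % 2 = 0 then k (i / 2) else (g (i / 2)).2.1 + (g (i / 2)).2.2 + 3, ?_⟩, ?_, ?_⟩
  · intro i O O' x h
    by_cases hi : i % 2 = 0
    · simp only [hi, if_true] at h ⊢
      exact hF _ _ _ _ h
    · simp only [hi, if_false] at h ⊢
      exact FAM_.acc_loc _ _ _ _ h
  · intro i
    refine ⟨2 * i, ?_⟩
    have h1 : 2 * i % 2 = 0 := by omega
    have h2 : 2 * i / 2 = i := by omega
    simp only [h1, h2, if_true]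
  · intro O A hA
    obtain ⟨P, j, k', hP⟩ := hA
    obtain ⟨i, hi⟩ := hg (P, j, k')
    refine ⟨2 * i + 1, ?_⟩
    have h1 : ¬ (2 * i + 1) % 2 = 0 := by omega
    have h2 : (2 * i + 1) / 2 = i := by omega
    simp only [h1, h2, if_false, hi]
    funext x
    rw [Bool.eq_iff_iff, FAM_.acc_iff]
    exact (hP x).2.symm

theorem time : T_TIME := by
  intro O P T T' d hT h k r w
  obtain ⟨h1, h2⟩ := h k r w
  refine ⟨Pool.Agent.RelM.halts_mono O P _ _ _ h1 (hT _), ?_⟩
  rw [Pool.Agent.RelM.stay O P _ _ _ h1 (hT _)]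
  exact h2

theorem t12 : T_T12 := by
  intro c
  refine ⟨c + 1, fun l => ?_⟩
  have h1 : l + 2 ≤ 2 ^ (Nat.log 2 l + 2) := by
    have := Nat.lt_pow_succ_log_self (b := 2) (by norm_num) l
    have h0 : 1 ≤ 2 ^ Nat.log 2 l := Nat.one_le_two_pow
    rw [pow_succ] at this
    rw [pow_add]
    omega
  calc (l + 2) ^ c ≤ (2 ^ (Nat.log 2 l + 2)) ^ c := Nat.pow_le_pow_left h1 c
    _ = 2 ^ ((Nat.log 2 l + 2) * c) := by rw [pow_mul]
    _ ≤ 2 ^ ((Nat.log 2 l + 2) ^ (c + 1)) := by
      refine Nat.pow_le_pow_right (by norm_num) ?_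
      rw [pow_succ, mul_comm]
      refine Nat.mul_le_mul_right _ ?_
      calc c ≤ 2 ^ c := Nat.lt_two_pow_self.le
        _ ≤ (Nat.log 2 l + 2) ^ c := Nat.pow_le_pow_left (by omega) c

end Pool.Agent.RelO
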