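import Pool.Agent.RelO.Targets

/-!
# The hints and the answers of the stages (job ANS)
-/

set_option autoImplicit false

namespace Pool.Agent.RelO

open MeasureTheory Set
open scoped ENNReal
open Pool.Agent.RelM (Lang Instr Cfg step run Halts Decides E1 E2 NP pair triple binVal outVal
  Approx IsDensity str pre IsNullCover Null1 Null2 wq sq0 sq1 Asks hq Idx Om fair coin Rl mixP)

/-- The answer of stage `j` depends only on the hints before stage `j` and on the coins that are
old at stage `j + 1`. -/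
theorem ansloc (h1 : T_OLOC) (h2 : T_BLOC) (h3 : T_NNMONO) (h4 : T_NNQ) (h5 : T_NNNEXT) :
    T_ANSLOC := by
  intro Φ j η η' ω ω' hη hω
  unfold ans
  apply Φ.loc
  intro q hq
  have hlen : (xx Φ j).length = nn Φ j := by simp [xx]
  rw [hlen] at hq
  have hq' : q.length ≤ qb Φ j (nn Φ j) := hq
  unfold orc
  refine h1 _ _ _ _ _ (qb Φ j (nn Φ j)) ?_ ?_ q hq'
  · intro a ha
    exact hω a ⟨lt_of_le_of_lt ha.1 (h5 Φ j), ha.2⟩
  · intro u hu
    refine h2 Φ η η' u ?_
    intro i hi
    apply hη
    have h6 : 2 ^ nn Φ i < 2 ^ nn Φ j := by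
      have := h4 Φ j
      omega
    exact (h3 Φ).lt_iff_lt.mp ((Nat.pow_lt_pow_iff_right (by norm_num)).mp h6)

theorem hlval : T_HLVAL := by
  intro Φ ω i j hij
  induction j with
  | zero => omega
  | succ j ih =>
    rcases Nat.lt_succ_iff_lt_or_eq.mp hij with h | h
    · change Function.update (hl Φ ω j) j (maj Φ j (hl Φ ω j) ω) i = _
      rw [Function.update_of_ne (by omega)]
      exact ih h
    · subst h
      rfl

theorem hldep (h3 : T_NNMONO) : T_HLDEP := by
  intro Φ j
  induction j with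
  | zero =>
    intro ω ω' h
    have h1 : ∀ τ, mixP (Old Φ 0) ω τ = mixP (Old Φ 0) ω' τ := by
      intro τ
      funext a
      unfold mixP
      split_ifs with ha
      · exact h a ha
      · rfl
    change Function.update (hl Φ ω 0) 0 (maj Φ 0 (hl Φ ω 0) ω)
      = Function.update (hl Φ ω' 0) 0 (maj Φ 0 (hl Φ ω' 0) ω')
    have h2 : hl Φ ω 0 = hl Φ ω' 0 := rfl
    rw [h2]
    congr 1
    unfold maj
    simp only [h1]
  | succ j ih =>
    intro ω ω' h
    have h1 : ∀ τ, mixP (Old Φ (j + 1)) ω τ = mixP (Old Φ (j + 1)) ω' τ := by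
      intro τ
      funext a
      unfold mixP
      split_ifs with ha
      · exact h a ha
      · rfl
    change Function.update (hl Φ ω (j + 1)) (j + 1) (maj Φ (j + 1) (hl Φ ω (j + 1)) ω)
      = Function.update (hl Φ ω' (j + 1)) (j + 1) (maj Φ (j + 1) (hl Φ ω' (j + 1)) ω')
    have h2 : hl Φ ω (j + 1) = hl Φ ω' (j + 1) := by
      apply ih
      intro a ha
      apply h
      exact ⟨ha.1.trans (h3 Φ (Nat.lt_succ_self j)), ha.2⟩
    rw [h2]
    congr 1
    unfold maj
    simp only [h1]

end Pool.Agent.RelO
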