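import Pool.Agent.RelO.Targets
import Pool.Agent.RelM.HFIX

/-!
# Job BITS: the bits of the density functions
-/

set_option autoImplicit false

namespace Pool.Agent.RelO

open MeasureTheory Set
open scoped ENNReal
open Pool.Agent.RelM (Lang Instr Cfg step run Halts Decides E1 E2 NP pair triple binVal outVal
  Approx IsDensity str pre IsNullCover Null1 Null2 wq sq0 sq1 Asks hq Idx Om fair coin Rl mixP)
open Pool.Agent.RelM.HFIX_ (hq_inj hq_length triple_length)

namespace BITS_

lemma dd_append_le (h : T_DDENS) (Φ : Fam) (η : ℕ → Bool) (k : ℕ) (w : List Bool) (b : Bool) :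
    dd Φ η k (w ++ [b]) ≤ 2 * dd Φ η k w := by
  have h1 := (h Φ η k).avg w
  have h2 := (h Φ η k).nonneg (w ++ [false])
  have h3 := (h Φ η k).nonneg (w ++ [true])
  cases b <;> linarith

lemma dd_le (h : T_DDENS) (h' : T_DLAM) (Φ : Fam) (η : ℕ → Bool) (k : ℕ) (w : List Bool) :
    dd Φ η k w ≤ 2 ^ w.length := by
  induction w using List.reverseRecOn with
  | nil =>
    refine (h' Φ η k).trans ?_
    simp only [List.length_nil, pow_zero]
    exact pow_le_one₀ (by norm_num) (by norm_num)
  | append_singleton w b ih =>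
    refine (dd_append_le h Φ η k w b).trans ?_
    rw [List.length_append, List.length_singleton, pow_succ]
    linarith

end BITS_

open BITS_ in
theorem bloc (h : T_DLOCAL) : T_BLOC := by
  intro Φ η η' u hu
  have key : ∀ (a b : Bool) (j k r : ℕ) (w : List Bool), u = hq a b j k r w →
      num Φ η k r w = num Φ η' k r w := by
    intro a b j k r w h1
    unfold num
    rw [h Φ η η' k w fun i hi => hu i ?_]
    rw [h1, hq_length]
    omega
  unfold bitsOf
  rw [decide_eq_decide]
  refine or_congr ?_ (or_congr ?_ Iff.rfl)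
  · refine exists_congr fun j => exists_congr fun k => exists_congr fun r =>
      exists_congr fun w => and_congr_right fun h => ?_
    rw [key _ _ _ _ _ _ h]
  · refine exists_congr fun j => exists_congr fun k => exists_congr fun r =>
      exists_congr fun w => and_congr_right fun h => ?_
    rw [key _ _ _ _ _ _ h]

theorem bits : T_BITS := by
  classical
  intro Φ η j k r w
  unfold bitsOf
  refine ⟨?_, ?_, ?_⟩
  · rw [decide_eq_true_eq]
    constructor
    · rintro (⟨j', k', r', w', h, h'⟩ | ⟨j', k', r', w', h, h'⟩ | ⟨j', k', r', w', h, h'⟩)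
      · obtain ⟨-, -, rfl, rfl, rfl, rfl⟩ := hq_inj h
        exact h'
      · obtain ⟨-, h2, -⟩ := hq_inj h
        exact absurd h2 (by decide)
      · obtain ⟨h2, -⟩ := hq_inj h
        exact absurd h2 (by decide)
    · intro h
      exact Or.inl ⟨j, k, r, w, rfl, h⟩
  · rw [decide_eq_true_eq]
    constructor
    · rintro (⟨j', k', r', w', h, h'⟩ | ⟨j', k', r', w', h, h'⟩ | ⟨j', k', r', w', h, h'⟩)
      · obtain ⟨-, h2, -⟩ := hq_inj h
        exact absurd h2 (by decide)
      · obtain ⟨-, -, rfl, rfl, rfl, rfl⟩ := hq_inj h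
        exact h'
      · obtain ⟨h2, -⟩ := hq_inj h
        exact absurd h2 (by decide)
    · intro h
      exact Or.inr (Or.inl ⟨j, k, r, w, rfl, h⟩)
  · rw [decide_eq_true_eq]
    constructor
    · rintro (⟨j', k', r', w', h, h'⟩ | ⟨j', k', r', w', h, h'⟩ | ⟨j', k', r', w', h, h'⟩)
      · obtain ⟨h2, -⟩ := hq_inj h
        exact absurd h2 (by decide)
      · obtain ⟨h2, -⟩ := hq_inj h
        exact absurd h2 (by decide)
      · obtain ⟨-, -, rfl, rfl, rfl, rfl⟩ := hq_inj h
        exact h'
    · intro h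
      exact Or.inr (Or.inr ⟨j, k, r, w, rfl, h⟩)

open BITS_ in
theorem numok (h : T_DDENS) (h' : T_DLAM) : T_NUM := by
  intro Φ η k r w
  have h0 : 0 ≤ dd Φ η k w := (h Φ η k).nonneg w
  have h1 : 0 ≤ (2 : ℝ) ^ (r + 1) * dd Φ η k w := by positivity
  constructor
  · rw [Nat.size_le]
    have h2 : num Φ η k r w ≤ 2 ^ (r + 1) * 2 ^ w.length := by
      unfold num
      refine Nat.floor_le_of_le ?_
      push_cast
      exact mul_le_mul_of_nonneg_left (dd_le h h' Φ η k w) (by positivity)
    calc num Φ η k r w ≤ 2 ^ (r + 1) * 2 ^ w.length := h2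
      _ = 2 ^ (r + 1 + w.length) := (pow_add _ _ _).symm
      _ < 2 ^ (2 * (triple k r w).length + 4) := by
        rw [triple_length]
        exact Nat.pow_lt_pow_right (by norm_num) (by omega)
  · have h2 : ((num Φ η k r w : ℕ) : ℝ) ≤ (2 : ℝ) ^ (r + 1) * dd Φ η k w := Nat.floor_le h1
    have h3 : (2 : ℝ) ^ (r + 1) * dd Φ η k w < (num Φ η k r w : ℕ) + 1 := Nat.lt_floor_add_one _
    have hp : (0 : ℝ) < 2 ^ (r + 1) := by positivity
    have h4 : (num Φ η k r w : ℝ) / 2 ^ (r + 1) - dd Φ η k w =
        ((num Φ η k r w : ℝ) - 2 ^ (r + 1) * dd Φ η k w) / 2 ^ (r + 1) := by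
      field_simp
    rw [h4, abs_div, abs_of_pos hp, div_le_iff₀ hp, abs_le]
    have h5 : (1 / 2 : ℝ) ^ r * 2 ^ (r + 1) = 2 := by
      rw [pow_succ, ← mul_assoc, ← mul_pow]
      norm_num
    rw [h5]
    constructor <;> linarith

end Pool.Agent.RelO
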