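import Pool.Agent.RelO.Targets
import Pool.Agent.RelM.PROB

/-!
# The capital of the gambler who bets on the hints is unbounded (job COVA)
-/

set_option autoImplicit false

namespace Pool.Agent.RelO

open MeasureTheory Set
open scoped ENNReal
open Pool.Agent.RelM (Om Idx coin mixP)

theorem cova (hG : T_GROW) (hH : T_HINTP) (hM : T_MAJ) (hS : T_SYS) (hE : T_EP) (hD : T_DIV) :
    T_COVA := by
  intro Φ P hP e
  have hsys := hS Φ
  have hmono : Monotone (Old Φ) := monotone_nat_of_le_succ hsys.mono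
  have key := hG Om inferInstance P hP.prob (good Φ) (fun j ω ω' => ∀ a ∈ Old Φ j, ω a = ω' a) ep
    (fun j => st j = e) ?_ ?_ ?_ ?_ ?_
  · filter_upwards [key] with ω hω K
    obtain ⟨n, hn⟩ := hω K
    refine ⟨n, hn.trans (le_of_eq ?_)⟩
    unfold cap
    congr!
  · intro j
    exact Pool.Agent.RelM.fd (Old Φ (j + 1)) (hsys.fin _) (good Φ j)
      (fun ω ω' h => iff_of_eq (hsys.dep j ω ω' h))
  · intro i j hij ω ω' h
    have h1 := hsys.dep i ω ω' (fun a ha => h a (hmono hij ha))
    exact iff_of_eq h1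
  · intro j
    obtain ⟨h1, h2⟩ := hE j
    exact ⟨h1, by linarith⟩
  · intro j H _ hHm hHd
    have h1 := hH (Old Φ) (good Φ) lam P hsys hP (fun j ω => hM Φ j ω) j H hHm hHd
    have h2 : (1 / 2 + lam j / 4 : ℝ) = 1 / 2 + ep j := by unfold lam; ring
    rwa [h2] at h1
  · have h1 := hD e
    intro h2
    apply h1
    convert h2

end Pool.Agent.RelO
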