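import Pool.Agent.RelO.Targets

/-!
# The capital on the family members
-/

set_option autoImplicit false

namespace Pool.Agent.RelO

open Pool.Agent.RelM (Lang str pre Om)

namespace COVB_

theorem length_pre (A : Lang) (n : ℕ) : (pre A n).length = n := by
  simp [pre]

theorem getElem_pre (A : Lang) (n i : ℕ) (h : i < n) : (pre A n)[i]? = some (A (str i)) := by
  simp [pre, h]

theorem filter_eq (hM : T_NNMONO) (hG : T_NNGE) (Φ : Fam) (e n : ℕ) :
    (Finset.range (2 ^ nn Φ n)).filter (fun j => st j = e ∧ 2 ^ nn Φ j ≤ 2 ^ nn Φ n) =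
      (Finset.range (n + 1)).filter (fun j => st j = e) := by
  ext j
  simp only [Finset.mem_filter, Finset.mem_range]
  have h1 : 2 ^ nn Φ j ≤ 2 ^ nn Φ n ↔ j ≤ n := by
    rw [Nat.pow_le_pow_iff_right (by norm_num)]
    exact (hM Φ).le_iff_le
  rw [h1]
  have h2 := hG Φ n
  have h3 : nn Φ n < 2 ^ nn Φ n := Nat.lt_two_pow_self
  constructor
  · rintro ⟨-, h4, h5⟩; exact ⟨by omega, h4⟩
  · rintro ⟨h4, h5⟩; exact ⟨by omega, h5, by omega⟩

end COVB_

theorem covb (hA : T_ANSLOC) (hH : T_HLVAL) (hX : T_XX) (hM : T_NNMONO) (hG : T_NNGE) :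
    T_COVB := by
  intro Φ e n ω
  unfold Mst cap
  rw [COVB_.length_pre, COVB_.filter_eq hM hG]
  apply Finset.prod_congr rfl
  intro j hj
  rw [Finset.mem_filter, Finset.mem_range] at hj
  obtain ⟨h1, h2⟩ := hj
  have h3 : 2 ^ nn Φ j ≤ 2 ^ nn Φ n :=
    Nat.pow_le_pow_right (by norm_num) ((hM Φ).monotone (by omega))
  have h4 : 0 < 2 ^ nn Φ j := by positivity
  rw [COVB_.getElem_pre _ _ _ (by omega), hX Φ j]
  have h5 : Φ.f e (oo Φ ω) (xx Φ j) = ans Φ j (hl Φ ω j) ω := by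
    have h6 : Φ.f e (oo Φ ω) (xx Φ j) = ans Φ j (hints Φ ω) ω := by
      rw [← h2]; rfl
    rw [h6]
    exact hA Φ j _ _ ω ω (fun i hi => (hH Φ ω i j hi).symm) (fun a _ => rfl)
  have h7 : hints Φ ω j = maj Φ j (hl Φ ω j) ω := by
    simp [hints, hl]
  have h8 : (some (Φ.f e (oo Φ ω) (xx Φ j)) = some (hints Φ ω j)) ↔ ω ∈ good Φ j := by
    rw [h5, h7, Option.some_inj]
    rfl
  by_cases h9 : ω ∈ good Φ j
  · rw [if_pos (h8.2 h9), if_pos h9]
  · rw [if_neg (fun h => h9 (h8.1 h)), if_neg h9]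

end Pool.Agent.RelO
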