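import Pool.Agent.RelO.Targets

/-!
# The maximal inequality at odds that are not fair (job RO-CROSS)
-/

set_option autoImplicit false

namespace Pool.Agent.RelO

open MeasureTheory Set
open scoped ENNReal

namespace CROSS_

/-- The gain of a bet on the bit `i`, on an invariant event on which the bet is on `i`. -/
lemma bet {Ω : Type} [MeasurableSpace Ω] (μ : Measure Ω) (b : Ω → Bool) (Z : Bool → Ω → ℝ)
    (r : Ω → Ω → Prop) {ρ : ℝ} (hρ0 : 0 ≤ ρ) (hb : Measurable b)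
    (hZ : ∀ i, Measurable (Z i)) (hZr : ∀ i ω ω', r ω ω' → Z i ω = Z i ω') (i : Bool)
    (hi : ∀ H : Ω → ℝ≥0∞, Measurable H → (∀ ω ω', r ω ω' → H ω = H ω') →
      ∫⁻ ω in {ω | b ω = i}, H ω ∂μ ≤ ENNReal.ofReal ρ * ∫⁻ ω, H ω ∂μ)
    (hZ0 : ∀ i ω, 0 ≤ Z i ω) (B : Set Ω) (hB : MeasurableSet B)
    (hBr : ∀ ω ω', r ω ω' → (ω ∈ B ↔ ω' ∈ B)) (hle : ∀ ω ∈ B, Z (!i) ω ≤ Z i ω) :
    ∫⁻ ω in B, ENNReal.ofReal (Z (b ω) ω) ∂μ ≤
      ∫⁻ ω in B, ENNReal.ofReal (ρ * Z i ω + (1 - ρ) * Z (!i) ω) ∂μ := by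
  classical
  have hbi : MeasurableSet {ω | b ω = i} := hb (measurableSet_singleton i)
  obtain ⟨H, hH⟩ : ∃ H : Ω → ℝ≥0∞, H = B.indicator fun ω => ENNReal.ofReal (Z i ω - Z (!i) ω) :=
    ⟨_, rfl⟩
  have hHm : Measurable H := by
    rw [hH]
    exact ((hZ i).sub (hZ (!i))).ennreal_ofReal.indicator hB
  have hHr : ∀ ω ω', r ω ω' → H ω = H ω' := by
    intro ω ω' h
    rw [hH]
    by_cases hω : ω ∈ B
    · rw [indicator_of_mem hω, indicator_of_mem ((hBr ω ω' h).1 hω), hZr i ω ω' h,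
        hZr (!i) ω ω' h]
    · rw [indicator_of_notMem hω, indicator_of_notMem fun h' => hω ((hBr ω ω' h).2 h')]
  have h1 := hi H hHm hHr
  -- rewrite the left hand side
  have h2 : ∫⁻ ω in B, ENNReal.ofReal (Z (b ω) ω) ∂μ =
      (∫⁻ ω in B, ENNReal.ofReal (Z (!i) ω) ∂μ) + ∫⁻ ω in {ω | b ω = i}, H ω ∂μ := by
    have h3 : ∫⁻ ω in {ω | b ω = i}, H ω ∂μ =
        ∫⁻ ω in B, ({ω | b ω = i}.indicator fun ω => ENNReal.ofReal (Z i ω - Z (!i) ω)) ω ∂μ := by
      rw [← lintegral_indicator hbi, ← lintegral_indicator hB, hH]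
      refine lintegral_congr fun ω => ?_
      by_cases h4 : ω ∈ B <;> by_cases h5 : ω ∈ {ω | b ω = i} <;> simp [indicator, h4, h5]
    rw [h3, ← lintegral_add_left ((hZ (!i)).ennreal_ofReal)]
    refine setLIntegral_congr_fun hB ?_
    intro ω hω
    simp only
    by_cases h5 : b ω = i
    · have h6 : ω ∈ {ω | b ω = i} := h5
      rw [indicator_of_mem h6, ← ENNReal.ofReal_add (hZ0 _ _) (sub_nonneg.2 (hle ω hω)), h5]
      congr 1
      ring
    · have h6 : ω ∉ {ω | b ω = i} := h5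
      have h7 : b ω = !i := by
        cases hbω : b ω <;> cases i <;> simp_all
      rw [indicator_of_notMem h6, add_zero, h7]
  rw [h2]
  have h4 : ∫⁻ ω, H ω ∂μ = ∫⁻ ω in B, ENNReal.ofReal (Z i ω - Z (!i) ω) ∂μ := by
    rw [hH, lintegral_indicator hB]
  calc (∫⁻ ω in B, ENNReal.ofReal (Z (!i) ω) ∂μ) + ∫⁻ ω in {ω | b ω = i}, H ω ∂μ
      ≤ (∫⁻ ω in B, ENNReal.ofReal (Z (!i) ω) ∂μ) +
        ENNReal.ofReal ρ * ∫⁻ ω in B, ENNReal.ofReal (Z i ω - Z (!i) ω) ∂μ := by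
        rw [← h4]
        gcongr
    _ = ∫⁻ ω in B, (ENNReal.ofReal (Z (!i) ω) +
        ENNReal.ofReal ρ * ENNReal.ofReal (Z i ω - Z (!i) ω)) ∂μ := by
        have hmd : Measurable fun ω => ENNReal.ofReal (Z i ω - Z (!i) ω) :=
          ((hZ i).sub (hZ (!i))).ennreal_ofReal
        rw [lintegral_add_left ((hZ (!i)).ennreal_ofReal), lintegral_const_mul _ hmd]
    _ = _ := by
        refine setLIntegral_congr_fun hB ?_
        intro ω hω
        simp only
        rw [← ENNReal.ofReal_mul hρ0,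
          ← ENNReal.ofReal_add (hZ0 _ _) (mul_nonneg hρ0 (sub_nonneg.2 (hle ω hω)))]
        congr 1
        ring

end CROSS_

open CROSS_ in
/-- The maximal inequality. -/
theorem cross : T_CROSS := by
  intro Ω _ μ _ b X Y r ε a ρ hρ0 hρ1 hb hX hY hYf hbf hXf hφ hX0 hY0 hε hs ha
  obtain ⟨D, hD⟩ : ∃ D : ℕ → Ω → ℝ, D = proc b X Y := ⟨_, rfl⟩
  have D0 : D 0 = Y := by rw [hD]; rfl
  have DS : ∀ t ω, D (t + 1) ω = X t (b t ω) ω := by intro t ω; rw [hD]; rfl
  rw [← hD]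
  have Dm : ∀ t, Measurable (D t) := by
    intro t
    cases t with
    | zero => rw [D0]; exact hY
    | succ t =>
      have h : D (t + 1) = fun ω => if b t ω = true then X t true ω else X t false ω := by
        funext ω
        rw [DS]
        cases b t ω <;> simp
      rw [h]
      exact Measurable.ite (hb t (measurableSet_singleton true)) (hX t true) (hX t false)
  have Dn : ∀ t ω, 0 ≤ D t ω := by
    intro t ω
    cases t with
    | zero => rw [D0]; exact hY0 ω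
    | succ t => rw [DS]; exact hX0 _ _ _
  have Df : ∀ s t, s ≤ t → ∀ ω ω', r t ω ω' → D s ω = D s ω' := by
    intro s t hst ω ω' h
    cases s with
    | zero => rw [D0]; exact hYf t ω ω' h
    | succ s =>
      rw [DS, DS, hbf s t (by omega) ω ω' h, hXf s t (by omega) _ ω ω' h]
  -- the sets on which the process is still running
  obtain ⟨A, hA⟩ : ∃ A : ℕ → Set Ω, ∀ t, A t = {ω | Y ω ≤ a ∧ ∀ s < t, D s ω < 1 / 2 ∧
      ∀ i, ρ * X s i ω + (1 - ρ) * X s (!i) ω ≤ D s ω + ε s} := ⟨_, fun _ => rfl⟩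
  have Am : ∀ t, MeasurableSet (A t) := by
    intro t
    rw [hA]
    have h : {ω | Y ω ≤ a ∧ ∀ s < t, D s ω < 1 / 2 ∧
        ∀ i, ρ * X s i ω + (1 - ρ) * X s (!i) ω ≤ D s ω + ε s} =
        {ω | Y ω ≤ a} ∩ ⋂ s, ⋂ (_ : s < t), ({ω | D s ω < 1 / 2} ∩
          ⋂ i, {ω | ρ * X s i ω + (1 - ρ) * X s (!i) ω ≤ D s ω + ε s}) := by
      ext ω
      simp only [mem_ofPred_eq, mem_inter_iff, mem_iInter]
    rw [h]
    refine (measurableSet_le hY measurable_const).inter ?_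
    refine MeasurableSet.iInter fun s => MeasurableSet.iInter fun _ => ?_
    refine (measurableSet_lt (Dm s) measurable_const).inter ?_
    refine MeasurableSet.iInter fun i => ?_
    exact measurableSet_le (((hX s i).const_mul ρ).add ((hX s (!i)).const_mul (1 - ρ)))
      ((Dm s).add_const (ε s))
  have Af : ∀ t ω ω', r t ω ω' → (ω ∈ A (t + 1) ↔ ω' ∈ A (t + 1)) := by
    intro t ω ω' h
    simp only [hA, mem_ofPred_eq]
    rw [hYf t ω ω' h]
    refine and_congr_right fun _ => forall_congr' fun s => forall_congr' fun hst => ?_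
    rw [Df s t (by omega) ω ω' h]
    refine and_congr_right fun _ => forall_congr' fun i => ?_
    rw [hXf s t (by omega) _ ω ω' h, hXf s t (by omega) _ ω ω' h]
  obtain ⟨H, hH⟩ : ∃ H : ℕ → Set Ω, ∀ t, H t = A t ∩ {ω | 1 / 2 ≤ D t ω} := ⟨_, fun _ => rfl⟩
  have Hm : ∀ t, MeasurableSet (H t) := by
    intro t
    rw [hH]
    exact (Am t).inter (measurableSet_le measurable_const (Dm t))
  obtain ⟨U, hU⟩ : ∃ U : ℕ → ℝ≥0∞, ∀ t, U t = ∫⁻ ω in A t, ENNReal.ofReal (D t ω) ∂μ :=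
    ⟨_, fun _ => rfl⟩
  -- one step
  have hstep : ∀ t, U (t + 1) + 2⁻¹ * μ (H t) ≤ U t + ENNReal.ofReal (ε t) := by
    intro t
    have hsubA : A (t + 1) ⊆ A t := by
      intro ω hω
      rw [hA, mem_ofPred_eq] at hω ⊢
      exact ⟨hω.1, fun s hs => hω.2 s (by omega)⟩
    have h2 : U (t + 1) = ∫⁻ ω in A (t + 1), ENNReal.ofReal (X t (b t ω) ω) ∂μ := by
      rw [hU]
      exact lintegral_congr fun ω => by rw [DS]
    -- the two kinds of bets
    obtain ⟨S, hS⟩ : ∃ S : Set Ω, S = {ω | X t false ω ≤ X t true ω} := ⟨_, rfl⟩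
    have Sm : MeasurableSet S := by
      rw [hS]
      exact measurableSet_le (hX t false) (hX t true)
    have Sr : ∀ ω ω', r t ω ω' → (ω ∈ S ↔ ω' ∈ S) := by
      intro ω ω' h
      rw [hS]
      simp only [mem_ofPred_eq]
      rw [hXf t t le_rfl _ ω ω' h, hXf t t le_rfl _ ω ω' h]
    have hbet : ∀ (i : Bool) (B : Set Ω), MeasurableSet B → (∀ ω ω', r t ω ω' → (ω ∈ B ↔ ω' ∈ B)) →
        B ⊆ A (t + 1) → (∀ ω ∈ B, X t (!i) ω ≤ X t i ω) →
        ∫⁻ ω in B, ENNReal.ofReal (X t (b t ω) ω) ∂μ ≤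
          ∫⁻ ω in B, ENNReal.ofReal (D t ω + ε t) ∂μ := by
      intro i B hB hBr hBA hle
      refine (bet μ (b t) (X t) (r t) (by linarith) (hb t) (hX t)
        (fun i ω ω' h => hXf t t le_rfl i ω ω' h) i (hφ t i) (hX0 t) B hB hBr hle).trans ?_
      refine setLIntegral_mono ((Dm t).add_const _).ennreal_ofReal ?_
      intro ω hω
      have h5 := hBA hω
      rw [hA, mem_ofPred_eq] at h5
      exact ENNReal.ofReal_le_ofReal ((h5.2 t (by omega)).2 i)
    have h6 : U (t + 1) ≤ (∫⁻ ω in A (t + 1), ENNReal.ofReal (D t ω) ∂μ) +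
        ENNReal.ofReal (ε t) := by
      rw [h2, ← lintegral_inter_add_sdiff _ (A (t + 1)) Sm]
      have h7 := hbet true (A (t + 1) ∩ S) ((Am _).inter Sm)
        (fun ω ω' h => and_congr (Af t ω ω' h) (Sr ω ω' h)) inter_subset_left
        (fun ω hω => by
          have h8 := hω.2
          rw [hS] at h8
          exact h8)
      have h8 := hbet false (A (t + 1) \ S) ((Am _).diff Sm)
        (fun ω ω' h => and_congr (Af t ω ω' h) (not_congr (Sr ω ω' h))) sdiff_subset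
        (fun ω hω => by
          have h8 := hω.2
          rw [hS, mem_ofPred_eq, not_le] at h8
          exact h8.le)
      refine (add_le_add h7 h8).trans ?_
      rw [lintegral_inter_add_sdiff _ (A (t + 1)) Sm]
      calc ∫⁻ ω in A (t + 1), ENNReal.ofReal (D t ω + ε t) ∂μ
          = ∫⁻ ω in A (t + 1), (ENNReal.ofReal (D t ω) + ENNReal.ofReal (ε t)) ∂μ :=
            lintegral_congr fun ω => ENNReal.ofReal_add (Dn t ω) (hε t)
        _ = (∫⁻ ω in A (t + 1), ENNReal.ofReal (D t ω) ∂μ) +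
            ENNReal.ofReal (ε t) * μ (A (t + 1)) := by
            rw [lintegral_add_right _ measurable_const, setLIntegral_const]
        _ ≤ (∫⁻ ω in A (t + 1), ENNReal.ofReal (D t ω) ∂μ) + ENNReal.ofReal (ε t) * 1 := by
            gcongr
            exact prob_le_one
        _ = _ := by rw [mul_one]
    have hdisj : Disjoint (A (t + 1)) (H t) := by
      rw [Set.disjoint_left]
      intro ω h7 h8
      rw [hA, mem_ofPred_eq] at h7
      rw [hH] at h8
      have h9 := (h7.2 t (by omega)).1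
      have h10 : 1 / 2 ≤ D t ω := h8.2
      linarith
    have h7 : (∫⁻ ω in A (t + 1), ENNReal.ofReal (D t ω) ∂μ) + 2⁻¹ * μ (H t) ≤ U t := by
      have h8 : 2⁻¹ * μ (H t) ≤ ∫⁻ ω in H t, ENNReal.ofReal (D t ω) ∂μ := by
        rw [← setLIntegral_const]
        refine setLIntegral_mono (Dm t).ennreal_ofReal ?_
        intro ω hω
        rw [hH] at hω
        have h9 : 1 / 2 ≤ D t ω := hω.2
        calc (2⁻¹ : ℝ≥0∞) = ENNReal.ofReal (1 / 2) := by
              rw [one_div, ENNReal.ofReal_inv_of_pos (by norm_num), ENNReal.ofReal_ofNat]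
          _ ≤ _ := ENNReal.ofReal_le_ofReal h9
      calc (∫⁻ ω in A (t + 1), ENNReal.ofReal (D t ω) ∂μ) + 2⁻¹ * μ (H t)
          ≤ (∫⁻ ω in A (t + 1), ENNReal.ofReal (D t ω) ∂μ) +
            ∫⁻ ω in H t, ENNReal.ofReal (D t ω) ∂μ := by gcongr
        _ = ∫⁻ ω in A (t + 1) ∪ H t, ENNReal.ofReal (D t ω) ∂μ :=
            (lintegral_union (Hm t) hdisj).symm
        _ ≤ U t := by
            rw [hU]
            refine lintegral_mono_set (union_subset hsubA ?_)
            rw [hH]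
            exact inter_subset_left
    calc U (t + 1) + 2⁻¹ * μ (H t) ≤ ((∫⁻ ω in A (t + 1), ENNReal.ofReal (D t ω) ∂μ) +
        ENNReal.ofReal (ε t)) + 2⁻¹ * μ (H t) := by gcongr
      _ = ((∫⁻ ω in A (t + 1), ENNReal.ofReal (D t ω) ∂μ) + 2⁻¹ * μ (H t)) +
        ENNReal.ofReal (ε t) := by ring
      _ ≤ U t + ENNReal.ofReal (ε t) := by gcongr
  -- summation
  have hsum : ∀ T, U T + ∑ t ∈ Finset.range T, 2⁻¹ * μ (H t) ≤
      ENNReal.ofReal a + ∑ t ∈ Finset.range T, ENNReal.ofReal (ε t) := by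
    intro T
    induction T with
    | zero =>
      simp only [Finset.range_zero, Finset.sum_empty, add_zero]
      rw [hU]
      calc ∫⁻ ω in A 0, ENNReal.ofReal (D 0 ω) ∂μ ≤ ∫⁻ _ in A 0, ENNReal.ofReal a ∂μ := by
            refine setLIntegral_mono measurable_const ?_
            intro ω hω
            rw [hA, mem_ofPred_eq] at hω
            rw [D0]
            exact ENNReal.ofReal_le_ofReal hω.1
        _ = ENNReal.ofReal a * μ (A 0) := setLIntegral_const _ _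
        _ ≤ ENNReal.ofReal a * 1 := by
            gcongr
            exact prob_le_one
        _ = ENNReal.ofReal a := mul_one _
    | succ T ih =>
      rw [Finset.sum_range_succ, Finset.sum_range_succ]
      calc U (T + 1) + (∑ t ∈ Finset.range T, 2⁻¹ * μ (H t) + 2⁻¹ * μ (H T))
          = (U (T + 1) + 2⁻¹ * μ (H T)) + ∑ t ∈ Finset.range T, 2⁻¹ * μ (H t) := by ring
        _ ≤ (U T + ENNReal.ofReal (ε T)) + ∑ t ∈ Finset.range T, 2⁻¹ * μ (H t) :=
            add_le_add_left (hstep T) _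
        _ = (U T + ∑ t ∈ Finset.range T, 2⁻¹ * μ (H t)) + ENNReal.ofReal (ε T) := by ring
        _ ≤ (ENNReal.ofReal a + ∑ t ∈ Finset.range T, ENNReal.ofReal (ε t)) +
            ENNReal.ofReal (ε T) := by gcongr
        _ = _ := by ring
  have htot : ∑' t, 2⁻¹ * μ (H t) ≤ ENNReal.ofReal (a + ∑' t, ε t) := by
    refine ENNReal.tsum_le_of_sum_range_le fun T => ?_
    calc ∑ t ∈ Finset.range T, 2⁻¹ * μ (H t) ≤ U T + ∑ t ∈ Finset.range T, 2⁻¹ * μ (H t) :=
          le_add_self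
      _ ≤ ENNReal.ofReal a + ∑ t ∈ Finset.range T, ENNReal.ofReal (ε t) := hsum T
      _ = ENNReal.ofReal (a + ∑ t ∈ Finset.range T, ε t) := by
          rw [← ENNReal.ofReal_sum_of_nonneg (fun t _ => hε t),
            ← ENNReal.ofReal_add ha (Finset.sum_nonneg fun t _ => hε t)]
      _ ≤ _ := by
          apply ENNReal.ofReal_le_ofReal
          have := hs.sum_le_tsum (Finset.range T) (fun t _ => hε t)
          linarith
  -- the event is covered
  have hcov : {ω | Y ω ≤ a ∧ (∀ t i, ρ * X t i ω + (1 - ρ) * X t (!i) ω ≤ D t ω + ε t) ∧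
      ∃ t, 1 / 2 ≤ D t ω} ⊆ ⋃ t, H t := by
    rintro ω ⟨h1, h2, h3⟩
    classical
    refine mem_iUnion.2 ⟨Nat.find h3, ?_⟩
    rw [hH]
    refine ⟨?_, Nat.find_spec h3⟩
    rw [hA, mem_ofPred_eq]
    exact ⟨h1, fun s hs => ⟨not_le.1 (Nat.find_min h3 hs), h2 s⟩⟩
  calc μ {ω | Y ω ≤ a ∧ (∀ t i, ρ * X t i ω + (1 - ρ) * X t (!i) ω ≤ D t ω + ε t) ∧
      ∃ t, 1 / 2 ≤ D t ω} ≤ μ (⋃ t, H t) := measure_mono hcov
    _ ≤ ∑' t, μ (H t) := measure_iUnion_le _
    _ = 2 * ∑' t, 2⁻¹ * μ (H t) := by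
        rw [ENNReal.tsum_mul_left, ← mul_assoc, ENNReal.mul_inv_cancel (by norm_num) (by norm_num),
          one_mul]
    _ ≤ 2 * ENNReal.ofReal (a + ∑' t, ε t) := by gcongr
    _ = ENNReal.ofReal (2 * (a + ∑' t, ε t)) := by
        rw [ENNReal.ofReal_mul (by norm_num), ENNReal.ofReal_ofNat]

end Pool.Agent.RelO
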