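import Pool.Agent.RelO.Targets

/-!
# Job RO-DEN: the density functions
-/

set_option autoImplicit false

namespace Pool.Agent.RelO

open Pool.Agent.RelM (Lang IsDensity)

namespace DEN_

variable (Φ : Fam) (η : ℕ → Bool)

/-- The stages that matter for `w` of length `L`. -/
noncomputable def ix (e L : ℕ) : Finset ℕ :=
  (Finset.range L).filter (fun j => st j = e ∧ 2 ^ nn Φ j ≤ L)

lemma lt_of_pow (hg : T_NNGE) {j L : ℕ} (h : 2 ^ nn Φ j ≤ L) : j < L := by
  have h1 := hg Φ j
  have h2 : nn Φ j < 2 ^ nn Φ j := Nat.lt_two_pow_self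
  omega

lemma mem_ix (hg : T_NNGE) {e L j : ℕ} : j ∈ ix Φ e L ↔ st j = e ∧ 2 ^ nn Φ j ≤ L := by
  unfold ix
  rw [Finset.mem_filter, Finset.mem_range]
  constructor
  · exact fun h => h.2
  · exact fun h => ⟨lt_of_pow Φ hg h.2, h⟩

lemma mst_eq (e : ℕ) (w : List Bool) : Mst Φ η e w = ∏ j ∈ ix Φ e w.length,
    (if w[2 ^ nn Φ j - 1]? = some (η j) then 1 + ep j else 1 - ep j) := rfl

lemma mst_one (e : ℕ) (w : List Bool) (h : w.length ≤ e) : Mst Φ η e w = 1 := by
  rw [mst_eq]
  have : ix Φ e w.length = ∅ := by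
    unfold ix
    rw [Finset.filter_eq_empty_iff]
    intro j hj
    rw [Finset.mem_range] at hj
    rintro ⟨h1, -⟩
    have h2 : (Nat.unpair j).1 ≤ j := Nat.unpair_left_le j
    unfold st at h1
    omega
  rw [this, Finset.prod_empty]

lemma fac_nonneg (hE : T_EP) (j : ℕ) (P : Prop) [Decidable P] :
    0 ≤ (if P then 1 + ep j else 1 - ep j : ℝ) := by
  have h := hE j
  split_ifs <;> linarith [h.1, h.2]

lemma mst_nonneg (hE : T_EP) (e : ℕ) (w : List Bool) : 0 ≤ Mst Φ η e w := by
  rw [mst_eq]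
  exact Finset.prod_nonneg fun j _ => fac_nonneg hE j _

/-- The factors of the old stages do not change. -/
lemma old_prod (e : ℕ) (w : List Bool) (b : Bool) : (∏ j ∈ ix Φ e w.length,
    (if (w ++ [b])[2 ^ nn Φ j - 1]? = some (η j) then 1 + ep j else 1 - ep j)) =
      Mst Φ η e w := by
  rw [mst_eq]
  refine Finset.prod_congr rfl fun j hj => ?_
  have h1 : 2 ^ nn Φ j ≤ w.length := (Finset.mem_filter.1 hj).2.2
  have h2 : 0 < 2 ^ nn Φ j := by positivity
  rw [List.getElem?_append_left (by omega)]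

lemma mst_avg (hm : T_NNMONO) (hg : T_NNGE) (e : ℕ) (w : List Bool) :
    (Mst Φ η e (w ++ [false]) + Mst Φ η e (w ++ [true])) / 2 = Mst Φ η e w := by
  have hlen : ∀ b, (w ++ [b]).length = w.length + 1 := fun b => by simp
  by_cases h : ∃ j, st j = e ∧ 2 ^ nn Φ j = w.length + 1
  · obtain ⟨j, hj, hj2⟩ := h
    have hins : ix Φ e (w.length + 1) = insert j (ix Φ e w.length) := by
      ext i
      rw [Finset.mem_insert, mem_ix Φ hg, mem_ix Φ hg]
      constructor
      · rintro ⟨h1, h2⟩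
        rcases Nat.lt_or_ge w.length (2 ^ nn Φ i) with h3 | h3
        · left
          have h4 : 2 ^ nn Φ i = 2 ^ nn Φ j := by omega
          exact (hm Φ).injective (Nat.pow_right_injective (le_refl 2) h4)
        · exact Or.inr ⟨h1, h3⟩
      · rintro (rfl | ⟨h1, h2⟩)
        · exact ⟨hj, hj2.le⟩
        · exact ⟨h1, by omega⟩
    have hnot : j ∉ ix Φ e w.length := by
      rw [mem_ix Φ hg]
      rintro ⟨-, h⟩
      omega
    have key : ∀ b, Mst Φ η e (w ++ [b]) =
        (if b = η j then 1 + ep j else 1 - ep j) * Mst Φ η e w := by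
      intro b
      rw [mst_eq, hlen, hins, Finset.prod_insert hnot, old_prod]
      have h1 : (w ++ [b])[2 ^ nn Φ j - 1]? = some b := by
        rw [hj2, List.getElem?_append_right (by omega)]
        simp
      rw [h1]
      simp only [Option.some.injEq]
    rw [key, key]
    cases hη : η j <;> simp <;> ring
  · have hsame : ix Φ e (w.length + 1) = ix Φ e w.length := by
      ext i
      rw [mem_ix Φ hg, mem_ix Φ hg]
      constructor
      · rintro ⟨h1, h2⟩
        refine ⟨h1, ?_⟩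
        by_contra h3
        exact h ⟨i, h1, by omega⟩
      · rintro ⟨h1, h2⟩
        exact ⟨h1, by omega⟩
    have key : ∀ b, Mst Φ η e (w ++ [b]) = Mst Φ η e w := by
      intro b
      rw [mst_eq, hlen, hsame, old_prod]
    rw [key, key]
    ring

end DEN_

open DEN_

theorem ddens (hm : T_NNMONO) (hg : T_NNGE) (hE : T_EP) : T_DDENS := by
  intro Φ η k
  refine ⟨fun w => ?_, fun w => ?_⟩
  · unfold dd
    have h : 0 ≤ ∑ e ∈ Finset.range w.length, (1 / 2 : ℝ) ^ (e + 1) * Mst Φ η e w :=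
      Finset.sum_nonneg fun e _ => mul_nonneg (by positivity) (mst_nonneg Φ η hE e w)
    positivity
  · apply le_of_eq
    unfold dd
    simp only [List.length_append, List.length_singleton]
    have h2 : (∑ e ∈ Finset.range (w.length + 1),
          (1 / 2 : ℝ) ^ (e + 1) * Mst Φ η e (w ++ [false]) +
        ∑ e ∈ Finset.range (w.length + 1),
          (1 / 2 : ℝ) ^ (e + 1) * Mst Φ η e (w ++ [true])) / 2 =
        ∑ e ∈ Finset.range (w.length + 1), (1 / 2 : ℝ) ^ (e + 1) * Mst Φ η e w := by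
      rw [← Finset.sum_add_distrib, Finset.sum_div]
      refine Finset.sum_congr rfl fun e _ => ?_
      rw [← mst_avg Φ η hm hg e w]
      ring
    rw [Finset.sum_range_succ (fun e => (1 / 2 : ℝ) ^ (e + 1) * Mst Φ η e w),
      mst_one Φ η w.length w le_rfl] at h2
    have h3 : (1 / 2 : ℝ) ^ w.length = (1 / 2 : ℝ) ^ (w.length + 1) + (1 / 2) ^ (w.length + 1) := by
      rw [pow_succ]
      ring
    rw [h3]
    linear_combination (1 / 2 : ℝ) ^ k * h2

theorem dlam : T_DLAM := by
  intro Φ η k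
  unfold dd
  simp

theorem dlow (hE : T_EP) : T_DLOW := by
  intro Φ η k e w hw
  unfold dd
  have h1 : (1 / 2 : ℝ) ^ (e + 1) * Mst Φ η e w ≤
      ∑ e ∈ Finset.range w.length, (1 / 2 : ℝ) ^ (e + 1) * Mst Φ η e w :=
    Finset.single_le_sum
      (f := fun e => (1 / 2 : ℝ) ^ (e + 1) * Mst Φ η e w)
      (fun e _ => mul_nonneg (by positivity) (mst_nonneg Φ η hE e w)) (Finset.mem_range.2 hw)
  have h2 : (0 : ℝ) ≤ (1 / 2) ^ w.length := by positivity
  have h3 : (1 / 2 : ℝ) ^ (k + e + 1) * Mst Φ η e w =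
      (1 / 2 : ℝ) ^ k * ((1 / 2 : ℝ) ^ (e + 1) * Mst Φ η e w) := by
    rw [add_assoc, pow_add]
    ring
  rw [h3]
  exact mul_le_mul_of_nonneg_left (by linarith) (by positivity)

theorem dlocal : T_DLOCAL := by
  intro Φ η η' k w h
  unfold dd
  have : ∀ e, Mst Φ η e w = Mst Φ η' e w := by
    intro e
    rw [mst_eq, mst_eq]
    refine Finset.prod_congr rfl fun j hj => ?_
    rw [h j (Finset.mem_filter.1 hj).2.2]
  simp only [this]

end Pool.Agent.RelO
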