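import Pool.Agent.RelO.Targets

/-!
# The advantages
-/

set_option autoImplicit false

namespace Pool.Agent.RelO

theorem eppos : T_EP := by
  intro j
  have h1 : 1 ≤ Nat.log 2 (j + 2) := by
    apply Nat.le_log_of_pow_le (by norm_num)
    omega
  have h2 : (1 : ℝ) ≤ (Nat.log 2 (j + 2) : ℝ) := by exact_mod_cast h1
  unfold ep
  refine ⟨by positivity, ?_⟩
  rw [div_le_div_iff₀ (by positivity) (by norm_num)]
  linarith

theorem eplim : T_EPLIM := by
  have h1 : Filter.Tendsto (fun j : ℕ => Nat.log 2 (j + 2)) Filter.atTop Filter.atTop := by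
    rw [Filter.tendsto_atTop]
    intro b
    filter_upwards [Filter.eventually_ge_atTop (2 ^ b)] with j hj
    apply Nat.le_log_of_pow_le (by norm_num)
    omega
  have h2 : Filter.Tendsto (fun j : ℕ => 8 * ((Nat.log 2 (j + 2) : ℝ) + 1)) Filter.atTop
      Filter.atTop := by
    apply Filter.Tendsto.const_mul_atTop (by norm_num)
    apply Filter.tendsto_atTop_add_const_right
    exact tendsto_natCast_atTop_atTop.comp h1
  have h3 := h2.inv_tendsto_atTop
  refine h3.congr ?_
  intro j
  unfold ep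
  simp

namespace EP_

theorem sq_le (k : ℕ) : k ^ 2 ≤ 2 * 2 ^ k := by
  rcases Nat.lt_or_ge k 4 with h | h
  · interval_cases k <;> norm_num
  · induction k, h using Nat.le_induction with
    | base => norm_num
    | succ n hn ih =>
      have h1 : 2 ^ (n + 1) = 2 * 2 ^ n := by rw [pow_succ]; ring
      rw [h1]
      nlinarith

theorem log_sq_le (n : ℕ) (hn : 1 ≤ n) : (Nat.log 2 n) ^ 2 ≤ 2 * n :=
  le_trans (sq_le _) (Nat.mul_le_mul_left 2 (Nat.pow_log_le_self 2 (by omega)))

theorem pair_le (e m : ℕ) : Nat.pair e m + 2 ≤ (m + e + 2) ^ 2 := by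
  have h := Nat.pair_lt_max_add_one_sq e m
  have h2 : max e m + 1 ≤ m + e + 1 := by omega
  have h3 := Nat.pow_le_pow_left h2 2
  nlinarith

theorem log_pair (e m : ℕ) :
    Nat.log 2 (Nat.pair e m + 2) + 1 ≤ 2 * Nat.log 2 (m + e + 2) + 2 := by
  have h1 : Nat.pair e m + 2 < 2 ^ (2 * Nat.log 2 (m + e + 2) + 2) := by
    have h2 : m + e + 2 < 2 ^ (Nat.log 2 (m + e + 2) + 1) :=
      Nat.lt_pow_succ_log_self (by norm_num) _
    have h3 : 2 ^ (2 * Nat.log 2 (m + e + 2) + 2) = (2 ^ (Nat.log 2 (m + e + 2) + 1)) ^ 2 := by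
      rw [← pow_mul]; congr 1; ring
    rw [h3]
    exact lt_of_le_of_lt (pair_le e m) (Nat.pow_lt_pow_left h2 (by norm_num))
  have h4 := (Nat.log_lt_iff_lt_pow (by norm_num) (by omega)).2 h1
  omega

theorem ep_ge (e m : ℕ) : 1 / (2000 * ((m : ℝ) + e + 2)) ≤ ep (Nat.pair e m) ^ 2 := by
  have h1 := log_pair e m
  have h2 := log_sq_le (m + e + 2) (by omega)
  set a := Nat.log 2 (m + e + 2) with ha
  have h3 : (Nat.log 2 (Nat.pair e m + 2) + 1) ^ 2 ≤ 24 * (m + e + 2) := by
    have h4 := Nat.pow_le_pow_left h1 2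
    nlinarith
  have h5 : ((Nat.log 2 (Nat.pair e m + 2) : ℝ) + 1) ^ 2 ≤ 24 * ((m : ℝ) + e + 2) := by
    exact_mod_cast h3
  unfold ep
  rw [div_pow, one_pow]
  apply one_div_le_one_div_of_le (by positivity)
  rw [mul_pow]
  have h6 : (0 : ℝ) ≤ (m : ℝ) + e + 2 := by positivity
  nlinarith

end EP_

theorem epdiv : T_DIV := by
  intro e hs
  have hinj : Function.Injective (fun m : ℕ => Nat.pair e m) := by
    intro a b h
    have := congrArg (fun x => (Nat.unpair x).2) h
    simpa using this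
  have h1 := hs.comp_injective hinj
  have h2 : Summable (fun m : ℕ => 1 / (2000 * ((m : ℝ) + e + 2))) := by
    refine Summable.of_nonneg_of_le (fun m => by positivity) (fun m => ?_) h1
    have h3 := EP_.ep_ge e m
    simpa [Function.comp_def, st] using h3
  have h4 : Summable (fun m : ℕ => 1 / ((m : ℝ) + e + 2)) := by
    have h5 := h2.mul_left 2000
    refine h5.congr ?_
    intro m
    have h6 : (0 : ℝ) < (m : ℝ) + e + 2 := by positivity
    field_simp
  have h7 : Summable (fun m : ℕ => 1 / (((m + (e + 2) : ℕ)) : ℝ)) := by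
    refine h4.congr ?_
    intro m
    push_cast
    ring
  exact Real.not_summable_one_div_natCast
    ((summable_nat_add_iff (f := fun m : ℕ => 1 / (m : ℝ)) (e + 2)).1 h7)

end Pool.Agent.RelO
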