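import Pool.Agent.RelO.Targets
import Pool.Agent.RelM.E2R
import Pool.Agent.RelM.LOC

/-!
# Job RO-ER: the hidden languages are in the classes `E` and `E_2`
-/

set_option autoImplicit false

namespace Pool.Agent.RelO

open MeasureTheory Set
open scoped ENNReal
open Pool.Agent.RelM (Lang Instr Cfg step run Halts Decides E1 E2 NP pair triple binVal outVal
  Approx IsDensity str pre IsNullCover Null1 Null2 wq sq0 sq1 Asks hq Idx Om fair coin Rl mixP
  eprog eprog_run eprog_length)

namespace ER_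

/-- The program decides the hidden language in time `2 ^ (lev κ x + κ + 5)`. -/
lemma decides (hs : Pool.Agent.RelM.T_STAY) (h0 : T_OSQ0) (h1 : T_OSQ1) (G : Lang) (ω : Om)
    (κ : ℕ) (T : ℕ → ℕ) (hT : ∀ x : List Bool, 2 ^ (lev κ x + κ + 5) ≤ T x.length) :
    Decides (orc G ω) (eprog κ) (Rl ω κ) T := by
  intro x
  set O := orc G ω with hO
  set M := 2 ^ lev κ x with hM
  have hrun := eprog_run O κ M x
    (fun m hm h => by
      have := (h0 _ G ω κ x m).1 h
      omega) ((h0 _ G ω κ x M).2 le_rfl)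
  have hhalt : Halts O (eprog κ) x (7 * M + κ + 12) := by
    unfold Halts
    rw [hrun, eprog_length]
  have htime : 7 * M + κ + 12 ≤ T x.length := by
    refine le_trans ?_ (hT x)
    have h1 : κ + 12 ≤ 2 ^ (κ + 4) := by
      have : κ < 2 ^ κ := Nat.lt_two_pow_self
      have h2 : 2 ^ (κ + 4) = 16 * 2 ^ κ := by rw [pow_add]; ring
      omega
    have h2 : 2 ^ (κ + 4) ≤ 2 ^ (lev κ x + κ + 4) := Nat.pow_le_pow_right (by norm_num) (by omega)
    have h3 : 7 * M ≤ 2 ^ (lev κ x + κ + 4) := by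
      have : 2 ^ (lev κ x + κ + 4) = 2 ^ lev κ x * (16 * 2 ^ κ) := by
        rw [add_assoc, pow_add, pow_add]; ring
      rw [this, hM, mul_comm]
      have : 1 ≤ 2 ^ κ := Nat.one_le_two_pow
      exact Nat.mul_le_mul_left _ (by omega)
    have : 2 ^ (lev κ x + κ + 5) = 2 ^ (lev κ x + κ + 4) + 2 ^ (lev κ x + κ + 4) := by
      rw [pow_succ]; ring
    omega
  have hrun' : run O (eprog κ) x (T x.length) =
      run O (eprog κ) x (7 * M + κ + 12) := hs _ _ _ _ _ hhalt htime
  constructor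
  · unfold Halts at hhalt ⊢
    rw [hrun']
    exact hhalt
  · rw [hrun', hrun]
    simp only [Function.update_self, List.cons.injEq, and_true]
    rw [Bool.eq_iff_iff]
    rw [hO, orc, h1 _ G ω κ x M]
    simp [hM]

end ER_

open ER_

theorem e1r (h0 : T_OSQ0) (h1 : T_OSQ1) : T_E1R := by
  intro G ω c
  refine ⟨eprog (2 * c + 1), 6 * c + 12, decides Pool.Agent.RelM.stay h0 h1 G ω _ _ ?_⟩
  intro x
  refine Nat.pow_le_pow_right (by norm_num) ?_
  have h : lev (2 * c + 1) x = (2 * c + 1 + 2) * (x.length + 2) := by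
    unfold lev
    rw [if_neg (by omega)]
  rw [h]
  nlinarith

theorem e2r (h0 : T_OSQ0) (h1 : T_OSQ1) : T_E2R := by
  intro G ω c
  refine ⟨eprog (2 * c), 2 * c + 6, decides Pool.Agent.RelM.stay h0 h1 G ω _ _ ?_⟩
  intro x
  refine Nat.pow_le_pow_right (by norm_num) ?_
  have h : lev (2 * c) x = (x.length + 2) ^ (2 * c + 2) := by
    unfold lev
    rw [if_pos (by omega)]
  rw [h]
  have h5 : (x.length + 2) ^ (2 * c + 6) = (x.length + 2) ^ (2 * c + 2) * (x.length + 2) ^ 4 := by
    rw [← pow_add]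
  have h6 : 16 ≤ (x.length + 2) ^ 4 := by
    calc 16 = 2 ^ 4 := by norm_num
      _ ≤ _ := Nat.pow_le_pow_left (by omega) _
  have h7 : 2 * c + 2 < (x.length + 2) ^ (2 * c + 2) :=
    lt_of_lt_of_le Nat.lt_two_pow_self (Nat.pow_le_pow_left (by omega) _)
  have h8 : 0 < (x.length + 2) ^ (2 * c + 2) := by positivity
  rw [h5]
  nlinarith

end Pool.Agent.RelO
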