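import Pool.Agent.RelO.Targets
import Pool.Agent.RelM.LOC

/-!
# The time bounds are small compared with the lengths of the keys (job RO-FAST)
-/

set_option autoImplicit false

namespace Pool.Agent.RelO

open Pool.Agent.RelM (str)

namespace FAST_

lemma lt_two_pow (t : ℕ) : t + 1 < 2 ^ (Nat.log 2 (t + 1) + 1) :=
  Nat.lt_pow_succ_log_self (by norm_num) _

/-- The two inequalities from bounds of the exponents. -/
lemma core {t l T A K L : ℕ} (hL : t + 1 < 2 ^ (L + 1)) (hl : l ≤ 8 * (t + 1)) (hT : T ≤ 2 ^ A)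
    (h1 : L + 4 < K) (h3 : 2 * L + 5 + A ≤ K) (h4 : A + 1 < K) :
    l + T < 2 ^ K ∧ 6 * (t + 1) ^ 2 * T ≤ 2 ^ K := by
  have hl' : l < 2 ^ (L + 4) := by
    have : (2 : ℕ) ^ (L + 4) = 8 * 2 ^ (L + 1) := by ring
    omega
  constructor
  · have e1 : (2 : ℕ) ^ (L + 4) ≤ 2 ^ (K - 1) := Nat.pow_le_pow_right (by norm_num) (by omega)
    have e2 : (2 : ℕ) ^ A ≤ 2 ^ (K - 1) := Nat.pow_le_pow_right (by norm_num) (by omega)
    have e3 : (2 : ℕ) ^ K = 2 ^ (K - 1) + 2 ^ (K - 1) := by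
      obtain ⟨m, rfl⟩ : ∃ m, K = m + 1 := ⟨K - 1, by omega⟩
      rw [Nat.add_sub_cancel]
      ring
    omega
  · have e1 : (t + 1) ^ 2 ≤ (2 ^ (L + 1)) ^ 2 := Nat.pow_le_pow_left hL.le 2
    calc 6 * (t + 1) ^ 2 * T ≤ 8 * (2 ^ (L + 1)) ^ 2 * 2 ^ A := by
          apply Nat.mul_le_mul _ hT
          apply Nat.mul_le_mul (by norm_num) e1
      _ = 2 ^ (2 * L + 5 + A) := by
          rw [show (8 : ℕ) = 2 ^ 3 by norm_num, ← pow_mul, ← pow_add, ← pow_add]
          congr 1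
          ring
      _ ≤ 2 ^ K := Nat.pow_le_pow_right (by norm_num) h3

end FAST_

open FAST_ in
/-- Polynomial time is small compared with the keys of an odd family. -/
theorem fast1 : T_FAST1 := by
  intro c
  refine ⟨0, fun t _ l hl => ?_⟩
  have hlen : (str t).length = Nat.log 2 (t + 1) := Pool.Agent.RelM.strlen t
  have hL := lt_two_pow t
  set L := Nat.log 2 (t + 1) with hLdef
  have hlev : lev (2 * (5 * c + 5) + 1) (str t) = (10 * c + 13) * (L + 2) := by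
    unfold lev
    rw [if_neg (by omega), hlen]
    congr 1
    ring
  rw [hlev]
  refine core (A := c * (L + 5)) hL hl ?_ ?_ ?_ ?_
  · have h1 : l + 2 ≤ 2 ^ (L + 5) := by
      have : (2 : ℕ) ^ (L + 5) = 16 * 2 ^ (L + 1) := by ring
      omega
    calc (l + 2) ^ c ≤ (2 ^ (L + 5)) ^ c := Nat.pow_le_pow_left h1 c
      _ = 2 ^ (c * (L + 5)) := by rw [← pow_mul, mul_comm]
  · nlinarith [Nat.zero_le (c * L), Nat.zero_le c, Nat.zero_le L]
  · nlinarith [Nat.zero_le (c * L), Nat.zero_le c, Nat.zero_le L]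
  · nlinarith [Nat.zero_le (c * L), Nat.zero_le c, Nat.zero_le L]

open FAST_ in
/-- Quasi-polynomial time is small compared with the keys of an even family. -/
theorem fast2 : T_FAST2 := by
  intro c
  refine ⟨1, fun t ht l hl => ?_⟩
  have hlen : (str t).length = Nat.log 2 (t + 1) := Pool.Agent.RelM.strlen t
  have hL := lt_two_pow t
  have hL1 : 1 ≤ Nat.log 2 (t + 1) := by
    rw [Nat.one_le_iff_ne_zero]
    intro h
    rw [Nat.log_eq_zero_iff] at h
    omega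
  set L := Nat.log 2 (t + 1) with hLdef
  have hlev : lev (2 * (c + 1)) (str t) = (L + 2) ^ (2 * c + 4) := by
    unfold lev
    rw [if_pos (by omega), hlen, show 2 * (c + 1) + 2 = 2 * c + 4 by ring]
  rw [hlev]
  have hlog : Nat.log 2 l + 2 ≤ L + 5 := by
    have h1 : l < 2 ^ (L + 4) := by
      have : (2 : ℕ) ^ (L + 4) = 8 * 2 ^ (L + 1) := by ring
      omega
    have h2 : Nat.log 2 l < L + 4 := Nat.log_lt_of_lt_pow' (by omega) h1
    omega
  have hA : (L + 5) ^ c ≤ (L + 2) ^ (2 * c) := by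
    rw [pow_mul]
    exact Nat.pow_le_pow_left (by nlinarith) c
  have hpos : 1 ≤ (L + 2) ^ (2 * c) := Nat.one_le_pow _ _ (by omega)
  have hK : (L + 2) ^ (2 * c + 4) = (L + 2) ^ (2 * c) * (L + 2) ^ 4 := pow_add _ _ _
  have h4 : (L + 2) ^ 4 = (L + 2) * (L + 2) * ((L + 2) * (L + 2)) := by ring
  have h5 : 2 * L + 8 ≤ (L + 2) ^ 4 - 1 := by
    rw [h4]
    have : 9 ≤ (L + 2) * (L + 2) := by nlinarith
    have : 9 * ((L + 2) * (L + 2)) ≤ (L + 2) * (L + 2) * ((L + 2) * (L + 2)) := by nlinarith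
    have h7 : 2 * L + 9 ≤ 9 * ((L + 2) * (L + 2)) := by nlinarith
    omega
  have h6 : 2 * L + 8 + (L + 2) ^ (2 * c) ≤ (L + 2) ^ (2 * c + 4) := by
    rw [hK]
    obtain ⟨m, hm⟩ : ∃ m, (L + 2) ^ 4 = m + 1 := ⟨(L + 2) ^ 4 - 1, by
      have : 1 ≤ (L + 2) ^ 4 := Nat.one_le_pow _ _ (by omega)
      omega⟩
    rw [hm] at h5 ⊢
    have h8 : 2 * L + 8 ≤ m := by omega
    calc 2 * L + 8 + (L + 2) ^ (2 * c) ≤ (L + 2) ^ (2 * c) * m + (L + 2) ^ (2 * c) := by
          nlinarith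
      _ = (L + 2) ^ (2 * c) * (m + 1) := by ring
  refine core (A := (L + 5) ^ c) hL hl ?_ ?_ ?_ ?_
  · exact Nat.pow_le_pow_right (by norm_num) (Nat.pow_le_pow_left hlog c)
  · omega
  · omega
  · omega

end Pool.Agent.RelO
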