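import Pool.Agent.RelO.Targets

set_option autoImplicit false

namespace Pool.Agent.RelO

open MeasureTheory Set
open scoped ENNReal

namespace GROW_

open Classical in
/-- The capital. -/
noncomputable def w {Ω : Type} (S : ℕ → Set Ω) (ε : ℕ → ℝ) (J : ℕ → Prop) (n : ℕ) (ω : Ω) : ℝ :=
  ∏ j ∈ (Finset.range n).filter J, (if ω ∈ S j then 1 + ε j else 1 - ε j)

open Classical in
theorem w_succ {Ω : Type} (S : ℕ → Set Ω) (ε : ℕ → ℝ) (J : ℕ → Prop) (n : ℕ) (ω : Ω) :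
    w S ε J (n + 1) ω = if J n then (if ω ∈ S n then 1 + ε n else 1 - ε n) * w S ε J n ω
      else w S ε J n ω := by
  unfold w
  rw [Finset.range_add_one, Finset.filter_insert]
  split_ifs with h1 h2
  · rw [Finset.prod_insert (by simp), if_pos h2]
  · rw [Finset.prod_insert (by simp), if_neg h2]
  · rfl

open Classical in
theorem w_pos {Ω : Type} (S : ℕ → Set Ω) (ε : ℕ → ℝ) (J : ℕ → Prop)
    (h3 : ∀ j, 0 < ε j ∧ ε j ≤ 1 / 4) (n : ℕ) (ω : Ω) : 0 < w S ε J n ω := by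
  unfold w
  refine Finset.prod_pos fun j _ => ?_
  have := h3 j
  split_ifs <;> linarith

open Classical in
theorem w_meas {Ω : Type} [MeasurableSpace Ω] (S : ℕ → Set Ω) (ε : ℕ → ℝ) (J : ℕ → Prop)
    (h1 : ∀ j, MeasurableSet (S j)) (n : ℕ) : Measurable (w S ε J n) := by
  unfold w
  refine Finset.measurable_fun_prod _ fun j _ => ?_
  exact Measurable.ite (h1 j) measurable_const measurable_const

open Classical in
theorem w_congr {Ω : Type} (S : ℕ → Set Ω) (ε : ℕ → ℝ) (J : ℕ → Prop) (n : ℕ) (ω ω' : Ω)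
    (h : ∀ i, i < n → (ω ∈ S i ↔ ω' ∈ S i)) : w S ε J n ω = w S ε J n ω' := by
  unfold w
  refine Finset.prod_congr rfl fun j hj => ?_
  have hj' : j < n := by
    rw [Finset.mem_filter, Finset.mem_range] at hj
    exact hj.1
  by_cases hh : ω ∈ S j
  · rw [if_pos hh, if_pos ((h j hj').1 hh)]
  · rw [if_neg hh, if_neg (fun h' => hh ((h j hj').2 h'))]

open Classical in
theorem w_ge {Ω : Type} (S : ℕ → Set Ω) (ε : ℕ → ℝ) (J : ℕ → Prop)
    (h3 : ∀ j, 0 < ε j ∧ ε j ≤ 1 / 4) (n : ℕ) (ω : Ω) : (3 / 4 : ℝ) ^ n ≤ w S ε J n ω := by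
  induction n with
  | zero => simp [w]
  | succ n ih =>
    rw [w_succ, pow_succ]
    have := h3 n
    have hp : (0 : ℝ) < (3 / 4) ^ n := by positivity
    have hw := w_pos S ε J h3 n ω
    split_ifs
    · nlinarith
    · nlinarith
    · nlinarith

/-- The real inequality of one step. -/
theorem step_ineq (e a b : ℝ) (he : 0 < e) (he' : e ≤ 1 / 4) (ha : 0 ≤ a) (hb : 0 ≤ b)
    (h : (1 / 2 + e) * (a + b) ≤ a) :
    (1 + e)⁻¹ * a + (1 - e)⁻¹ * b ≤ (1 - e ^ 2) * (a + b) := by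
  have h1 : 0 < 1 + e := by linarith
  have h2 : 0 < 1 - e := by linarith
  have h4 : 0 < 1 - e ^ 2 := by nlinarith
  have key : (1 - e) * a + (1 + e) * b ≤ (1 - e ^ 2) ^ 2 * (a + b) := by
    have h5 : (1 - e) * a + (1 + e) * b = (1 + e) * (a + b) - 2 * e * a := by ring
    have h6 : 2 * e * ((1 / 2 + e) * (a + b)) ≤ 2 * e * a :=
      mul_le_mul_of_nonneg_left h (by linarith)
    have h7 : (0 : ℝ) ≤ e ^ 4 * (a + b) := by positivity
    nlinarith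
  have e1 : (1 + e)⁻¹ * a + (1 - e)⁻¹ * b = ((1 - e) * a + (1 + e) * b) / (1 - e ^ 2) := by
    have h8 : (1 : ℝ) - e ^ 2 = (1 + e) * (1 - e) := by ring
    rw [h8]
    field_simp
  rw [e1, div_le_iff₀ h4]
  nlinarith

open Classical in
/-- One step. -/
theorem step {Ω : Type} [MeasurableSpace Ω] (μ : Measure Ω) [IsProbabilityMeasure μ]
    (S : ℕ → Set Ω) (r : ℕ → Ω → Ω → Prop) (ε : ℕ → ℝ) (J : ℕ → Prop)
    (h1 : ∀ j, MeasurableSet (S j))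
    (h2 : ∀ i j, i < j → ∀ ω ω', r j ω ω' → (ω ∈ S i ↔ ω' ∈ S i))
    (h3 : ∀ j, 0 < ε j ∧ ε j ≤ 1 / 4)
    (h4 : ∀ j (H : Ω → ℝ≥0∞), J j → Measurable H → (∀ ω ω', r j ω ω' → H ω = H ω') →
      ENNReal.ofReal (1 / 2 + ε j) * ∫⁻ ω, H ω ∂μ ≤ ∫⁻ ω in S j, H ω ∂μ) (n : ℕ) (hn : J n) :
    ∫⁻ ω, ENNReal.ofReal ((w S ε J (n + 1) ω)⁻¹) ∂μ ≤
      ENNReal.ofReal (1 - ε n ^ 2) * ∫⁻ ω, ENNReal.ofReal ((w S ε J n ω)⁻¹) ∂μ := by
  obtain ⟨he, he'⟩ := h3 n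
  set H : Ω → ℝ≥0∞ := fun ω => ENNReal.ofReal ((w S ε J n ω)⁻¹) with hH
  have hm : Measurable H := (w_meas S ε J h1 n).inv.ennreal_ofReal
  have hinv : ∀ ω ω', r n ω ω' → H ω = H ω' := fun ω ω' h => by
    simp only [hH]
    rw [w_congr S ε J n ω ω' (fun i hi => h2 i n hi ω ω' h)]
  have hfin : ∫⁻ ω, H ω ∂μ < ∞ := by
    have hb : ∀ ω, H ω ≤ ENNReal.ofReal (((3 / 4 : ℝ) ^ n)⁻¹) := fun ω => by
      apply ENNReal.ofReal_le_ofReal
      exact inv_anti₀ (by positivity) (w_ge S ε J h3 n ω)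
    calc ∫⁻ ω, H ω ∂μ ≤ ∫⁻ _, ENNReal.ofReal (((3 / 4 : ℝ) ^ n)⁻¹) ∂μ := lintegral_mono hb
      _ = ENNReal.ofReal (((3 / 4 : ℝ) ^ n)⁻¹) := by simp
      _ < ∞ := ENNReal.ofReal_lt_top
  have hadd : ∫⁻ ω in S n, H ω ∂μ + ∫⁻ ω in (S n)ᶜ, H ω ∂μ = ∫⁻ ω, H ω ∂μ :=
    lintegral_add_compl H (h1 n)
  have hA : ∫⁻ ω in S n, H ω ∂μ ≠ ∞ := by
    intro h
    rw [h, top_add] at hadd
    exact hfin.ne hadd.symm
  have hB : ∫⁻ ω in (S n)ᶜ, H ω ∂μ ≠ ∞ := by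
    intro h
    rw [h, add_top] at hadd
    exact hfin.ne hadd.symm
  have hfac : ∀ ω, ENNReal.ofReal ((w S ε J (n + 1) ω)⁻¹) =
      ENNReal.ofReal ((if ω ∈ S n then 1 + ε n else 1 - ε n)⁻¹) * H ω := fun ω => by
    rw [w_succ, if_pos hn, mul_inv, ENNReal.ofReal_mul]
    rw [inv_nonneg]
    split_ifs <;> linarith
  have hsplit : ∫⁻ ω, ENNReal.ofReal ((w S ε J (n + 1) ω)⁻¹) ∂μ =
      ENNReal.ofReal ((1 + ε n)⁻¹) * ∫⁻ ω in S n, H ω ∂μ +
      ENNReal.ofReal ((1 - ε n)⁻¹) * ∫⁻ ω in (S n)ᶜ, H ω ∂μ := by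
    rw [← lintegral_add_compl _ (h1 n)]
    congr 1
    · rw [← lintegral_const_mul _ hm]
      refine setLIntegral_congr_fun (h1 n) fun ω hω => ?_
      rw [hfac, if_pos hω]
    · rw [← lintegral_const_mul _ hm]
      refine setLIntegral_congr_fun (h1 n).compl fun ω hω => ?_
      rw [hfac, if_neg hω]
  have hkey := h4 n H hn hm hinv
  rw [hsplit, ← hadd]
  rw [← hadd] at hkey
  obtain ⟨a, ha⟩ : ∃ a : ℝ, a = (∫⁻ ω in S n, H ω ∂μ).toReal := ⟨_, rfl⟩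
  obtain ⟨b, hb⟩ : ∃ b : ℝ, b = (∫⁻ ω in (S n)ᶜ, H ω ∂μ).toReal := ⟨_, rfl⟩
  have ha0 : 0 ≤ a := ha ▸ ENNReal.toReal_nonneg
  have hb0 : 0 ≤ b := hb ▸ ENNReal.toReal_nonneg
  have ea : ∫⁻ ω in S n, H ω ∂μ = ENNReal.ofReal a := by rw [ha, ENNReal.ofReal_toReal hA]
  have eb : ∫⁻ ω in (S n)ᶜ, H ω ∂μ = ENNReal.ofReal b := by rw [hb, ENNReal.ofReal_toReal hB]
  rw [ea, eb] at hkey ⊢
  rw [← ENNReal.ofReal_add ha0 hb0] at hkey ⊢
  rw [← ENNReal.ofReal_mul (by linarith)] at hkey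
  have hkey' := (ENNReal.ofReal_le_ofReal_iff ha0).1 hkey
  have hi1 : (0 : ℝ) ≤ (1 + ε n)⁻¹ := by
    rw [inv_nonneg]
    linarith
  have hi2 : (0 : ℝ) ≤ (1 - ε n)⁻¹ := by
    rw [inv_nonneg]
    linarith
  rw [← ENNReal.ofReal_mul hi1, ← ENNReal.ofReal_mul hi2,
    ← ENNReal.ofReal_add (mul_nonneg hi1 ha0) (mul_nonneg hi2 hb0),
    ← ENNReal.ofReal_mul (by nlinarith)]
  exact ENNReal.ofReal_le_ofReal (step_ineq (ε n) a b he he' ha0 hb0 hkey')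

open Classical in
/-- The mean of the inverse of the capital. -/
theorem mean {Ω : Type} [MeasurableSpace Ω] (μ : Measure Ω) [IsProbabilityMeasure μ]
    (S : ℕ → Set Ω) (r : ℕ → Ω → Ω → Prop) (ε : ℕ → ℝ) (J : ℕ → Prop)
    (h1 : ∀ j, MeasurableSet (S j))
    (h2 : ∀ i j, i < j → ∀ ω ω', r j ω ω' → (ω ∈ S i ↔ ω' ∈ S i))
    (h3 : ∀ j, 0 < ε j ∧ ε j ≤ 1 / 4)
    (h4 : ∀ j (H : Ω → ℝ≥0∞), J j → Measurable H → (∀ ω ω', r j ω ω' → H ω = H ω') →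
      ENNReal.ofReal (1 / 2 + ε j) * ∫⁻ ω, H ω ∂μ ≤ ∫⁻ ω in S j, H ω ∂μ) (n : ℕ) :
    ∫⁻ ω, ENNReal.ofReal ((w S ε J n ω)⁻¹) ∂μ ≤
      ENNReal.ofReal (Real.exp (-(∑ j ∈ Finset.range n, if J j then ε j ^ 2 else 0))) := by
  induction n with
  | zero => simp [w]
  | succ n ih =>
    rw [Finset.sum_range_succ]
    by_cases hn : J n
    · refine (step μ S r ε J h1 h2 h3 h4 n hn).trans ?_
      rw [if_pos hn, neg_add, Real.exp_add, mul_comm (Real.exp _),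
        ENNReal.ofReal_mul (Real.exp_pos _).le]
      refine mul_le_mul' (ENNReal.ofReal_le_ofReal ?_) ih
      have := Real.add_one_le_exp (-(ε n ^ 2))
      linarith
    · rw [if_neg hn, add_zero]
      refine le_trans (le_of_eq ?_) ih
      congr 1
      funext ω
      rw [w_succ, if_neg hn]

end GROW_

open Classical in
theorem grow : T_GROW := by
  intro Ω _ μ _ S r ε J h1 h2 h3 h4 h5
  have h6 : ∀ᵐ ω ∂μ, ∀ K : ℕ, ∃ n : ℕ, ((K : ℝ) + 1) ≤ GROW_.w S ε J n ω := by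
    rw [ae_all_iff]
    intro K
    rw [ae_iff]
    have hnn : ∀ j, 0 ≤ (fun j : ℕ => if J j then ε j ^ 2 else 0) j := fun j => by
      dsimp only
      split_ifs
      · positivity
      · exact le_rfl
    have htend := (not_summable_iff_tendsto_nat_atTop_of_nonneg hnn).1 h5
    have hK : (0 : ℝ) < (K : ℝ) + 1 := by positivity
    have hle : ∀ n : ℕ, ENNReal.ofReal (((K : ℝ) + 1)⁻¹) *
        μ {ω | ¬ ∃ n : ℕ, ((K : ℝ) + 1) ≤ GROW_.w S ε J n ω} ≤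
        ENNReal.ofReal (Real.exp (-(∑ j ∈ Finset.range n, if J j then ε j ^ 2 else 0))) := by
      intro n
      refine le_trans ?_ (GROW_.mean μ S r ε J h1 h2 h3 h4 n)
      refine le_trans ?_ (mul_meas_ge_le_lintegral
        ((GROW_.w_meas S ε J h1 n).inv.ennreal_ofReal) (ENNReal.ofReal (((K : ℝ) + 1)⁻¹)))
      refine mul_le_mul' le_rfl (measure_mono fun ω hω => ?_)
      simp only [Set.mem_ofPred_eq, not_exists, not_le] at hω ⊢
      exact ENNReal.ofReal_le_ofReal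
        (inv_anti₀ (GROW_.w_pos S ε J h3 n ω) (hω n).le)
    have hlim : Filter.Tendsto (fun n : ℕ =>
        ENNReal.ofReal (Real.exp (-(∑ j ∈ Finset.range n, if J j then ε j ^ 2 else 0))))
        Filter.atTop (nhds 0) := by
      rw [← ENNReal.ofReal_zero]
      refine ENNReal.tendsto_ofReal ?_
      exact Real.tendsto_exp_atBot.comp (Filter.tendsto_neg_atTop_atBot.comp htend)
    have h0 := ge_of_tendsto' hlim hle
    have h7 : ENNReal.ofReal (((K : ℝ) + 1)⁻¹) ≠ 0 := by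
      rw [ne_eq, ENNReal.ofReal_eq_zero, not_le]
      positivity
    exact (mul_eq_zero.1 (le_antisymm h0 bot_le)).resolve_left h7
  filter_upwards [h6] with ω hω K
  obtain ⟨N, hN⟩ := exists_nat_ge K
  obtain ⟨n, hn⟩ := hω N
  exact ⟨n, by
    have : GROW_.w S ε J n ω = ∏ j ∈ (Finset.range n).filter J,
      (if ω ∈ S j then 1 + ε j else 1 - ε j) := rfl
    rw [← this]
    linarith⟩

end Pool.Agent.RelO
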