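import Pool.Agent.RelO.Targets
import Pool.Agent.RelM.HIT
import Pool.Agent.RelM.LOC
import Pool.Agent.RelM.PROB

/-!
# Finding a hidden key (job RO-HIT)
-/

set_option autoImplicit false

namespace Pool.Agent.RelO

open MeasureTheory Set
open scoped ENNReal
open Pool.Agent.RelM (Lang Instr Cfg step run Halts Decides E1 E2 NP pair triple binVal outVal
  Approx IsDensity str pre IsNullCover Null1 Null2 wq sq0 sq1 Asks hq Idx Om fair coin Rl mixP)

namespace HIT_

/-- Hidden pairs are expensive. -/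
lemma hidden_ge (hMono : T_LEVMONO) (hJJ : T_JJ) (Φ : Fam) (κ t : ℕ) {κ' : ℕ} {x' : List Bool}
    (h : ¬ SS Φ κ t κ' x') : lev κ (str t) ≤ lev κ' x' := by
  by_cases h1 : lev κ' x' < nn Φ (jj Φ (lev κ (str t)))
  · have h2 : κ' = κ ∧ ∃ t', t ≤ t' ∧ x' = str t' := by
      by_contra h3
      exact h ⟨h1, h3⟩
    obtain ⟨rfl, t', ht, rfl⟩ := h2
    refine hMono _ _ _ ?_
    rw [Pool.Agent.RelM.strlen, Pool.Agent.RelM.strlen]
    exact Nat.log_mono_right (by omega)
  · have := (hJJ Φ (lev κ (str t))).1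
    omega

/-- The event that `wq κ' x' y` with a hidden pair is asked at step `s`. -/
def A (Φ : Fam) (κ t : ℕ) (Pr : List Instr) (X : Om → List Bool) (s : ℕ)
    (i : ℕ × List Bool × List Bool) : Set Om :=
  {ω | ¬ SS Φ κ t i.1 i.2.1 ∧ Asks (ov Φ κ t ω) Pr (X ω) s (wq i.1 i.2.1 i.2.2)}

/-- The names of the coins of a key. -/
def keyC (κ' : ℕ) (x' : List Bool) : Finset Idx :=
  (Finset.range (lev κ' x')).image fun j => (κ', x', j + 1)

lemma card_keyC (κ' : ℕ) (x' : List Bool) : (keyC κ' x').card = lev κ' x' := by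
  unfold keyC
  rw [Finset.card_image_of_injective, Finset.card_range]
  intro a b h
  simpa using h

lemma mem_keyC {κ' : ℕ} {x' : List Bool} {a : Idx} :
    a ∈ keyC κ' x' ↔ ∃ j < lev κ' x', a = (κ', x', j + 1) := by
  unfold keyC
  simp only [Finset.mem_image, Finset.mem_range]
  constructor
  · rintro ⟨j, h1, rfl⟩
    exact ⟨j, h1, rfl⟩
  · rintro ⟨j, h1, rfl⟩
    exact ⟨j, h1, rfl⟩

lemma stage (hJJ : T_JJ) (Φ : Fam) {m l : ℕ} (h0 : nn Φ 0 ≤ m) (hl : m ≤ l) :
    ∃ i, nn Φ i ≤ l ∧ l < nn Φ (i + 1) ∧ jj Φ m ≤ i + 1 := by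
  obtain ⟨h1, h2⟩ := hJJ Φ l
  have hpos : jj Φ l ≠ 0 := by
    intro h
    rw [h] at h1
    omega
  refine ⟨jj Φ l - 1, h2 _ (by omega), ?_, ?_⟩
  · rw [show jj Φ l - 1 + 1 = jj Φ l by omega]
    exact h1
  · by_contra h3
    have := (hJJ Φ m).2 (jj Φ l) (by omega)
    omega

lemma congr_A (hOvis : T_OVIS) (hHldep : T_HLDEP) (hJJ : T_JJ) (hNN : T_NNMONO)
    (hMono : T_LEVMONO) (Φ : Fam) (κ t : ℕ) (X : Om → List Bool)
    (h0 : nn Φ 0 ≤ lev κ (str t))
    (hXd : Dep {a | ∃ i < t, a = (κ, str i, 0)} X) {κ' : ℕ} {x' : List Bool}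
    (hS : ¬ SS Φ κ t κ' x') {i : ℕ} (h2 : lev κ' x' < nn Φ (i + 1))
    (h3 : jj Φ (lev κ (str t)) ≤ i + 1) {ω ω' : Om}
    (h : ∀ a ∈ Old Φ (i + 1) \ (keyC κ' x' : Set Idx), ω a = ω' a) :
    ov Φ κ t ω = ov Φ κ t ω' ∧ X ω = X ω' := by
  have hge := hidden_ge hMono hJJ Φ κ t hS
  obtain ⟨hJ1, hJ2⟩ := hJJ Φ (lev κ (str t))
  have hpos : jj Φ (lev κ (str t)) ≠ 0 := by
    intro h
    rw [h] at hJ1
    omega
  obtain ⟨J, hJ⟩ : ∃ J, jj Φ (lev κ (str t)) = J + 1 := ⟨_, (Nat.succ_pred_eq_of_ne_zero hpos).symm⟩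
  have hJm : nn Φ J ≤ lev κ (str t) := hJ2 J (by omega)
  have hmon : nn Φ (J + 1) ≤ nn Φ (i + 1) := (hNN Φ).monotone (by omega)
  constructor
  · have hhl : hl Φ ω (J + 1) = hl Φ ω' (J + 1) := by
      refine hHldep Φ J ω ω' fun a ha => h a ⟨⟨?_, ha.2⟩, ?_⟩
      · have := ha.1
        omega
      · intro hk
        obtain ⟨j, _, rfl⟩ := mem_keyC.1 (Finset.mem_coe.1 hk)
        have : lev κ' x' < nn Φ J := ha.1
        omega
    funext q
    unfold ov
    rw [hJ, hhl]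
    refine hOvis _ _ _ _ (fun κ₁ x₁ i₁ hs hi => h _ ⟨⟨?_, hi⟩, ?_⟩) q
    · have h4 := hs.1
      rw [hJ] at h4
      show lev κ₁ x₁ < _
      omega
    · intro hk
      obtain ⟨j, _, hj⟩ := mem_keyC.1 (Finset.mem_coe.1 hk)
      simp only [Prod.mk.injEq] at hj
      obtain ⟨rfl, rfl, _⟩ := hj
      exact hS hs
  · refine hXd ω ω' ?_
    rintro a ⟨i₁, hi₁, rfl⟩
    refine h _ ⟨⟨?_, Nat.zero_le _⟩, ?_⟩
    · show lev κ (str i₁) < _
      have h5 : lev κ (str i₁) ≤ lev κ (str t) := by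
        refine hMono _ _ _ ?_
        rw [Pool.Agent.RelM.strlen, Pool.Agent.RelM.strlen]
        exact Nat.log_mono_right (by omega)
      omega
    · intro hk
      obtain ⟨j, _, hj⟩ := mem_keyC.1 (Finset.mem_coe.1 hk)
      simp only [Prod.mk.injEq] at hj
      omega

end HIT_

open HIT_ in
/-- Finding a hidden key. -/
theorem hit (hSys : T_SYS) (hKey : T_KEYP) (hOcut : T_OCUT) (hOvis : T_OVIS) (hBloc : T_BLOC)
    (hHlval : T_HLVAL) (hHldep : T_HLDEP) (hJJ : T_JJ) (hNN : T_NNMONO) (hMono : T_LEVMONO) :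
    T_HIT := by
  intro Φ P hW κ t Pr X τ hm0 _ hXd hXl
  have := hW.prob
  set m := lev κ (str t) with hm
  obtain ⟨hJ1, hJ2⟩ := hJJ Φ m
  -- the events that a hidden key is asked
  have hsub : {ω | ∃ s ≤ τ, run (oo Φ ω) Pr (X ω) s ≠ run (ov Φ κ t ω) Pr (X ω) s} ⊆
      ⋃ s ∈ Finset.range τ, ⋃ i : ℕ × List Bool × List Bool,
        (A Φ κ t Pr X s i ∩ {ω | wit ω i.1 i.2.1 = i.2.2}) := by
    intro ω hω
    by_contra hcon
    simp only [Set.mem_iUnion, Finset.mem_range, not_exists, exists_prop, not_and] at hcon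
    obtain ⟨s, hs, hne⟩ := hω
    apply hne
    refine Pool.Agent.RelM.loc _ _ Pr (X ω) τ (fun s' hs' q hq => ?_) s hs
    by_contra hne'
    have hlen := Pool.Agent.RelM.len _ _ _ _ _ hq
    have hXl' := hXl ω
    rcases hOcut (SS Φ κ t) (bitsOf Φ (hints Φ ω)) (bitsOf Φ (hl Φ ω (jj Φ m))) ω q
      (fun h => hne' h.symm) with ⟨κ', x', hS, hq'⟩ | ⟨κ', x', m', hS, hq', hm'⟩ | ⟨u, hq', hu⟩
    · refine hcon s' hs' (κ', x', wit ω κ' x') ⟨⟨hS, ?_⟩, rfl⟩
      rw [← hq']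
      exact hq
    · have h2 := Pool.Agent.RelM.HitJob.le_length_sq1 κ' x' m'
      rw [← hq'] at h2
      have h4 : 2 ^ m ≤ 2 ^ lev κ' x' :=
        Nat.pow_le_pow_right (by norm_num) (hidden_ge hMono hJJ Φ κ t hS)
      omega
    · apply hu
      refine hBloc Φ _ _ u fun j hj => ?_
      have h5 : j < jj Φ m := by
        by_contra h6
        have h7 : nn Φ (jj Φ m) ≤ nn Φ j := (hNN Φ).monotone (by omega)
        have h8 : 2 ^ m ≤ 2 ^ nn Φ j := Nat.pow_le_pow_right (by norm_num) (by omega)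
        have h9 : q.length = u.length + 2 := by rw [hq']; simp
        omega
      exact (hHlval Φ ω j (jj Φ m) h5).symm
  -- measurability and probability of the events
  have key : ∀ (s : ℕ) (i : ℕ × List Bool × List Bool), MeasurableSet (A Φ κ t Pr X s i) ∧
      P (A Φ κ t Pr X s i ∩ {ω | wit ω i.1 i.2.1 = i.2.2}) ≤
        3 * (2⁻¹ : ℝ≥0∞) ^ m * P (A Φ κ t Pr X s i) := by
    rintro s ⟨κ', x', y⟩
    by_cases hS : SS Φ κ t κ' x'
    · have : A Φ κ t Pr X s (κ', x', y) = ∅ := by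
        ext ω
        constructor
        · intro h
          exact (h.1 hS).elim
        · intro h
          exact h.elim
      rw [this]
      simp
    · have hge := hidden_ge hMono hJJ Φ κ t hS
      obtain ⟨i, h1, h2, h3⟩ := stage hJJ Φ hm0 hge
      have hcongr : ∀ ω ω' : Om,
          (∀ a ∈ Old Φ (i + 1) \ (keyC κ' x' : Set Idx), ω a = ω' a) →
          (ω ∈ A Φ κ t Pr X s (κ', x', y) ↔ ω' ∈ A Φ κ t Pr X s (κ', x', y)) := by
        intro ω ω' h
        obtain ⟨e1, e2⟩ := congr_A hOvis hHldep hJJ hNN hMono Φ κ t X hm0 hXd hS h2 h3 h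
        show (_ ∧ Asks (ov Φ κ t ω) Pr (X ω) s _) ↔ (_ ∧ Asks (ov Φ κ t ω') Pr (X ω') s _)
        rw [e1, e2]
      have hmeas : MeasurableSet (A Φ κ t Pr X s (κ', x', y)) :=
        Pool.Agent.RelM.fd (Old Φ (i + 1)) ((hSys Φ).fin (i + 1)) _ fun ω ω' h =>
          hcongr ω ω' fun a ha => h a ha.1
      refine ⟨hmeas, ?_⟩
      have hk := hKey (Old Φ) (good Φ) lam P (hSys Φ) hW i (keyC κ' x')
        (fun a => y.getD (a.2.2 - 1) false)
        ((A Φ κ t Pr X s (κ', x', y)).indicator 1) ?_ (measurable_one.indicator hmeas) ?_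
      · rw [card_keyC] at hk
        have hB : MeasurableSet {ω : Om | ∀ a ∈ keyC κ' x', ω a = y.getD (a.2.2 - 1) false} :=
          Pool.Agent.RelM.fd (keyC κ' x' : Set Idx) (Finset.finite_toSet _) _
            fun ω ω' h => by
              constructor
              · intro h' a ha
                rw [← h a ha]
                exact h' a ha
              · intro h' a ha
                rw [h a ha]
                exact h' a ha
        rw [lintegral_indicator_one hmeas, lintegral_indicator_one hmeas,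
          Measure.restrict_apply hmeas] at hk
        calc P (A Φ κ t Pr X s (κ', x', y) ∩ {ω | wit ω κ' x' = y})
            ≤ P (A Φ κ t Pr X s (κ', x', y) ∩
                {ω : Om | ∀ a ∈ keyC κ' x', ω a = y.getD (a.2.2 - 1) false}) := by
              refine measure_mono (Set.inter_subset_inter_right _ ?_)
              intro ω hω a ha
              obtain ⟨j, hj, rfl⟩ := mem_keyC.1 ha
              have hω' : wit ω κ' x' = y := hω
              show ω (κ', x', j + 1) = y.getD (j + 1 - 1) false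
              rw [← hω', Nat.add_sub_cancel]
              unfold wit
              simp [List.getD_eq_getElem?_getD, hj]
          _ ≤ 3 * (2⁻¹ : ℝ≥0∞) ^ lev κ' x' * P (A Φ κ t Pr X s (κ', x', y)) := hk
          _ ≤ 3 * (2⁻¹ : ℝ≥0∞) ^ m * P (A Φ κ t Pr X s (κ', x', y)) := by
              gcongr ?_ * _
              gcongr 3 * ?_
              exact pow_le_pow_of_le_one (by positivity)
                (ENNReal.inv_le_one.2 (by norm_num)) hge
      · intro a ha
        obtain ⟨j, hj, rfl⟩ := mem_keyC.1 ha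
        refine ⟨⟨h2, ?_⟩, fun h => ?_⟩
        · show j + 1 ≤ lev κ' x'
          omega
        · have : lev κ' x' < nn Φ i := h.1
          omega
      · intro ω ω' h
        have := hcongr ω ω' h
        by_cases hω : ω ∈ A Φ κ t Pr X s (κ', x', y)
        · rw [Set.indicator_of_mem hω, Set.indicator_of_mem (this.1 hω)]
          rfl
        · rw [Set.indicator_of_notMem hω, Set.indicator_of_notMem fun h => hω (this.2 h)]
  have hdisj : ∀ s, Pairwise (Function.onFun Disjoint (A Φ κ t Pr X s)) := by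
    intro s i j hij
    rw [Function.onFun, Set.disjoint_left]
    rintro ω ⟨_, h1⟩ ⟨_, h2⟩
    apply hij
    obtain ⟨e1, e2, e3⟩ := Pool.Agent.RelM.HitJob.wq_inj' (Pool.Agent.RelM.one _ _ _ _ _ _ h1 h2)
    exact Prod.ext e1 (Prod.ext e2 e3)
  calc P {ω | ∃ s ≤ τ, run (oo Φ ω) Pr (X ω) s ≠ run (ov Φ κ t ω) Pr (X ω) s}
      ≤ P (⋃ s ∈ Finset.range τ, ⋃ i : ℕ × List Bool × List Bool,
        (A Φ κ t Pr X s i ∩ {ω | wit ω i.1 i.2.1 = i.2.2})) := measure_mono hsub
    _ ≤ ∑ s ∈ Finset.range τ, P (⋃ i : ℕ × List Bool × List Bool,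
        (A Φ κ t Pr X s i ∩ {ω | wit ω i.1 i.2.1 = i.2.2})) := measure_biUnion_finset_le _ _
    _ ≤ ∑ _s ∈ Finset.range τ, 3 * (2⁻¹ : ℝ≥0∞) ^ m := by
        refine Finset.sum_le_sum fun s _ => ?_
        calc P (⋃ i : ℕ × List Bool × List Bool,
              (A Φ κ t Pr X s i ∩ {ω | wit ω i.1 i.2.1 = i.2.2}))
            ≤ ∑' i, P (A Φ κ t Pr X s i ∩ {ω | wit ω i.1 i.2.1 = i.2.2}) := measure_iUnion_le _
          _ ≤ ∑' i, 3 * (2⁻¹ : ℝ≥0∞) ^ m * P (A Φ κ t Pr X s i) :=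
              ENNReal.tsum_le_tsum fun i => (key s i).2
          _ = 3 * (2⁻¹ : ℝ≥0∞) ^ m * P (⋃ i, A Φ κ t Pr X s i) := by
              rw [ENNReal.tsum_mul_left, measure_iUnion (hdisj s) fun i => (key s i).1]
          _ ≤ 3 * (2⁻¹ : ℝ≥0∞) ^ m * 1 := by
              gcongr
              exact prob_le_one
          _ = 3 * (2⁻¹ : ℝ≥0∞) ^ m := mul_one _
    _ = 3 * τ * (2⁻¹ : ℝ≥0∞) ^ m := by
        rw [Finset.sum_const, Finset.card_range, nsmul_eq_mul]
        ring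

end Pool.Agent.RelO
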