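import Pool.Agent.RelO.Targets

/-!
# The special lengths (job RO-NN)
-/

set_option autoImplicit false

namespace Pool.Agent.RelO

open Pool.Agent.RelM (str)

namespace NN_

theorem exp_bound (k : ℕ) : ∃ N : ℕ, ∀ n, N ≤ n → (n + 2) ^ k + 2 < 2 ^ n := by
  have h := (isLittleO_pow_const_const_pow_of_one_lt (R := ℝ) k (by norm_num : (1 : ℝ) < 2))
  have h1 := (h.bound (by norm_num : (0 : ℝ) < 1 / 8))
  rw [Filter.eventually_atTop] at h1
  obtain ⟨N, hN⟩ := h1
  refine ⟨N + 3, fun n hn => ?_⟩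
  have h2 := hN (n + 2) (by omega)
  rw [Real.norm_of_nonneg (by positivity), Real.norm_of_nonneg (by positivity)] at h2
  have h3 : (((n + 2 : ℕ) : ℝ)) ^ k ≤ 2 ^ (n - 1) := by
    refine h2.trans (le_of_eq ?_)
    obtain ⟨m, rfl⟩ : ∃ m, n = m + 1 := ⟨n - 1, by omega⟩
    rw [show m + 1 - 1 = m by omega, show m + 1 + 2 = m + 3 by omega, pow_add]
    ring
  have h4 : (n + 2) ^ k ≤ 2 ^ (n - 1) := by exact_mod_cast h3
  have h5 : 2 ^ 2 ≤ 2 ^ (n - 1) := Nat.pow_le_pow_right (by norm_num) (by omega)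
  have h6 : 2 ^ n = 2 ^ (n - 1) + 2 ^ (n - 1) := by
    obtain ⟨m, rfl⟩ : ∃ m, n = m + 1 := ⟨n - 1, by omega⟩
    rw [show m + 1 - 1 = m by omega, pow_succ]
    ring
  omega

theorem thr_spec (Φ : Fam) (j : ℕ) :
    j + 2 ≤ thr Φ j ∧ ∀ n, thr Φ j ≤ n → qb Φ j n + 2 < 2 ^ n := by
  have hne : {N | j + 2 ≤ N ∧ ∀ n, N ≤ n → qb Φ j n + 2 < 2 ^ n}.Nonempty := by
    obtain ⟨N, hN⟩ := exp_bound (Φ.k (st j))
    exact ⟨max N (j + 2), le_max_right _ _, fun n hn => hN n ((le_max_left _ _).trans hn)⟩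
  exact Nat.sInf_mem hne

theorem thr_le (Φ : Fam) (j : ℕ) : thr Φ j ≤ nn Φ j := by
  cases j with
  | zero => exact le_rfl
  | succ j => rw [nn]; exact le_max_right _ _

theorem bits_two_pow (m : ℕ) : Nat.bits (2 ^ m) = List.replicate m false ++ [true] := by
  induction m with
  | zero => simp
  | succ m ih =>
    rw [pow_succ, mul_comm, Nat.bit0_bits _ (by positivity), ih, List.replicate_succ]
    rfl

end NN_

open NN_

theorem nnmono : T_NNMONO := by
  intro Φ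
  refine strictMono_nat_of_lt_succ fun j => ?_
  rw [nn]
  exact lt_of_lt_of_le (Nat.lt_succ_of_le (le_max_right _ _)) (le_max_left _ _)

theorem nnge : T_NNGE := fun Φ j => (thr_spec Φ j).1.trans (thr_le Φ j)

theorem nnq : T_NNQ := fun Φ j => (thr_spec Φ j).2 _ (thr_le Φ j)

theorem nnnext : T_NNNEXT := by
  intro Φ j
  rw [nn]
  exact lt_of_lt_of_le (Nat.lt_succ_of_le (le_max_left _ _)) (le_max_left _ _)

theorem xxstr : T_XX := by
  intro Φ j
  unfold str xx
  rw [Nat.sub_add_cancel Nat.one_le_two_pow, bits_two_pow, List.dropLast_concat,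
    List.reverse_replicate]

theorem jjspec : T_JJ := by
  intro Φ m
  have hne : {j | m < nn Φ j}.Nonempty := ⟨m, by
    have := nnge Φ m
    show m < nn Φ m
    omega⟩
  refine ⟨Nat.sInf_mem hne, fun j hj => ?_⟩
  have := Nat.notMem_of_lt_sInf hj
  exact not_lt.1 this

end Pool.Agent.RelO
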