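import Pool.Agent.RelO.Targets
import Pool.Agent.RelM.NONNULL

/-!
# The languages `Rl ω κ` have no null cover at odds that are not fair (job NONNULL)
-/

set_option autoImplicit false

namespace Pool.Agent.RelO

open MeasureTheory Set
open scoped ENNReal
open Pool.Agent.RelM (Lang Instr Cfg step run Halts Decides E1 E2 NP pair triple binVal outVal
  Approx IsDensity str pre IsNullCover Null1 Null2 wq sq0 sq1 Asks hq Idx Om fair coin Rl mixP)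

namespace NONNULL_

open Pool.Agent.RelM.NN (inp inp_length pre_length pre_succ triple_length pre_congr ee ee_sum)

/-- The stage at which the coin of the word number `t` becomes old. -/
noncomputable def bl (Φ : Fam) (κ t : ℕ) : ℕ := jj Φ (lev κ (str t))

/-- The visible coins. -/
def Vis (Φ : Fam) (κ t : ℕ) : Set Idx :=
  {a | a ∈ Old Φ (bl Φ κ t) ∧ ¬ (a.1 = κ ∧ ∃ t', t ≤ t' ∧ a.2.1 = str t')}

/-- The value computed. -/
noncomputable def val (Φ : Fam) (κ t : ℕ) (Pr : List Instr) (T : ℕ → ℕ)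
    (I : List Bool) (ω : Om) : ℝ :=
  |outVal (run (ov Φ κ t ω) Pr I (T I.length))|

/-! ### Densities -/

theorem dens_step {ρ : ℝ} (h1 : 1 / 2 ≤ ρ) (h2 : ρ ≤ 1) {d : List Bool → ℝ} (hd : IsOdds ρ d)
    (w : List Bool) (b : Bool) : d (w ++ [b]) ≤ 2 * d w := by
  have h3 := hd.le w b
  have h4 := hd.nonneg (w ++ [!b])
  have h5 := hd.nonneg (w ++ [b])
  nlinarith [mul_nonneg (by linarith : (0 : ℝ) ≤ 1 - ρ) h4,
    mul_nonneg (by linarith : (0 : ℝ) ≤ ρ - 1 / 2) h5]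

theorem dens_pre {ρ : ℝ} (h1 : 1 / 2 ≤ ρ) (h2 : ρ ≤ 1) {d : List Bool → ℝ} (hd : IsOdds ρ d)
    (A : Lang) (n : ℕ) : d (pre A n) ≤ 2 ^ n * d [] := by
  induction n with
  | zero => simp [pre]
  | succ n ih =>
    rw [pre_succ]
    have := dens_step h1 h2 hd (pre A n) (A (str n))
    rw [pow_succ]
    linarith

/-! ### Stages -/

theorem lev_mono (hLM : T_LEVMONO) (hSL : Pool.Agent.RelM.T_STRLEN) (κ : ℕ) {t t' : ℕ}
    (h : t ≤ t') : lev κ (str t) ≤ lev κ (str t') := by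
  apply hLM
  rw [hSL, hSL]
  exact Nat.log_mono_right (by omega)

theorem bl_mono (hJJ : T_JJ) (hLM : T_LEVMONO)
    (hSL : Pool.Agent.RelM.T_STRLEN) (Φ : Fam) (κ : ℕ) {t t' : ℕ} (h : t ≤ t') :
    bl Φ κ t ≤ bl Φ κ t' := by
  by_contra hlt
  push Not at hlt
  have h1 := (hJJ Φ (lev κ (str t))).2 _ hlt
  have h2 := (hJJ Φ (lev κ (str t'))).1
  have h3 := lev_mono hLM hSL κ h
  unfold bl at h1
  omega

theorem bl_pos (hJJ : T_JJ) (Φ : Fam) (κ t : ℕ) (h0 : nn Φ 0 ≤ lev κ (str t)) :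
    ∃ m, bl Φ κ t = m + 1 ∧ nn Φ m ≤ lev κ (str t) := by
  have h1 := (hJJ Φ (lev κ (str t))).1
  have h2 : bl Φ κ t ≠ 0 := by
    intro h
    unfold bl at h
    rw [h] at h1
    omega
  obtain ⟨m, hm⟩ := Nat.exists_eq_succ_of_ne_zero h2
  refine ⟨m, hm, (hJJ Φ (lev κ (str t))).2 m ?_⟩
  unfold bl at hm
  omega

theorem old_mono (hMO : T_NNMONO) (Φ : Fam) {m m' : ℕ} (h : m ≤ m') : Old Φ m ⊆ Old Φ m' := by
  rintro a ⟨h1, h2⟩
  exact ⟨h1.trans_le ((hMO Φ).monotone h), h2⟩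

theorem coin_old (hJJ : T_JJ) (hLM : T_LEVMONO) (hSL : Pool.Agent.RelM.T_STRLEN) (Φ : Fam)
    (κ : ℕ) {s t : ℕ} (h : s ≤ t) : ((κ, str s, 0) : Idx) ∈ Old Φ (bl Φ κ t) := by
  refine ⟨?_, Nat.zero_le _⟩
  show lev κ (str s) < nn Φ (bl Φ κ t)
  have h1 := (hJJ Φ (lev κ (str t))).1
  have h2 := lev_mono hLM hSL κ h
  unfold bl
  omega

theorem coin_vis (hJJ : T_JJ) (hLM : T_LEVMONO) (hSL : Pool.Agent.RelM.T_STRLEN)
    (hSI : Pool.Agent.RelM.T_STRINJ) (Φ : Fam)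
    (κ : ℕ) {s t : ℕ} (h : s < t) : ((κ, str s, 0) : Idx) ∈ Vis Φ κ t := by
  refine ⟨coin_old hJJ hLM hSL Φ κ h.le, ?_⟩
  rintro ⟨-, t', ht', hs⟩
  have := hSI hs
  omega

theorem vis_fin (hSYS : T_SYS) (Φ : Fam) (κ t : ℕ) : (Vis Φ κ t).Finite :=
  ((hSYS Φ).fin _).subset fun _ h => h.1

/-- The visible coins are old when the coin of a later word is, and are not this coin. -/
theorem vis_sub (hJJ : T_JJ) (hMO : T_NNMONO) (hLM : T_LEVMONO)
    (hSL : Pool.Agent.RelM.T_STRLEN) (Φ : Fam) (κ : ℕ) {s t : ℕ} (h : s ≤ t) :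
    Vis Φ κ s ⊆ Old Φ (bl Φ κ t) \ {(κ, str t, 0)} := by
  rintro a ⟨h1, h2⟩
  refine ⟨old_mono hMO Φ (bl_mono hJJ hLM hSL Φ κ h) h1, ?_⟩
  intro ha
  rw [Set.mem_singleton_iff] at ha
  subst ha
  exact h2 ⟨rfl, t, h, rfl⟩

/-! ### Locality -/

theorem ov_congr (hOVIS : T_OVIS) (hHL : T_HLDEP) (hJJ : T_JJ) (hMO : T_NNMONO)
    (hLM : T_LEVMONO) (hSL : Pool.Agent.RelM.T_STRLEN) (Φ : Fam) (κ t : ℕ)
    (h0 : nn Φ 0 ≤ lev κ (str t)) (ω ω' : Om) (h : ∀ a ∈ Vis Φ κ t, ω a = ω' a) :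
    ov Φ κ t ω = ov Φ κ t ω' := by
  obtain ⟨m, hm, hm'⟩ := bl_pos hJJ Φ κ t h0
  have hold : ∀ a ∈ Old Φ m, ω a = ω' a := by
    rintro a ⟨h1, h2⟩
    apply h
    refine ⟨old_mono hMO Φ (by omega) (⟨h1, h2⟩ : a ∈ Old Φ m), ?_⟩
    rintro ⟨hk, t', ht', hs⟩
    have h3 := lev_mono hLM hSL κ ht'
    rw [← hs, ← hk] at h3
    rw [← hk] at hm'
    omega
  have hhl : hl Φ ω (bl Φ κ t) = hl Φ ω' (bl Φ κ t) := by
    rw [hm]
    exact hHL Φ m ω ω' hold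
  unfold ov
  rw [show jj Φ (lev κ (str t)) = bl Φ κ t from rfl, hhl]
  funext q
  refine hOVIS _ _ _ _ ?_ q
  intro κ' x i hS hi
  exact h _ ⟨⟨hS.1, hi⟩, hS.2⟩

theorem inp_congr (κ k r t : ℕ) (e : List Bool) (ω ω' : Om)
    (h : ∀ i < t, ω (κ, str i, 0) = ω' (κ, str i, 0)) :
    inp κ k r t e ω = inp κ k r t e ω' := by
  unfold inp
  rw [pre_congr κ t ω ω' h]

theorem val_dep (hOVIS : T_OVIS) (hHL : T_HLDEP) (hJJ : T_JJ) (hMO : T_NNMONO)
    (hLM : T_LEVMONO) (hSL : Pool.Agent.RelM.T_STRLEN) (hSI : Pool.Agent.RelM.T_STRINJ)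
    (Φ : Fam) (κ t : ℕ) (h0 : nn Φ 0 ≤ lev κ (str t)) (Pr : List Instr) (T : ℕ → ℕ)
    (k r : ℕ) (e : List Bool) : Dep (Vis Φ κ t) (fun ω => val Φ κ t Pr T (inp κ k r t e ω) ω) := by
  intro ω ω' h
  have h1 := ov_congr hOVIS hHL hJJ hMO hLM hSL Φ κ t h0 ω ω' h
  have h2 : inp κ k r t e ω = inp κ k r t e ω' :=
    inp_congr κ k r t e ω ω' fun i hi => h _ (coin_vis hJJ hLM hSL hSI Φ κ hi)
  show val Φ κ t Pr T (inp κ k r t e ω) ω = val Φ κ t Pr T (inp κ k r t e ω') ω'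
  unfold val
  rw [h1, h2]

theorem meas_of_dep (hFD : Pool.Agent.RelM.T_FD) {s : Set Idx} (hs : s.Finite) {f : Om → ℝ}
    (hf : Dep s f) : Measurable f := by
  intro A _
  refine hFD s hs _ fun ω ω' h => ?_
  rw [Set.mem_preimage, Set.mem_preimage, hf ω ω' h]

/-! ### Hits -/

/-- The event that hiding changes a run. -/
def Hit (Φ : Fam) (κ : ℕ) (Pr : List Instr) (T : ℕ → ℕ) (k r t : ℕ) (e : List Bool) : Set Om :=
  {ω | ∃ s ≤ T (inp κ k r t e ω).length,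
      run (oo Φ ω) Pr (inp κ k r t e ω) s ≠ run (ov Φ κ t ω) Pr (inp κ k r t e ω) s}

/-- The time bound is small at `t`. -/
def FastAt (κ : ℕ) (T : ℕ → ℕ) (t : ℕ) : Prop := ∀ l, l ≤ 8 * (t + 1) →
  l + T l < 2 ^ lev κ (str t) ∧ 6 * (t + 1) ^ 2 * T l ≤ 2 ^ lev κ (str t)

theorem hit_bound (hHIT : T_HIT) (hFD : Pool.Agent.RelM.T_FD) {Φ : Fam} {P : Measure Om}
    (hP : IsWorld (Old Φ) (good Φ) lam P) (κ : ℕ) (Pr : List Instr) (T : ℕ → ℕ)
    (k r t : ℕ) (e : List Bool) (h0 : nn Φ 0 ≤ lev κ (str t)) (hB : FastAt κ T t)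
    (hlen : k + r + (t + e.length) + 2 ≤ 8 * (t + 1)) :
    P (Hit Φ κ Pr T k r t e) ≤ ENNReal.ofReal (1 / ((t : ℝ) + 1) ^ 2) := by
  set l : ℕ := k + r + (t + e.length) + 2 with hl
  have hlenI : ∀ ω, (inp κ k r t e ω).length = l := fun ω => inp_length κ k r t e ω
  obtain ⟨hB1, hB2⟩ := hB l hlen
  have hdep : Dep {a | ∃ i < t, a = ((κ, str i, 0) : Idx)} (inp κ k r t e) := by
    intro ω ω' h
    exact inp_congr κ k r t e ω ω' fun i hi => h _ ⟨i, hi, rfl⟩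
  have hhit := hHIT Φ P hP κ t Pr (inp κ k r t e) (T l) h0 ?_ hdep ?_
  · unfold Hit
    simp only [hlenI]
    refine hhit.trans ?_
    set L := lev κ (str t) with hL
    have h3 : (3 : ℝ≥0∞) * (T l : ℝ≥0∞) * (2⁻¹ : ℝ≥0∞) ^ L =
        ENNReal.ofReal (3 * (T l : ℝ) * (1 / 2) ^ L) := by
      rw [ENNReal.ofReal_mul (by positivity), ENNReal.ofReal_mul (by positivity),
        ENNReal.ofReal_pow (by positivity)]
      congr 1
      · congr 1
        · simp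
        · simp
      · congr 1
        rw [one_div, ENNReal.ofReal_inv_of_pos (by norm_num)]
        simp
    rw [h3]
    apply ENNReal.ofReal_le_ofReal
    have h4 : (6 : ℝ) * ((t : ℝ) + 1) ^ 2 * (T l : ℝ) ≤ 2 ^ L := by exact_mod_cast hB2
    have h5 : (0 : ℝ) < ((t : ℝ) + 1) ^ 2 := by positivity
    rw [le_div_iff₀ h5, one_div_pow]
    have h6 : (0 : ℝ) < 2 ^ L := by positivity
    have h7 : 3 * (T l : ℝ) * (1 / 2 ^ L) * ((t : ℝ) + 1) ^ 2 =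
        (3 * (T l : ℝ) * ((t : ℝ) + 1) ^ 2) / 2 ^ L := by ring
    rw [h7, div_le_one h6]
    nlinarith [mul_nonneg (by positivity : (0 : ℝ) ≤ T l) h5.le]
  · intro a
    refine hFD ((fun i : ℕ => ((κ, str i, 0) : Idx)) '' (Set.Iio t))
      ((Set.finite_Iio t).image _) _ ?_
    intro ω ω' h
    have h1 : inp κ k r t e ω = inp κ k r t e ω' :=
      inp_congr κ k r t e ω ω' fun i hi => h _ ⟨i, hi, rfl⟩
    simp only [Set.mem_ofPred_eq, h1]
  · intro ω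
    rw [hlenI]
    exact hB1

/-! ### The processes -/

/-- The values at time `i + 1`. -/
noncomputable def XX (Φ : Fam) (κ : ℕ) (Pr : List Instr) (T : ℕ → ℕ) (j i : ℕ) (b : Bool)
    (ω : Om) : ℝ :=
  val Φ κ (j + i) Pr T (inp κ (2 * j) (j + i + 1 + 2 * j + 3) (j + i) [b] ω) ω

/-- The value at time `0`. -/
noncomputable def YY (Φ : Fam) (κ : ℕ) (Pr : List Instr) (T : ℕ → ℕ) (j : ℕ) (ω : Om) : ℝ :=
  val Φ κ j Pr T (inp κ (2 * j) (j + 2 * j + 3) j [] ω) ω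

/-- The bits. -/
def bb (κ j i : ℕ) (ω : Om) : Bool := ω (κ, str (j + i), 0)

/-- The conditions on the starting time. -/
structure Start (Φ : Fam) (κ : ℕ) (ρ : ℝ) (j : ℕ) : Prop where
  h0 : ∀ t, j ≤ t → nn Φ 0 ≤ lev κ (str t)
  h1 : ∀ t m, j ≤ t → bl Φ κ t = m + 1 → (1 + lam m) / 2 ≤ ρ

theorem cross_bound (hCROSS : T_CROSS) (hSV : T_SV) (hSYS : T_SYS)
    (hFD : Pool.Agent.RelM.T_FD) (hOVIS : T_OVIS) (hHL : T_HLDEP) (hJJ : T_JJ) (hMO : T_NNMONO)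
    (hLM : T_LEVMONO) (hSL : Pool.Agent.RelM.T_STRLEN) (hSI : Pool.Agent.RelM.T_STRINJ)
    {Φ : Fam} {P : Measure Om} (hP : IsWorld (Old Φ) (good Φ) lam P) (κ : ℕ) (Pr : List Instr)
    (T : ℕ → ℕ) {ρ : ℝ} (hρ1 : 1 / 2 ≤ ρ) (hρ2 : ρ ≤ 1) (j : ℕ) (hS : Start Φ κ ρ j) :
    P {ω | YY Φ κ Pr T j ω ≤ 2 * (1 / 2 : ℝ) ^ j ∧
      (∀ i b, ρ * XX Φ κ Pr T j i b ω + (1 - ρ) * XX Φ κ Pr T j i (!b) ω ≤
        proc (bb κ j) (XX Φ κ Pr T j) (YY Φ κ Pr T j) i ω + ee j i) ∧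
      ∃ i, 1 / 2 ≤ proc (bb κ j) (XX Φ κ Pr T j) (YY Φ κ Pr T j) i ω}
      ≤ ENNReal.ofReal (6 * (1 / 2 : ℝ) ^ j) := by
  obtain ⟨hs1, hs2⟩ := ee_sum j
  have hprob : IsProbabilityMeasure P := hP.prob
  have hXd : ∀ i b, Dep (Vis Φ κ (j + i)) (XX Φ κ Pr T j i b) := fun i b =>
    val_dep hOVIS hHL hJJ hMO hLM hSL hSI Φ κ (j + i) (hS.h0 _ (by omega)) Pr T _ _ _
  have hYd : Dep (Vis Φ κ j) (YY Φ κ Pr T j) :=
    val_dep hOVIS hHL hJJ hMO hLM hSL hSI Φ κ j (hS.h0 _ le_rfl) Pr T _ _ _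
  refine (hCROSS Om inferInstance P inferInstance (bb κ j) (XX Φ κ Pr T j) (YY Φ κ Pr T j)
    (fun t ω ω' => ∀ a ∈ Old Φ (bl Φ κ (j + t)) \ {(κ, str (j + t), 0)}, ω a = ω' a)
    (ee j) (2 * (1 / 2 : ℝ) ^ j) ρ hρ1 hρ2
    ?_ ?_ ?_ ?_ ?_ ?_ ?_ ?_ ?_ ?_ hs1 (by positivity)).trans ?_
  · intro i
    exact measurable_pi_apply _
  · intro i b
    exact meas_of_dep hFD (vis_fin hSYS Φ κ _) (hXd i b)
  · exact meas_of_dep hFD (vis_fin hSYS Φ κ _) hYd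
  · intro t ω ω' h
    exact hYd ω ω' fun a ha => h a (vis_sub hJJ hMO hLM hSL Φ κ (by omega) ha)
  · intro s t hst ω ω' h
    refine h _ ⟨coin_old hJJ hLM hSL Φ κ (by omega), ?_⟩
    intro hh
    rw [Set.mem_singleton_iff] at hh
    have h1 : str (j + s) = str (j + t) := (Prod.ext_iff.mp (Prod.ext_iff.mp hh).2).1
    have := hSI h1
    omega
  · intro s t hst b ω ω' h
    exact hXd s b ω ω' fun a ha => h a (vis_sub hJJ hMO hLM hSL Φ κ (by omega) ha)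
  · intro t i H hH hHd
    obtain ⟨m, hm, hm'⟩ := bl_pos hJJ Φ κ (j + t) (hS.h0 _ (by omega))
    have h1 := hSV (Old Φ) (good Φ) lam P (hSYS Φ) hP m ((κ, str (j + t), 0) : Idx) i H
      (by rw [← hm]; exact coin_old hJJ hLM hSL Φ κ le_rfl)
      (by
        rintro ⟨h2, -⟩
        have h3 : lev κ (str (j + t)) < nn Φ m := h2
        omega) hH
      (by rw [← hm]; exact hHd)
    refine h1.trans ?_
    gcongr
    exact hS.h1 _ m (by omega) hm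
  · intro t i ω
    exact abs_nonneg _
  · intro ω
    exact abs_nonneg _
  · intro t
    unfold ee
    positivity
  · apply ENNReal.ofReal_le_ofReal
    linarith

theorem val_close {Φ : Fam} {κ : ℕ} {Pr : List Instr} {T : ℕ → ℕ} {ω : Om} {ρ : ℝ}
    {d : ℕ → List Bool → ℝ} (hd : ∀ k, IsOdds ρ (d k)) (hA : Approx (oo Φ ω) Pr T d)
    (k r t : ℕ) (e : List Bool) (hh : ω ∉ Hit Φ κ Pr T k r t e) :
    |val Φ κ t Pr T (inp κ k r t e ω) ω - d k (pre (Rl ω κ) t ++ e)| ≤ (1 / 2 : ℝ) ^ r := by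
  have h1 : run (oo Φ ω) Pr (inp κ k r t e ω) (T (inp κ k r t e ω).length) =
      run (ov Φ κ t ω) Pr (inp κ k r t e ω) (T (inp κ k r t e ω).length) := by
    by_contra hne
    exact hh ⟨_, le_rfl, hne⟩
  have h3 : |outVal (run (oo Φ ω) Pr (inp κ k r t e ω)
      (T (inp κ k r t e ω).length)) - d k (pre (Rl ω κ) t ++ e)|
      ≤ (1 / 2 : ℝ) ^ r := (hA k r (pre (Rl ω κ) t ++ e)).2
  rw [h1] at h3
  have h4 : 0 ≤ d k (pre (Rl ω κ) t ++ e) := (hd k).nonneg _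
  unfold val
  have h5 := abs_abs_sub_abs_le (outVal (run (ov Φ κ t ω) Pr (inp κ k r t e ω)
    (T (inp κ k r t e ω).length))) (d k (pre (Rl ω κ) t ++ e))
  rw [abs_of_nonneg h4] at h5
  exact h5.trans h3

theorem incl (Φ : Fam) (κ : ℕ) (Pr : List Instr) (T : ℕ → ℕ) {ρ : ℝ} (hρ1 : 1 / 2 ≤ ρ)
    (hρ2 : ρ ≤ 1) (j : ℕ) (hj : 1 ≤ j) :
    {ω | ∃ d : ℕ → List Bool → ℝ, IsOddsCover ρ d {Rl ω κ} ∧ Approx (oo Φ ω) Pr T d} ⊆
    {ω | YY Φ κ Pr T j ω ≤ 2 * (1 / 2 : ℝ) ^ j ∧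
      (∀ i b, ρ * XX Φ κ Pr T j i b ω + (1 - ρ) * XX Φ κ Pr T j i (!b) ω ≤
        proc (bb κ j) (XX Φ κ Pr T j) (YY Φ κ Pr T j) i ω + ee j i) ∧
      ∃ i, 1 / 2 ≤ proc (bb κ j) (XX Φ κ Pr T j) (YY Φ κ Pr T j) i ω} ∪
    (Hit Φ κ Pr T (2 * j) (j + 2 * j + 3) j [] ∪
      ((⋃ i, Hit Φ κ Pr T (2 * j) (j + i + 1 + 2 * j + 3) (j + i) [false]) ∪
        ⋃ i, Hit Φ κ Pr T (2 * j) (j + i + 1 + 2 * j + 3) (j + i) [true])) := by
  rintro ω ⟨d, hN, hA⟩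
  by_contra hcon
  rw [Set.mem_union, Set.mem_union, Set.mem_union, Set.mem_iUnion, Set.mem_iUnion] at hcon
  push Not at hcon
  obtain ⟨hcr, hY, hF, hT⟩ := hcon
  apply hcr
  have hd : ∀ k, IsOdds ρ (d k) := fun k => (hN k).1
  set R := Rl ω κ with hR
  have hYc : |YY Φ κ Pr T j ω - d (2 * j) (pre R j)| ≤ (1 / 2 : ℝ) ^ (j + 2 * j + 3) := by
    have := val_close hd hA (2 * j) (j + 2 * j + 3) j [] hY
    rw [List.append_nil] at this
    exact this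
  have hX : ∀ i b, |XX Φ κ Pr T j i b ω - d (2 * j) (pre R (j + i) ++ [b])|
      ≤ (1 / 2 : ℝ) ^ (j + i + 1 + 2 * j + 3) := by
    intro i b
    cases b
    · exact val_close hd hA (2 * j) (j + i + 1 + 2 * j + 3) (j + i) [false] (hF i)
    · exact val_close hd hA (2 * j) (j + i + 1 + 2 * j + 3) (j + i) [true] (hT i)
  have hproc : ∀ i, |proc (bb κ j) (XX Φ κ Pr T j) (YY Φ κ Pr T j) i ω -
      d (2 * j) (pre R (j + i))| ≤ (1 / 2 : ℝ) ^ (j + i + 2 * j + 3) := by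
    intro i
    cases i with
    | zero => exact hYc
    | succ i =>
      have h1 := hX i (bb κ j i ω)
      have h2 : pre R (j + (i + 1)) = pre R (j + i) ++ [bb κ j i ω] := by
        rw [← add_assoc, pre_succ]
        rfl
      rw [h2]
      exact h1
  have hd0 : d (2 * j) [] ≤ (1 / 2 : ℝ) ^ (2 * j) := (hN (2 * j)).2.1
  have hdn : ∀ n ≤ j, d (2 * j) (pre R n) ≤ (1 / 2 : ℝ) ^ j := by
    intro n hn
    calc d (2 * j) (pre R n) ≤ 2 ^ n * d (2 * j) [] := dens_pre hρ1 hρ2 (hd _) R n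
      _ ≤ 2 ^ n * (1 / 2 : ℝ) ^ (2 * j) := by gcongr
      _ ≤ 2 ^ j * (1 / 2 : ℝ) ^ (2 * j) := by
          gcongr
          norm_num
      _ = (1 / 2 : ℝ) ^ j := by
          rw [two_mul, pow_add, ← mul_assoc, ← mul_pow]
          norm_num
  refine ⟨?_, ?_, ?_⟩
  · have h1 := (abs_le.mp hYc).2
    have h2 := hdn j le_rfl
    have h3 : (1 / 2 : ℝ) ^ (j + 2 * j + 3) ≤ (1 / 2 : ℝ) ^ j :=
      pow_le_pow_of_le_one (by norm_num) (by norm_num) (by omega)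
    linarith
  · intro i b
    have h1 := (abs_le.mp (hX i b)).2
    have h2 := (abs_le.mp (hX i (!b))).2
    have h3 := (abs_le.mp (hproc i)).1
    have h4 := (hd (2 * j)).le (pre R (j + i)) b
    have h5 : (1 / 2 : ℝ) ^ (j + i + 1 + 2 * j + 3) ≤ (1 / 2 : ℝ) ^ (j + i + 2 * j + 3) :=
      pow_le_pow_of_le_one (by norm_num) (by norm_num) (by omega)
    set ε := (1 / 2 : ℝ) ^ (j + i + 1 + 2 * j + 3) with hε
    have h6 : ρ * XX Φ κ Pr T j i b ω ≤ ρ * (d (2 * j) (pre R (j + i) ++ [b]) + ε) :=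
      mul_le_mul_of_nonneg_left (by linarith) (by linarith)
    have h7 : (1 - ρ) * XX Φ κ Pr T j i (!b) ω ≤
        (1 - ρ) * (d (2 * j) (pre R (j + i) ++ [!b]) + ε) :=
      mul_le_mul_of_nonneg_left (by linarith) (by linarith)
    unfold ee
    linarith
  · obtain ⟨n, hn⟩ := (hN (2 * j)).2.2 R rfl
    have hlt : j < n := by
      by_contra hle
      have h1 := hdn n (by omega)
      have h2 : (1 / 2 : ℝ) ^ j ≤ (1 / 2 : ℝ) ^ 1 :=
        pow_le_pow_of_le_one (by norm_num) (by norm_num) hj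
      norm_num at h2
      norm_num at h1
      linarith
    obtain ⟨i, rfl⟩ := Nat.exists_eq_add_of_lt hlt
    refine ⟨i + 1, ?_⟩
    have h3 := (abs_le.mp (hproc (i + 1))).1
    rw [show j + (i + 1) = j + i + 1 by omega] at h3
    have h4 : (1 / 2 : ℝ) ^ (j + i + 1 + 2 * j + 3) ≤ (1 / 2 : ℝ) ^ 1 :=
      pow_le_pow_of_le_one (by norm_num) (by norm_num) (by omega)
    rw [pow_one] at h4
    linarith

theorem start_eventually (hLF : T_LEVFIN) (hEP : T_EPLIM) (hJJ : T_JJ) (hMO : T_NNMONO)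
    (hSL : Pool.Agent.RelM.T_STRLEN) (Φ : Fam) (κ : ℕ) {ρ : ℝ} (hρ : 1 / 2 < ρ) :
    ∃ n₀, ∀ j, n₀ ≤ j → Start Φ κ ρ j := by
  have h1 : ∀ᶠ m in Filter.atTop, ep m < (2 * ρ - 1) / 4 :=
    hEP.eventually (gt_mem_nhds (by linarith))
  obtain ⟨M, hM⟩ := Filter.eventually_atTop.1 h1
  refine ⟨2 ^ nn Φ M, fun j hj => ?_⟩
  have key : ∀ t, j ≤ t → nn Φ M ≤ lev κ (str t) := by
    intro t ht
    have h2 := (hLF κ (str t) _ le_rfl).2
    rw [hSL] at h2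
    refine le_trans ?_ h2
    rw [Nat.le_log_iff_pow_le (by norm_num) (by omega)]
    omega
  refine ⟨fun t ht => ((hMO Φ).monotone (Nat.zero_le M)).trans (key t ht), ?_⟩
  intro t m ht hm
  have h3 := key t ht
  have h4 := (hJJ Φ (lev κ (str t))).1
  have h5 : M ≤ m := by
    by_contra hlt
    push Not at hlt
    have h6 : nn Φ (jj Φ (lev κ (str t))) ≤ nn Φ M := (hMO Φ).monotone (by
      show bl Φ κ t ≤ M
      omega)
    omega
  have h7 := hM m h5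
  unfold lam
  linarith

end NONNULL_

open NONNULL_ in
/-- Almost surely, no machine that is fast compared with the keys of `Rl ω κ` covers `Rl ω κ` at
odds that are not fair. -/
theorem nonnull (hHIT : T_HIT) (hCROSS : T_CROSS) (hSV : T_SV) (hSYS : T_SYS)
    (hFD : Pool.Agent.RelM.T_FD) (hOVIS : T_OVIS) (hHL : T_HLDEP) (hJJ : T_JJ) (hMO : T_NNMONO)
    (hLM : T_LEVMONO) (hLF : T_LEVFIN) (hEP : T_EPLIM) (hSL : Pool.Agent.RelM.T_STRLEN)
    (hSI : Pool.Agent.RelM.T_STRINJ) : T_NONNULL := by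
  intro Φ P hP κ Pr T ρ hρ hρ' hfast
  rw [ae_iff]
  simp only [not_not]
  obtain ⟨t₀, ht₀⟩ := hfast
  obtain ⟨n₀, hn₀⟩ := start_eventually hLF hEP hJJ hMO hSL Φ κ hρ
  set f : ℕ → ℝ≥0∞ := fun t => ENNReal.ofReal (1 / ((t : ℝ) + 1) ^ 2) with hf
  have hfs : ∑' t, f t ≠ ∞ := by
    have h1 : Summable (fun t : ℕ => 1 / ((t : ℝ) + 1) ^ 2) := by
      have := (summable_nat_add_iff 1).mpr (Real.summable_one_div_nat_pow.mpr (by norm_num : 1 < 2))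
      simpa using this
    rw [hf, ← ENNReal.ofReal_tsum_of_nonneg (fun t => by positivity) h1]
    exact ENNReal.ofReal_ne_top
  have hbound : ∀ j, max 1 (max n₀ t₀) ≤ j →
      P {ω | ∃ d : ℕ → List Bool → ℝ, IsOddsCover ρ d {Rl ω κ} ∧ Approx (oo Φ ω) Pr T d} ≤
      ENNReal.ofReal (6 * (1 / 2 : ℝ) ^ j) + (f j + (∑' i, f (i + j) + ∑' i, f (i + j))) := by
    intro j hj
    have hj1 : 1 ≤ j := le_trans (le_max_left _ _) hj
    have hj2 : n₀ ≤ j := le_trans (le_max_left _ _) (le_trans (le_max_right _ _) hj)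
    have hj3 : t₀ ≤ j := le_trans (le_max_right _ _) (le_trans (le_max_right _ _) hj)
    have hS := hn₀ j hj2
    refine (measure_mono (incl Φ κ Pr T hρ.le hρ' j hj1)).trans ?_
    refine (measure_union_le _ _).trans (add_le_add
      (cross_bound hCROSS hSV hSYS hFD hOVIS hHL hJJ hMO hLM hSL hSI hP κ Pr T hρ.le hρ' j hS) ?_)
    refine (measure_union_le _ _).trans (add_le_add ?_ ?_)
    · exact hit_bound hHIT hFD hP κ Pr T _ _ j [] (hS.h0 _ le_rfl) (ht₀ j hj3) (by simp; omega)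
    · refine (measure_union_le _ _).trans (add_le_add ?_ ?_)
      · refine (measure_iUnion_le _).trans (ENNReal.tsum_le_tsum fun i => ?_)
        rw [add_comm i j]
        exact hit_bound hHIT hFD hP κ Pr T _ _ (j + i) [false] (hS.h0 _ (by omega))
          (ht₀ _ (by omega)) (by simp; omega)
      · refine (measure_iUnion_le _).trans (ENNReal.tsum_le_tsum fun i => ?_)
        rw [add_comm i j]
        exact hit_bound hHIT hFD hP κ Pr T _ _ (j + i) [true] (hS.h0 _ (by omega))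
          (ht₀ _ (by omega)) (by simp; omega)
  have hlim : Filter.Tendsto (fun j : ℕ =>
      ENNReal.ofReal (6 * (1 / 2 : ℝ) ^ j) + (f j + (∑' i, f (i + j) + ∑' i, f (i + j))))
      Filter.atTop (nhds 0) := by
    have h1 : Filter.Tendsto (fun j : ℕ => ENNReal.ofReal (6 * (1 / 2 : ℝ) ^ j)) Filter.atTop
        (nhds 0) := by
      have h2 : Filter.Tendsto (fun j : ℕ => 6 * (1 / 2 : ℝ) ^ j) Filter.atTop (nhds (6 * 0)) :=
        (tendsto_pow_atTop_nhds_zero_of_lt_one (by norm_num) (by norm_num)).const_mul 6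
      have h3 := ENNReal.tendsto_ofReal h2
      simpa using h3
    have h4 : Filter.Tendsto f Filter.atTop (nhds 0) :=
      ENNReal.tendsto_atTop_zero_of_tsum_ne_top hfs
    have h5 := ENNReal.tendsto_sum_nat_add f hfs
    simpa using h1.add (h4.add (h5.add h5))
  refine le_antisymm (ge_of_tendsto hlim ?_) zero_le
  filter_upwards [Filter.eventually_ge_atTop (max 1 (max n₀ t₀))] with j hj
  exact hbound j hj

end Pool.Agent.RelO
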