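import Pool.Agent.RelO.Targets
import Pool.Agent.RelM.PROB
import Mathlib

/-!
# Job PLIM: the tilted measure exists

The measures with densities `DD j` with respect to fair coins agree on the coins in `old j`; every
limit point of them is a tilted measure.
-/

set_option autoImplicit false

namespace Pool.Agent.RelO

open MeasureTheory Set Filter
open scoped ENNReal Topology
open Pool.Agent.RelM (Idx Om fair coin mixP mixp fd)

namespace PLIM_

lemma dep_mono {α : Type} {s t : Set Idx} {F : Om → α} (h : s ⊆ t) (hF : Dep s F) : Dep t F :=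
  fun ω ω' hh => hF ω ω' fun a ha => hh a (h ha)

/-- Functions of finitely many coins are measurable. -/
lemma dep_meas {α : Type} [MeasurableSpace α] {s : Set Idx} (hs : s.Finite) {F : Om → α}
    (hF : Dep s F) : Measurable F := by
  intro t _
  refine fd s hs _ fun ω ω' h => ?_
  simp only [Set.mem_preimage]
  rw [hF ω ω' h]

lemma mix_old {p : Set Idx} {ω τ : Om} {a : Idx} (h : a ∈ p) : mixP p ω τ a = ω a := by
  simp [mixP, h]

lemma mix_mix (p : Set Idx) (ω τ τ' : Om) : mixP p (mixP p ω τ) τ' = mixP p ω τ' := by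
  funext a
  by_cases h : a ∈ p <;> simp [mixP, h]

lemma mix_congr {p : Set Idx} {ω ω' : Om} (h : ∀ a ∈ p, ω a = ω' a) (τ : Om) :
    mixP p ω τ = mixP p ω' τ := by
  funext a
  by_cases ha : a ∈ p
  · simp [mixP, ha, h a ha]
  · simp [mixP, ha]

variable {old : ℕ → Set Idx} {good : ℕ → Set Om} {lam : ℕ → ℝ}

lemma mono_le (S : Sys old good lam) {i j : ℕ} (h : i ≤ j) : old i ⊆ old j :=
  monotone_nat_of_le_succ (f := old) S.mono h

lemma mu_dep (j : ℕ) : Dep (old j) (mu old good j) := by
  intro ω ω' h
  unfold mu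
  simp only [mix_congr h]

lemma good_meas (S : Sys old good lam) (j : ℕ) : MeasurableSet (good j) :=
  fd (old (j + 1)) (S.fin _) _ fun ω ω' h => by
    have := S.dep j ω ω' h
    exact iff_of_eq this

lemma gg_dep (S : Sys old good lam) (j : ℕ) : Dep (old (j + 1)) (gg old good lam j) := by
  intro ω ω' h
  unfold gg
  have h1 : mu old good j ω = mu old good j ω' := dep_mono (S.mono j) (mu_dep j) ω ω' h
  have h2 : (ω ∈ good j) ↔ (ω' ∈ good j) := iff_of_eq (S.dep j ω ω' h)
  rw [h1]
  by_cases h0 : ω ∈ good j
  · rw [if_pos h0, if_pos (h2.1 h0)]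
  · rw [if_neg h0, if_neg fun h' => h0 (h2.2 h')]

lemma DD_dep (S : Sys old good lam) (j : ℕ) : Dep (old j) (DD old good lam j) := by
  induction j with
  | zero => intro ω ω' _; rfl
  | succ j ih =>
    intro ω ω' h
    change DD old good lam j ω * ENNReal.ofReal (gg old good lam j ω) =
      DD old good lam j ω' * ENNReal.ofReal (gg old good lam j ω')
    rw [dep_mono (S.mono j) ih ω ω' h, gg_dep S j ω ω' h]

lemma DD_meas (S : Sys old good lam) (j : ℕ) : Measurable (DD old good lam j) :=
  dep_meas (S.fin j) (DD_dep S j)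

lemma gg_meas (S : Sys old good lam) (j : ℕ) : Measurable (gg old good lam j) :=
  dep_meas (S.fin (j + 1)) (gg_dep S j)

/-- The factor of stage `j` has mean one given the coins in `old j`. -/
lemma gg_mean (S : Sys old good lam) (j : ℕ) (ω : Om) :
    ∫⁻ τ, ENNReal.ofReal (gg old good lam j (mixP (old j) ω τ)) ∂coin = 1 := by
  classical
  have hmu : ∀ τ, mu old good j (mixP (old j) ω τ) = mu old good j ω := fun τ =>
    mu_dep j _ _ fun a ha => mix_old ha
  let G : Set Om := {τ | mixP (old j) ω τ ∈ good j}
  have hmix : Measurable fun τ : Om => mixP (old j) ω τ :=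
    (mixp (old j)).measurable.comp measurable_prodMk_left
  have hG : MeasurableSet G := hmix (good_meas S j)
  have hm1 : coin G = ENNReal.ofReal (mu old good j ω) := by
    unfold mu
    rw [ENNReal.ofReal_toReal (measure_ne_top _ _)]
  have hm01 : 0 ≤ mu old good j ω ∧ mu old good j ω ≤ 1 := by
    refine ⟨ENNReal.toReal_nonneg, ?_⟩
    unfold mu
    exact ENNReal.toReal_le_of_le_ofReal zero_le_one (by simpa using prob_le_one)
  have hm2 : coin Gᶜ = ENNReal.ofReal (1 - mu old good j ω) := by
    rw [prob_compl_eq_one_sub hG, hm1, ENNReal.ofReal_sub _ hm01.1, ENNReal.ofReal_one]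
  have h1 : ∀ τ, ENNReal.ofReal (gg old good lam j (mixP (old j) ω τ)) =
      G.indicator (fun _ => ENNReal.ofReal (1 + lam j * (1 - mu old good j ω))) τ +
      Gᶜ.indicator (fun _ => ENNReal.ofReal (1 - lam j * mu old good j ω)) τ := by
    intro τ
    unfold gg
    rw [hmu]
    by_cases h : mixP (old j) ω τ ∈ good j
    · have h' : τ ∈ G := h
      simp [h, h']
    · have h' : τ ∉ G := h
      simp only [h, h', if_false, Set.indicator_of_notMem, not_false_eq_true,
        Set.indicator_of_mem, Set.mem_compl_iff, zero_add]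
      congr 1
      ring
  simp only [h1]
  rw [lintegral_add_left (measurable_const.indicator hG), lintegral_indicator_const hG,
    lintegral_indicator_const hG.compl, hm1, hm2]
  have hl0 := S.lam0 j
  have hl1 := S.lam1 j
  have e1 : 0 ≤ 1 + lam j * (1 - mu old good j ω) := by
    have := mul_nonneg hl0 (sub_nonneg.mpr hm01.2)
    linarith
  have e2 : 0 ≤ 1 - lam j * mu old good j ω := by
    have : lam j * mu old good j ω ≤ 1 / 4 * 1 :=
      mul_le_mul hl1 hm01.2 hm01.1 (by norm_num)
    linarith
  rw [← ENNReal.ofReal_mul e1, ← ENNReal.ofReal_mul e2, ← ENNReal.ofReal_add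
    (mul_nonneg e1 hm01.1) (mul_nonneg e2 (sub_nonneg.mpr hm01.2)), ← ENNReal.ofReal_one]
  congr 1
  ring

/-- One step of the martingale. -/
lemma step_eq (S : Sys old good lam) (j : ℕ) (F : Om → ℝ≥0∞) (hF : Dep (old j) F) :
    ∫⁻ ω, F ω * ENNReal.ofReal (gg old good lam j ω) ∂coin = ∫⁻ ω, F ω ∂coin := by
  have hFm : Measurable F := dep_meas (S.fin j) hF
  have hgm : Measurable fun ω => ENNReal.ofReal (gg old good lam j ω) :=
    (gg_meas S j).ennreal_ofReal
  have hmp := mixp (old j)
  have hprod : Measurable fun ω => F ω * ENNReal.ofReal (gg old good lam j ω) := hFm.mul hgm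
  have hprod2 : Measurable fun z : Om × Om => F (mixP (old j) z.1 z.2) *
      ENNReal.ofReal (gg old good lam j (mixP (old j) z.1 z.2)) := hprod.comp hmp.measurable
  rw [← hmp.lintegral_comp hprod, lintegral_prod _ hprod2.aemeasurable]
  refine lintegral_congr fun ω => ?_
  have h1 : ∀ τ, F (mixP (old j) ω τ) = F ω := fun τ => hF _ _ fun a ha => mix_old ha
  simp only [h1]
  rw [lintegral_const_mul, gg_mean S j ω, mul_one]
  exact hgm.comp (hmp.measurable.comp measurable_prodMk_left)

lemma DD_eq (S : Sys old good lam) {i j : ℕ} (h : i ≤ j) (F : Om → ℝ≥0∞) (hF : Dep (old i) F) :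
    ∫⁻ ω, F ω * DD old good lam j ω ∂coin = ∫⁻ ω, F ω * DD old good lam i ω ∂coin := by
  induction j, h using Nat.le_induction with
  | base => rfl
  | succ j hij ih =>
    rw [← ih]
    have h1 : Dep (old j) fun ω => F ω * DD old good lam j ω := by
      intro ω ω' hh
      change F ω * DD old good lam j ω = F ω' * DD old good lam j ω'
      rw [dep_mono (mono_le S hij) hF ω ω' hh, DD_dep S j ω ω' hh]
    rw [← step_eq S j _ h1]
    refine lintegral_congr fun ω => ?_
    change F ω * (DD old good lam j ω * ENNReal.ofReal (gg old good lam j ω)) = _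
    rw [mul_assoc]

/-- The approximating measures. -/
noncomputable def Pj (old : ℕ → Set Idx) (good : ℕ → Set Om) (lam : ℕ → ℝ) (j : ℕ) : Measure Om :=
  coin.withDensity (DD old good lam j)

lemma Pj_lint (S : Sys old good lam) (j : ℕ) (F : Om → ℝ≥0∞) (hF : Measurable F) :
    ∫⁻ ω, F ω ∂(Pj old good lam j) = ∫⁻ ω, F ω * DD old good lam j ω ∂coin := by
  unfold Pj
  rw [lintegral_withDensity_eq_lintegral_mul _ (DD_meas S j) hF]
  refine lintegral_congr fun ω => ?_
  rw [Pi.mul_apply, mul_comm]

lemma Pj_prob (S : Sys old good lam) (j : ℕ) : IsProbabilityMeasure (Pj old good lam j) := by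
  refine ⟨?_⟩
  have h := Pj_lint S j (fun _ => 1) measurable_const
  rw [lintegral_one] at h
  rw [h, DD_eq S (Nat.zero_le j) (fun _ => 1) (fun _ _ _ => rfl)]
  simp [DD]

/-- The cylinder set of a sample. -/
lemma clopen (s : Set Idx) (hs : s.Finite) (f : s → Bool) :
    IsClopen {ω : Om | ∀ a : s, ω a = f a} := by
  have : Finite s := hs
  have h1 : {ω : Om | ∀ a : s, ω a = f a} = ⋂ a : s, {ω : Om | ω a = f a} := by
    ext ω
    simp
  rw [h1]
  refine isClopen_iInter_of_finite fun a => ?_
  have : {ω : Om | ω a = f a} = (fun ω : Om => ω a) ⁻¹' {f a} := by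
    ext ω; simp
  rw [this]
  exact (isClopen_discrete {f a}).preimage (continuous_apply (a : Idx))

end PLIM_

open PLIM_

theorem plim : T_PLIM := by
  classical
  intro old good lam S
  let μs : ℕ → ProbabilityMeasure Om := fun j => ⟨Pj old good lam j, Pj_prob S j⟩
  obtain ⟨P, hP⟩ : ∃ P : ProbabilityMeasure Om, Tendsto μs (hyperfilter ℕ : Filter ℕ) (𝓝 P) := by
    have h := Ultrafilter.le_nhds_lim ((hyperfilter ℕ).map μs)
    exact ⟨_, h⟩
  refine ⟨P, P.2, ?_⟩
  intro j F hFm hF
  rw [← Pj_lint S j F hFm]
  have hfin : Finite (old j) := S.fin j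
  -- agreement on the cylinders
  have hcyl : ∀ f : old j → Bool, (P : Measure Om) {ω : Om | ∀ a : old j, ω a = f a} =
      Pj old good lam j {ω : Om | ∀ a : old j, ω a = f a} := by
    intro f
    have hcl := clopen (old j) (S.fin j) f
    have h1 := ProbabilityMeasure.tendsto_measure_of_null_frontier_of_tendsto' hP
      (E := {ω : Om | ∀ a : old j, ω a = f a}) (by rw [hcl.frontier_eq]; simp)
    have h2 : ∀ᶠ k in (hyperfilter ℕ : Filter ℕ),
        (μs k : Measure Om) {ω : Om | ∀ a : old j, ω a = f a} =
          Pj old good lam j {ω : Om | ∀ a : old j, ω a = f a} := by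
      have h3 : ∀ᶠ k in (atTop : Filter ℕ),
        (μs k : Measure Om) {ω : Om | ∀ a : old j, ω a = f a} =
          Pj old good lam j {ω : Om | ∀ a : old j, ω a = f a} := by
        filter_upwards [eventually_ge_atTop j] with k hk
        change Pj old good lam k _ = _
        have hms : MeasurableSet {ω : Om | ∀ a : old j, ω a = f a} := hcl.isClosed.measurableSet
        rw [← lintegral_indicator_one hms, ← lintegral_indicator_one hms,
          Pj_lint S k _ (measurable_one.indicator hms), Pj_lint S j _ (measurable_one.indicator hms)]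
        refine DD_eq S hk _ ?_
        intro ω ω' h
        have : (ω ∈ {ω : Om | ∀ a : old j, ω a = f a}) ↔
            (ω' ∈ {ω : Om | ∀ a : old j, ω a = f a}) := by
          simp only [Set.mem_ofPred_eq]
          refine forall_congr' fun a => ?_
          rw [h a a.2]
        by_cases h0 : ω ∈ {ω : Om | ∀ a : old j, ω a = f a}
        · rw [Set.indicator_of_mem h0, Set.indicator_of_mem (this.1 h0)]
          rfl
        · rw [Set.indicator_of_notMem h0, Set.indicator_of_notMem (fun h' => h0 (this.2 h'))]
      exact Nat.hyperfilter_le_atTop h3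
    exact tendsto_nhds_unique (h1.congr' h2) tendsto_const_nhds |>.symm ▸ rfl
  -- factor through the finite space
  let r : Om → (old j → Bool) := fun ω a => ω a
  have hr : Measurable r := measurable_pi_lambda _ fun a => measurable_pi_apply _
  have hmap : (P : Measure Om).map r = (Pj old good lam j).map r := by
    refine Measure.ext_of_singleton fun f => ?_
    rw [Measure.map_apply hr (measurableSet_singleton f),
      Measure.map_apply hr (measurableSet_singleton f)]
    have : r ⁻¹' {f} = {ω : Om | ∀ a : old j, ω a = f a} := by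
      ext ω
      simp only [Set.mem_preimage, Set.mem_singleton_iff, Set.mem_ofPred_eq]
      exact funext_iff
    rw [this, hcyl]
  let e : (old j → Bool) → Om := fun f a => if h : a ∈ old j then f ⟨a, h⟩ else false
  have hFe : ∀ ω, F ω = F (e (r ω)) := by
    intro ω
    refine hF _ _ fun a ha => ?_
    simp [e, r, ha]
  have hm : Measurable fun f : old j → Bool => F (e f) := measurable_of_countable _
  calc ∫⁻ ω, F ω ∂(P : Measure Om) = ∫⁻ ω, F (e (r ω)) ∂(P : Measure Om) :=
        lintegral_congr hFe
    _ = ∫⁻ f, F (e f) ∂((P : Measure Om).map r) := (lintegral_map hm hr).symm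
    _ = ∫⁻ f, F (e f) ∂((Pj old good lam j).map r) := by rw [hmap]
    _ = ∫⁻ ω, F (e (r ω)) ∂(Pj old good lam j) := lintegral_map hm hr
    _ = ∫⁻ ω, F ω ∂(Pj old good lam j) := (lintegral_congr hFe).symm

end Pool.Agent.RelO
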