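import Pool.Agent.RelO.Targets
import Pool.Agent.RelM.QRY

/-!
# Job RO-QRY: values of the oracle
-/

set_option autoImplicit false

namespace Pool.Agent.RelO

open MeasureTheory Set
open scoped ENNReal
open Pool.Agent.RelM (Lang Instr Cfg step run Halts Decides E1 E2 NP pair triple binVal outVal
  Approx IsDensity str pre IsNullCover Null1 Null2 wq sq0 sq1 Asks hq Idx Om fair coin Rl mixP
  wq_inj triple_inj wq_length triple_length)

namespace QRY_

lemma wit_length (ω : Om) (κ : ℕ) (x : List Bool) : (wit ω κ x).length = lev κ x := by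
  simp [wit]

lemma sq1_length (κ : ℕ) (x : List Bool) (m : ℕ) :
    (sq1 κ x m).length = m + κ + x.length + 4 := by
  simp [sq1, triple_length]

lemma sq0_length (κ : ℕ) (x : List Bool) (m : ℕ) :
    (sq0 κ x m).length = m + κ + x.length + 4 := by
  simp [sq0, triple_length]

/-- The answer does not change if the two samples agree on the coins that matter, the two fixed
parts agree on the words that matter and the two visible sets agree on the pairs that matter. -/
lemma orcV_congr_imp {S S' : ℕ → List Bool → Prop} {G G' : Lang} {ω ω' : Om} {q : List Bool}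
    (hS : ∀ κ x, lev κ x ≤ q.length → S κ x → S' κ x)
    (hω : ∀ κ x i, lev κ x ≤ q.length → S κ x → i ≤ lev κ x → ω (κ, x, i) = ω' (κ, x, i))
    (hG : ∀ u : List Bool, u.length + 2 ≤ q.length → G u = G' u)
    (h : orcV S G ω q = true) : orcV S' G' ω' q = true := by
  simp only [orcV, decide_eq_true_eq] at h ⊢
  rcases h with ⟨κ, x, h1, h2, h3⟩ | ⟨κ, x, m, h2, h3⟩ | ⟨κ, x, m, h1, h2, h3, h4⟩ | ⟨u, h1, h2⟩
  · have hl : lev κ x ≤ q.length := by
      rw [h2, wq_length, wit_length]; omega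
    have hw : wit ω κ x = wit ω' κ x := by
      unfold wit
      apply List.map_congr_left
      intro i hi
      rw [List.mem_range] at hi
      exact hω κ x (i + 1) hl h1 hi
    refine Or.inl ⟨κ, x, hS κ x hl h1, by rw [← hw]; exact h2, ?_⟩
    have := hω κ x 0 hl h1 (Nat.zero_le _)
    unfold Rl at h3 ⊢
    rw [← this]; exact h3
  · exact Or.inr (Or.inl ⟨κ, x, m, h2, h3⟩)
  · have hl : lev κ x ≤ q.length := by
      have : lev κ x < 2 ^ lev κ x := Nat.lt_two_pow_self
      rw [h2, sq1_length]; omega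
    refine Or.inr (Or.inr (Or.inl ⟨κ, x, m, hS κ x hl h1, h2, h3, ?_⟩))
    have := hω κ x 0 hl h1 (Nat.zero_le _)
    unfold Rl at h4 ⊢
    rw [← this]; exact h4
  · refine Or.inr (Or.inr (Or.inr ⟨u, h1, ?_⟩))
    rw [← hG u (by rw [h1]; simp)]
    exact h2

end QRY_

open QRY_

theorem owq : T_OWQ := by
  intro S G ω κ x y
  simp only [orcV, decide_eq_true_eq]
  constructor
  · rintro (⟨κ', x', hS, hq, hR⟩ | ⟨κ', x', m, hq, -⟩ | ⟨κ', x', m, -, hq, -⟩ | ⟨u, hq, -⟩)
    · obtain ⟨h1, h2, h3⟩ := wq_inj hq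
      subst h1; subst h2
      exact ⟨hS, h3, hR⟩
    · simp [wq, sq0] at hq
    · simp [wq, sq1] at hq
    · simp [wq] at hq
  · rintro ⟨hS, hy, hR⟩
    exact Or.inl ⟨κ, x, hS, by rw [hy], hR⟩

theorem osq0 : T_OSQ0 := by
  intro S G ω κ x m
  simp only [orcV, decide_eq_true_eq]
  constructor
  · rintro (⟨κ', x', hS, hq, hR⟩ | ⟨κ', x', m', hq, h⟩ | ⟨κ', x', m', -, hq, -⟩ | ⟨u, hq, -⟩)
    · simp [wq, sq0] at hq
    · simp only [sq0, List.cons.injEq, true_and] at hq
      obtain ⟨h1, h2, h3⟩ := triple_inj hq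
      subst h1; subst h2; subst h3
      exact h
    · simp [sq0, sq1] at hq
    · simp [sq0] at hq
  · intro h
    exact Or.inr (Or.inl ⟨κ, x, m, rfl, h⟩)

theorem osq1 : T_OSQ1 := by
  intro S G ω κ x m
  simp only [orcV, decide_eq_true_eq]
  constructor
  · rintro (⟨κ', x', hS, hq, hR⟩ | ⟨κ', x', m', hq, h⟩ | ⟨κ', x', m', hS, hq, h⟩ | ⟨u, hq, -⟩)
    · simp [wq, sq1] at hq
    · simp [sq0, sq1] at hq
    · simp only [sq1, List.cons.injEq, true_and] at hq
      obtain ⟨h1, h2, h3⟩ := triple_inj hq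
      subst h1; subst h2; subst h3
      exact ⟨hS, h⟩
    · simp [sq1] at hq
  · rintro ⟨hS, h⟩
    exact Or.inr (Or.inr (Or.inl ⟨κ, x, m, hS, rfl, h⟩))

theorem ott : T_OTT := by
  intro S G ω u
  rw [Bool.eq_iff_iff]
  simp only [orcV, decide_eq_true_eq]
  constructor
  · rintro (⟨κ', x', hS, hq, hR⟩ | ⟨κ', x', m', hq, h⟩ | ⟨κ', x', m', hS, hq, h⟩ | ⟨u', hq, h⟩)
    · simp [wq] at hq
    · simp [sq0] at hq
    · simp [sq1] at hq
    · simp only [List.cons.injEq, true_and] at hq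
      rw [hq]; exact h
  · intro h
    exact Or.inr (Or.inr (Or.inr ⟨u, rfl, h⟩))

theorem oloc : T_OLOC := by
  intro S G G' ω ω' m hω hG q hq
  rw [Bool.eq_iff_iff]
  constructor
  · apply orcV_congr_imp (fun _ _ _ h => h)
    · intro κ x i hl _ hi
      exact hω (κ, x, i) ⟨le_trans hl hq, hi⟩
    · intro u hu
      exact hG u (le_trans hu hq)
  · apply orcV_congr_imp (fun _ _ _ h => h)
    · intro κ x i hl _ hi
      exact (hω (κ, x, i) ⟨le_trans hl hq, hi⟩).symm
    · intro u hu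
      exact (hG u (le_trans hu hq)).symm

theorem ovis : T_OVIS := by
  intro S G ω ω' hω q
  rw [Bool.eq_iff_iff]
  constructor
  · apply orcV_congr_imp (fun _ _ _ h => h)
    · intro κ x i _ hS hi
      exact hω κ x i hS hi
    · intro u _; rfl
  · apply orcV_congr_imp (fun _ _ _ h => h)
    · intro κ x i _ hS hi
      exact (hω κ x i hS hi).symm
    · intro u _; rfl

theorem ocut : T_OCUT := by
  intro S G G' ω q h
  by_contra hcon
  push Not at hcon
  obtain ⟨h1, h2, hG⟩ := hcon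
  apply h
  rw [Bool.eq_iff_iff]
  constructor
  · intro ho
    unfold orc at ho
    simp only [orcV, decide_eq_true_eq] at ho ⊢
    rcases ho with ⟨κ, x, -, h4, h5⟩ | h3 | ⟨κ, x, m, -, h4, h5, h6⟩ | ⟨u, h3, h4⟩
    · refine Or.inl ⟨κ, x, ?_, h4, h5⟩
      by_contra hS
      exact h1 κ x hS h4
    · exact Or.inr (Or.inl h3)
    · refine Or.inr (Or.inr (Or.inl ⟨κ, x, m, ?_, h4, h5, h6⟩))
      by_contra hS
      have := h2 κ x m hS h4
      omega
    · exact Or.inr (Or.inr (Or.inr ⟨u, h3, by rw [← hG u h3]; exact h4⟩))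
  · intro ho
    unfold orc
    simp only [orcV, decide_eq_true_eq] at ho ⊢
    rcases ho with ⟨κ, x, -, h4, h5⟩ | h3 | ⟨κ, x, m, -, h4, h5, h6⟩ | ⟨u, h3, h4⟩
    · exact Or.inl ⟨κ, x, trivial, h4, h5⟩
    · exact Or.inr (Or.inl h3)
    · exact Or.inr (Or.inr (Or.inl ⟨κ, x, m, trivial, h4, h5, h6⟩))
    · exact Or.inr (Or.inr (Or.inr ⟨u, h3, by rw [hG u h3]; exact h4⟩))

end Pool.Agent.RelO
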