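import Pool.Agent.RelO.Targets
import Pool.Agent.RelM.PROB

/-!
# Job SYS: the data of the tilted measure
-/

set_option autoImplicit false

namespace Pool.Agent.RelO

open MeasureTheory Set
open scoped ENNReal
open Pool.Agent.RelM (Lang Instr Cfg step run Halts Decides E1 E2 NP pair triple binVal outVal
  Approx IsDensity str pre IsNullCover Null1 Null2 wq sq0 sq1 Asks hq Idx Om fair coin Rl mixP)

namespace SYS_

lemma old_mono (h : T_NNMONO) (Φ : Fam) (j : ℕ) : Old Φ j ⊆ Old Φ (j + 1) := by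
  rintro a ⟨h1, h2⟩
  exact ⟨h1.trans (h Φ (Nat.lt_succ_self j)), h2⟩

lemma old_fin (h : T_SHORTFIN) (Φ : Fam) (j : ℕ) : (Old Φ j).Finite := by
  apply (h (nn Φ j)).subset
  rintro a ⟨h1, h2⟩
  exact ⟨h1.le, h2⟩

lemma hl_eq (h : T_HLDEP) (Φ : Fam) (j : ℕ) (ω ω' : Om) (hω : ∀ a ∈ Old Φ j, ω a = ω' a) :
    (∀ i, i < j → hl Φ ω j i = hl Φ ω' j i) ∧
      maj Φ j (hl Φ ω j) ω = maj Φ j (hl Φ ω' j) ω' := by
  have h1 := h Φ j ω ω' hω
  constructor
  · intro i hi
    have h2 := congrFun h1 i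
    have hne : i ≠ j := by omega
    simpa only [hl, Function.update_of_ne hne] using h2
  · have h2 := congrFun h1 j
    simpa only [hl, Function.update_self] using h2

lemma mem_good_iff (hA : T_ANSLOC) (hH : T_HLDEP) (hN : T_NNMONO) (Φ : Fam) (j : ℕ) (ω ω' : Om)
    (hω : ∀ a ∈ Old Φ (j + 1), ω a = ω' a) : ω ∈ good Φ j ↔ ω' ∈ good Φ j := by
  obtain ⟨h1, h2⟩ := hl_eq hH Φ j ω ω' fun a ha => hω a (old_mono hN Φ j ha)
  simp only [good, mem_ofPred_eq]
  rw [hA Φ j (hl Φ ω j) (hl Φ ω' j) ω ω' h1 hω, h2]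

lemma mixP_old (Φ : Fam) (j : ℕ) (ω τ : Om) : ∀ a ∈ Old Φ j, mixP (Old Φ j) ω τ a = ω a :=
  fun _ ha => if_pos ha

instance : IsProbabilityMeasure fair := by
  unfold fair
  infer_instance

instance : IsProbabilityMeasure coin := by
  unfold coin
  infer_instance

end SYS_

open SYS_ in
theorem sys (hA : T_ANSLOC) (hH : T_HLDEP) (hE : T_EP) (hN : T_NNMONO) (hS : T_SHORTFIN) :
    T_SYS := by
  intro Φ
  refine ⟨old_fin hS Φ, old_mono hN Φ, ?_, ?_, ?_⟩
  · intro j ω ω' hω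
    exact propext (mem_good_iff hA hH hN Φ j ω ω' hω)
  · intro j
    have := (hE j).1
    unfold lam
    linarith
  · intro j
    have := (hE j).2
    unfold lam
    linarith

open SYS_ in
theorem majok (hA : T_ANSLOC) (hH : T_HLDEP) (hS : T_SHORTFIN) : T_MAJ := by
  intro Φ j ω
  set A : Set Om := {τ | ans Φ j (hl Φ ω j) (mixP (Old Φ j) ω τ) = true} with hAd
  have hmeas : MeasurableSet A := by
    apply Pool.Agent.RelM.fd (Old Φ (j + 1)) (old_fin hS Φ (j + 1))
    intro τ τ' hτ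
    simp only [hAd, mem_ofPred_eq]
    rw [hA Φ j (hl Φ ω j) (hl Φ ω j) (mixP (Old Φ j) ω τ) (mixP (Old Φ j) ω τ')
      (fun _ _ => rfl) ?_]
    intro a ha
    unfold mixP
    split_ifs
    · rfl
    · exact hτ a ha
  have hset : {τ | mixP (Old Φ j) ω τ ∈ good Φ j} =
      {τ | ans Φ j (hl Φ ω j) (mixP (Old Φ j) ω τ) = maj Φ j (hl Φ ω j) ω} := by
    ext τ
    simp only [good, mem_ofPred_eq]
    obtain ⟨h1, h2⟩ := hl_eq hH Φ j (mixP (Old Φ j) ω τ) ω (mixP_old Φ j ω τ)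
    rw [h2, hA Φ j (hl Φ (mixP (Old Φ j) ω τ) j) (hl Φ ω j) (mixP (Old Φ j) ω τ)
      (mixP (Old Φ j) ω τ) h1 (fun _ _ => rfl)]
  unfold mu
  rw [hset]
  by_cases hc : 2⁻¹ ≤ coin A
  · have hb : maj Φ j (hl Φ ω j) ω = true := by
      simp only [maj, decide_eq_true_eq]
      exact hc
    rw [hb]
    have h2 : ((2⁻¹ : ℝ≥0∞)).toReal ≤ (coin A).toReal :=
      (ENNReal.toReal_le_toReal (by simp) (measure_ne_top _ _)).2 hc
    simpa using h2
  · have hb : maj Φ j (hl Φ ω j) ω = false := by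
      simp only [maj, decide_eq_false_iff_not]
      exact hc
    rw [hb]
    have hcompl : {τ | ans Φ j (hl Φ ω j) (mixP (Old Φ j) ω τ) = false} = Aᶜ := by
      ext τ
      simp only [hAd, mem_ofPred_eq, mem_compl_iff, Bool.not_eq_true]
    rw [hcompl]
    have h2 : (coin A).toReal ≤ 1 / 2 := by
      have h3 : (coin A).toReal ≤ ((2⁻¹ : ℝ≥0∞)).toReal :=
        (ENNReal.toReal_le_toReal (measure_ne_top _ _) (by simp)).2 (not_le.1 hc).le
      simpa using h3
    have h3 : (coin Aᶜ).toReal = 1 - (coin A).toReal := by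
      have := probReal_compl_eq_one_sub (μ := coin) hmeas
      simpa [Measure.real] using this
    rw [h3]
    linarith

end Pool.Agent.RelO
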