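import Pool.Agent.RelO.Targets
import Pool.Agent.RelM.PROB

/-!
# Job RO-TILT: the tilted measure
-/

set_option autoImplicit false

namespace Pool.Agent.RelO

open MeasureTheory Set
open scoped ENNReal
open Pool.Agent.RelM (Lang Instr Cfg step run Halts Decides E1 E2 NP pair triple binVal outVal
  Approx IsDensity str pre IsNullCover Null1 Null2 wq sq0 sq1 Asks hq Idx Om fair coin Rl mixP)

namespace TILT_

lemma dep_mono {α : Type} {s t : Set Idx} {F : Om → α} (h : s ⊆ t) (hF : Dep s F) : Dep t F :=
  fun ω ω' hw => hF ω ω' fun a ha => hw a (h ha)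

lemma meas_of_dep {α : Type} [MeasurableSpace α] {s : Set Idx} {F : Om → α} (hs : s.Finite)
    (hF : Dep s F) : Measurable F := by
  intro t _
  refine Pool.Agent.RelM.fd s hs _ fun ω ω' hw => ?_
  simp only [Set.mem_preimage]
  rw [hF ω ω' hw]

lemma mix_agree {p : Set Idx} (ω τ : Om) : ∀ a ∈ p, mixP p ω τ a = ω a := by
  intro a ha
  exact Pool.Agent.RelM.PROB_.mixP_pos ha

lemma mix_congr {p : Set Idx} {ω ω' : Om} (h : ∀ a ∈ p, ω a = ω' a) (τ : Om) :
    mixP p ω τ = mixP p ω' τ := by
  funext a
  by_cases ha : a ∈ p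
  · rw [Pool.Agent.RelM.PROB_.mixP_pos ha, Pool.Agent.RelM.PROB_.mixP_pos ha, h a ha]
  · rw [Pool.Agent.RelM.PROB_.mixP_neg ha, Pool.Agent.RelM.PROB_.mixP_neg ha]

lemma lint_mix (p : Set Idx) (F : Om → ℝ≥0∞) (hF : Measurable F) :
    ∫⁻ ω, F ω ∂coin = ∫⁻ ω, ∫⁻ τ, F (mixP p ω τ) ∂coin ∂coin := by
  have h1 := (Pool.Agent.RelM.mixp p).lintegral_comp hF
  rw [← h1]
  exact lintegral_prod (fun z : Om × Om => F (mixP p z.1 z.2))
    (hF.comp (Pool.Agent.RelM.mixp p).measurable).aemeasurable

section
variable {old : ℕ → Set Idx} {good : ℕ → Set Om} {lam : ℕ → ℝ}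

lemma good_meas (hS : Sys old good lam) (j : ℕ) : MeasurableSet (good j) := by
  refine Pool.Agent.RelM.fd (old (j + 1)) (hS.fin _) _ fun ω ω' hw => ?_
  have := hS.dep j ω ω' hw
  exact iff_of_eq this

lemma mu_dep (j : ℕ) : Dep (old j) (mu old good j) := by
  intro ω ω' hw
  unfold mu
  congr 2
  ext τ
  simp only [Set.mem_ofPred_eq]
  rw [mix_congr hw τ]

lemma mu_nonneg (j : ℕ) (ω : Om) : 0 ≤ mu old good j ω := ENNReal.toReal_nonneg

lemma mu_le_one (j : ℕ) (ω : Om) : mu old good j ω ≤ 1 := by
  unfold mu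
  have : coin {τ | mixP (old j) ω τ ∈ good j} ≤ 1 := prob_le_one
  calc (coin {τ | mixP (old j) ω τ ∈ good j}).toReal ≤ (1 : ℝ≥0∞).toReal :=
        ENNReal.toReal_mono ENNReal.one_ne_top this
    _ = 1 := by simp

lemma gg_dep (hS : Sys old good lam) (j : ℕ) : Dep (old (j + 1)) (gg old good lam j) := by
  intro ω ω' hw
  unfold gg
  rw [mu_dep j ω ω' fun a ha => hw a (hS.mono j ha)]
  have h : (ω ∈ good j) = (ω' ∈ good j) := hS.dep j ω ω' hw
  by_cases hg : ω ∈ good j
  · rw [if_pos hg, if_pos (h ▸ hg)]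
  · rw [if_neg hg, if_neg (h ▸ hg)]

lemma gg_upper (hS : Sys old good lam) (j : ℕ) (ω : Om) :
    gg old good lam j ω ≤ 1 + lam j * (1 - mu old good j ω) := by
  unfold gg
  have h0 := hS.lam0 j
  split_ifs
  · exact le_refl _
  · nlinarith

lemma gg_lower (hS : Sys old good lam) (j : ℕ) (ω : Om) :
    1 - lam j * mu old good j ω ≤ gg old good lam j ω := by
  unfold gg
  have h0 := hS.lam0 j
  split_ifs
  · nlinarith
  · nlinarith

lemma gg_upper' (hS : Sys old good lam) (j : ℕ) (ω : Om) :
    gg old good lam j ω ≤ 1 + lam j := by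
  have h0 := hS.lam0 j
  have h1 := gg_upper hS j ω
  have h2 := mu_nonneg (old := old) (good := good) j ω
  nlinarith

lemma gg_lower' (hS : Sys old good lam) (j : ℕ) (ω : Om) :
    1 - lam j ≤ gg old good lam j ω := by
  have h0 := hS.lam0 j
  have h1 := gg_lower hS j ω
  have h2 := mu_le_one (old := old) (good := good) j ω
  nlinarith

lemma DD_dep (hS : Sys old good lam) (j : ℕ) : Dep (old j) (DD old good lam j) := by
  induction j with
  | zero => intro ω ω' _; rfl
  | succ j ih =>
    intro ω ω' hw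
    have h1 := ih ω ω' fun a ha => hw a (hS.mono j ha)
    have h2 := gg_dep hS j ω ω' hw
    simp only [DD]
    rw [h1, h2]

lemma gg_meas (hS : Sys old good lam) (j : ℕ) : Measurable (gg old good lam j) :=
  meas_of_dep (hS.fin _) (gg_dep hS j)

lemma DD_meas (hS : Sys old good lam) (j : ℕ) : Measurable (DD old good lam j) :=
  meas_of_dep (hS.fin _) (DD_dep hS j)

lemma mu_meas (hS : Sys old good lam) (j : ℕ) : Measurable (mu old good j) :=
  meas_of_dep (hS.fin _) (mu_dep j)

end

/-- Independence of the coins in `K` and the others. -/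
lemma indep (K : Finset Idx) (f : Om) (s : Set Idx) (G : Om → ℝ≥0∞) (hG : Measurable G)
    (hs : ∀ a ∈ K, a ∉ s) (hD : Dep s G) :
    ∫⁻ ω in {ω | ∀ a ∈ K, ω a = f a}, G ω ∂coin = (2⁻¹ : ℝ≥0∞) ^ K.card * ∫⁻ ω, G ω ∂coin := by
  classical
  have hE : MeasurableSet {ω : Om | ∀ a ∈ K, ω a = f a} := by
    refine Pool.Agent.RelM.fd (K : Set Idx) K.finite_toSet _ fun ω ω' hw => ?_
    simp only [Set.mem_ofPred_eq]
    refine forall_congr' fun a => ?_
    constructor
    · intro h ha
      rw [← hw a ha]; exact h ha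
    · intro h ha
      rw [hw a ha]; exact h ha
  rw [← lintegral_indicator hE]
  rw [lint_mix (K : Set Idx) _ (hG.indicator hE)]
  have h1 : ∀ ω τ : Om, ({ω : Om | ∀ a ∈ K, ω a = f a}.indicator G) (mixP (K : Set Idx) ω τ) =
      ({ω : Om | ∀ a ∈ K, ω a = f a}.indicator (fun _ => (1 : ℝ≥0∞))) ω * G τ := by
    intro ω τ
    have h2 : G (mixP (K : Set Idx) ω τ) = G τ := by
      refine hD _ _ fun a ha => ?_
      refine Pool.Agent.RelM.PROB_.mixP_neg fun h => ?_
      exact hs a h ha
    by_cases hω : ∀ a ∈ K, ω a = f a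
    · rw [Set.indicator_of_mem, Set.indicator_of_mem, h2, one_mul]
      · exact hω
      · simp only [Set.mem_ofPred_eq]
        intro a ha
        rw [mix_agree ω τ a ha]
        exact hω a ha
    · rw [Set.indicator_of_notMem, Set.indicator_of_notMem, zero_mul]
      · exact hω
      · simp only [Set.mem_ofPred_eq]
        intro h
        apply hω
        intro a ha
        rw [← mix_agree (p := (K : Set Idx)) ω τ a ha]
        exact h a ha
  simp only [h1]
  have h3 : ∀ ω : Om, ∫⁻ τ, ({ω : Om | ∀ a ∈ K, ω a = f a}.indicator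
      (fun _ => (1 : ℝ≥0∞))) ω * G τ ∂coin =
      ({ω : Om | ∀ a ∈ K, ω a = f a}.indicator (fun _ => (1 : ℝ≥0∞))) ω * ∫⁻ τ, G τ ∂coin := by
    intro ω
    rw [lintegral_const_mul _ hG]
  simp only [h3]
  rw [lintegral_mul_const _ (measurable_const.indicator hE)]
  congr 1
  rw [lintegral_indicator hE, lintegral_const, one_mul, Measure.restrict_apply_univ]
  have h4 : {ω : Om | ∀ a ∈ K, ω a = f a} = Set.pi (K : Set Idx) fun a => {f a} := by
    ext ω
    simp [Set.mem_pi]
  rw [h4]
  unfold coin
  rw [Measure.infinitePi_pi _ fun i _ => measurableSet_singleton _]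
  simp only [Pool.Agent.RelM.PROB_.fair_singleton]
  rw [Finset.prod_const]

end TILT_

open TILT_

theorem sv : T_SV := by
  classical
  intro old good lam P hS hW j a b H ha1 ha2 hH hD
  have hE : MeasurableSet {ω : Om | ω a = b} :=
    measurableSet_eq_fun (measurable_pi_apply a) measurable_const
  have hl0 := hS.lam0 j
  have hl1 := hS.lam1 j
  set G : Om → ℝ≥0∞ := fun ω => H ω * DD old good lam j ω with hGdef
  have hG : Measurable G := hH.mul (DD_meas hS j)
  set g : Om → ℝ := gg old good lam j with hgdef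
  have hg : Measurable g := gg_meas hS j
  have hGD : Dep (old (j + 1) \ {a}) G := by
    intro ω ω' hw
    have h1 := hD ω ω' hw
    have h2 : DD old good lam j ω = DD old good lam j ω' := by
      refine DD_dep hS j ω ω' fun c hc => hw c ⟨hS.mono j hc, ?_⟩
      intro hca
      rw [Set.mem_singleton_iff] at hca
      exact ha2 (hca ▸ hc)
    simp only [hGdef, h1, h2]
  have hHD : Dep (old (j + 1)) H := dep_mono Set.sdiff_subset hD
  -- the integrals with respect to coin
  have hI1 : ∫⁻ ω in {ω | ω a = b}, H ω ∂P =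
      ∫⁻ ω, ({ω : Om | ω a = b}.indicator fun ω => G ω * ENNReal.ofReal (g ω)) ω ∂coin := by
    rw [← lintegral_indicator hE]
    rw [hW.den (j + 1) _ (hH.indicator hE) ?_]
    · refine lintegral_congr fun ω => ?_
      by_cases h : ω ∈ {ω : Om | ω a = b}
      · rw [Set.indicator_of_mem h, Set.indicator_of_mem h]
        simp only [DD, hGdef, hgdef]
        ring
      · rw [Set.indicator_of_notMem h, Set.indicator_of_notMem h, zero_mul]
    · intro ω ω' hw
      have h1 := hHD ω ω' hw
      have h2 : (ω ∈ {ω : Om | ω a = b}) ↔ (ω' ∈ {ω : Om | ω a = b}) := by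
        simp only [Set.mem_ofPred_eq]
        rw [hw a ha1]
      by_cases h : ω ∈ {ω : Om | ω a = b}
      · rw [Set.indicator_of_mem h, Set.indicator_of_mem (h2.1 h), h1]
      · rw [Set.indicator_of_notMem h, Set.indicator_of_notMem (fun h' => h (h2.2 h'))]
  have hI2 : ∫⁻ ω, H ω ∂P = ∫⁻ ω, G ω * ENNReal.ofReal (g ω) ∂coin := by
    rw [hW.den (j + 1) _ hH hHD]
    refine lintegral_congr fun ω => ?_
    simp only [DD, hGdef, hgdef]
    ring
  rw [hI1, hI2]
  -- split the second integral
  have hmeas : Measurable fun ω => G ω * ENNReal.ofReal (g ω) := hG.mul hg.ennreal_ofReal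
  have hflip := Pool.Agent.RelM.flip_mp a
  have hI3 : ∫⁻ ω, G ω * ENNReal.ofReal (g ω) ∂coin =
      ∫⁻ ω, ({ω : Om | ω a = b}.indicator fun ω => G ω * (ENNReal.ofReal (g ω) +
        ENNReal.ofReal (g (Function.update ω a (!ω a))))) ω ∂coin := by
    have h1 : ∫⁻ ω, G ω * ENNReal.ofReal (g ω) ∂coin =
        ∫⁻ ω, ({ω : Om | ω a = b}.indicator fun ω => G ω * ENNReal.ofReal (g ω)) ω ∂coin +
        ∫⁻ ω, ({ω : Om | ω a = b}ᶜ.indicator fun ω => G ω * ENNReal.ofReal (g ω)) ω ∂coin := by
      rw [lintegral_indicator hE, lintegral_indicator hE.compl, lintegral_add_compl _ hE]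
    rw [h1]
    have h2 : ∫⁻ ω, ({ω : Om | ω a = b}ᶜ.indicator fun ω => G ω * ENNReal.ofReal (g ω)) ω ∂coin =
        ∫⁻ ω, ({ω : Om | ω a = b}.indicator fun ω => G ω *
          ENNReal.ofReal (g (Function.update ω a (!ω a)))) ω ∂coin := by
      rw [← hflip.lintegral_comp (hmeas.indicator hE.compl)]
      refine lintegral_congr fun ω => ?_
      have h3 : G (Function.update ω a (!ω a)) = G ω := by
        refine hGD _ _ fun c hc => ?_
        have : c ≠ a := fun h => hc.2 (by simp [h])
        rw [Function.update_of_ne this]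
      by_cases h : ω a = b
      · rw [Set.indicator_of_mem, Set.indicator_of_mem, h3]
        · exact h
        · simp [h]
      · rw [Set.indicator_of_notMem, Set.indicator_of_notMem]
        · exact h
        · simp only [Set.mem_compl_iff, Set.mem_ofPred_eq, Function.update_self, not_not]
          cases hb : ω a <;> cases hb' : b <;> simp_all
    rw [h2, ← lintegral_add_left (hmeas.indicator hE)]
    refine lintegral_congr fun ω => ?_
    by_cases h : ω ∈ {ω : Om | ω a = b}
    · simp only [Set.indicator_of_mem h]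
      rw [mul_add]
    · simp only [Set.indicator_of_notMem h, add_zero]
  rw [hI3]
  rw [← lintegral_const_mul']
  swap
  · exact ENNReal.ofReal_ne_top
  refine lintegral_mono fun ω => ?_
  by_cases h : ω ∈ {ω : Om | ω a = b}
  · simp only [Set.indicator_of_mem h]
    have hgl : ∀ ω, 0 ≤ g ω := fun ω => by
      have := gg_lower' hS j ω
      simp only [hgdef]
      linarith
    have hkey : g ω ≤ (1 + lam j) / 2 * (g ω + g (Function.update ω a (!ω a))) := by
      have h1 := gg_upper hS j ω
      have h2 := gg_lower hS j (Function.update ω a (!ω a))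
      have hmu : mu old good j (Function.update ω a (!ω a)) = mu old good j ω := by
        refine mu_dep j _ _ fun c hc => ?_
        have : c ≠ a := fun h => ha2 (h ▸ hc)
        rw [Function.update_of_ne this]
      rw [hmu] at h2
      have hm0 := mu_nonneg (old := old) (good := good) j ω
      have hm1 := mu_le_one (old := old) (good := good) j ω
      simp only [hgdef]
      set x := gg old good lam j ω
      set y := gg old good lam j (Function.update ω a (!ω a))
      set m := mu old good j ω
      set l := lam j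
      have h3 : (1 - l) * x ≤ (1 - l) * (1 + l * (1 - m)) :=
        mul_le_mul_of_nonneg_left h1 (by linarith)
      have h4 : (1 + l) * (1 - l * m) ≤ (1 + l) * y :=
        mul_le_mul_of_nonneg_left h2 (by linarith)
      have h5 : (1 - l) * (1 + l * (1 - m)) ≤ (1 + l) * (1 - l * m) := by
        have : 0 ≤ l * (1 + l - 2 * l * m) := by
          apply mul_nonneg hl0
          nlinarith
        nlinarith
      linarith
    calc G ω * ENNReal.ofReal (g ω)
        ≤ G ω * (ENNReal.ofReal ((1 + lam j) / 2) *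
            (ENNReal.ofReal (g ω) + ENNReal.ofReal (g (Function.update ω a (!ω a))))) := by
          rw [← ENNReal.ofReal_add (hgl _) (hgl _), ← ENNReal.ofReal_mul (by linarith)]
          gcongr
      _ = _ := by ring
  · simp only [Set.indicator_of_notMem h]
    exact zero_le

theorem keyp : T_KEYP := by
  classical
  intro old good lam P hS hW j K f H hK hH hD
  have hl0 := hS.lam0 j
  have hl1 := hS.lam1 j
  have hE : MeasurableSet {ω : Om | ∀ a ∈ K, ω a = f a} := by
    refine Pool.Agent.RelM.fd (K : Set Idx) K.finite_toSet _ fun ω ω' hw => ?_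
    simp only [Set.mem_ofPred_eq]
    refine forall_congr' fun a => ?_
    constructor
    · intro h ha
      rw [← hw a ha]; exact h ha
    · intro h ha
      rw [hw a ha]; exact h ha
  set G : Om → ℝ≥0∞ := fun ω => H ω * DD old good lam j ω with hGdef
  have hG : Measurable G := hH.mul (DD_meas hS j)
  have hGD : Dep (old (j + 1) \ (K : Set Idx)) G := by
    intro ω ω' hw
    have h1 := hD ω ω' hw
    have h2 : DD old good lam j ω = DD old good lam j ω' := by
      refine DD_dep hS j ω ω' fun c hc => hw c ⟨hS.mono j hc, ?_⟩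
      intro hca
      exact (hK c hca).2 hc
    simp only [hGdef, h1, h2]
  have hHD : Dep (old (j + 1)) H := dep_mono Set.sdiff_subset hD
  have hI1 : ∫⁻ ω in {ω | ∀ a ∈ K, ω a = f a}, H ω ∂P ≤
      ENNReal.ofReal (1 + lam j) * ∫⁻ ω in {ω | ∀ a ∈ K, ω a = f a}, G ω ∂coin := by
    rw [← lintegral_indicator hE, ← lintegral_indicator hE]
    rw [hW.den (j + 1) _ (hH.indicator hE) ?_]
    · rw [← lintegral_const_mul' _ _ ENNReal.ofReal_ne_top]
      refine lintegral_mono fun ω => ?_
      by_cases h : ω ∈ {ω : Om | ∀ a ∈ K, ω a = f a}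
      · rw [Set.indicator_of_mem h, Set.indicator_of_mem h]
        simp only [DD, hGdef]
        have := gg_upper' hS j ω
        calc H ω * (DD old good lam j ω * ENNReal.ofReal (gg old good lam j ω))
            ≤ H ω * (DD old good lam j ω * ENNReal.ofReal (1 + lam j)) := by gcongr
          _ = _ := by ring
      · rw [Set.indicator_of_notMem h, Set.indicator_of_notMem h, zero_mul]
        exact zero_le
    · intro ω ω' hw
      have h1 := hHD ω ω' hw
      have h2 : (ω ∈ {ω : Om | ∀ a ∈ K, ω a = f a}) ↔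
          (ω' ∈ {ω : Om | ∀ a ∈ K, ω a = f a}) := by
        simp only [Set.mem_ofPred_eq]
        refine forall_congr' fun a => forall_congr' fun ha => ?_
        rw [hw a (hK a ha).1]
      by_cases h : ω ∈ {ω : Om | ∀ a ∈ K, ω a = f a}
      · rw [Set.indicator_of_mem h, Set.indicator_of_mem (h2.1 h), h1]
      · rw [Set.indicator_of_notMem h, Set.indicator_of_notMem (fun h' => h (h2.2 h'))]
  have hI2 : ENNReal.ofReal (1 - lam j) * ∫⁻ ω, G ω ∂coin ≤ ∫⁻ ω, H ω ∂P := by
    rw [hW.den (j + 1) _ hH hHD, ← lintegral_const_mul' _ _ ENNReal.ofReal_ne_top]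
    refine lintegral_mono fun ω => ?_
    simp only [DD, hGdef]
    have := gg_lower' hS j ω
    calc ENNReal.ofReal (1 - lam j) * (H ω * DD old good lam j ω)
        = H ω * (DD old good lam j ω * ENNReal.ofReal (1 - lam j)) := by ring
      _ ≤ H ω * (DD old good lam j ω * ENNReal.ofReal (gg old good lam j ω)) := by gcongr
  rw [indep K f (old (j + 1) \ (K : Set Idx)) G hG (fun a ha h => h.2 ha) hGD] at hI1
  refine hI1.trans ?_
  have h3 : ENNReal.ofReal (1 + lam j) ≤ 3 * ENNReal.ofReal (1 - lam j) := by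
    have : (3 : ℝ≥0∞) = ENNReal.ofReal 3 := by simp
    rw [this, ← ENNReal.ofReal_mul (by norm_num)]
    apply ENNReal.ofReal_le_ofReal
    linarith
  calc ENNReal.ofReal (1 + lam j) * ((2⁻¹ : ℝ≥0∞) ^ K.card * ∫⁻ ω, G ω ∂coin)
      ≤ (3 * ENNReal.ofReal (1 - lam j)) * ((2⁻¹ : ℝ≥0∞) ^ K.card * ∫⁻ ω, G ω ∂coin) := by
        gcongr
    _ = 3 * (2⁻¹ : ℝ≥0∞) ^ K.card * (ENNReal.ofReal (1 - lam j) * ∫⁻ ω, G ω ∂coin) := by ring
    _ ≤ 3 * (2⁻¹ : ℝ≥0∞) ^ K.card * ∫⁻ ω, H ω ∂P := by gcongr

theorem hintp : T_HINTP := by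
  classical
  intro old good lam P hS hW hmu j H hH hD
  have hl0 := hS.lam0 j
  have hl1 := hS.lam1 j
  have hE := good_meas hS j
  have hm := mu_meas hS j
  set G : Om → ℝ≥0∞ := fun ω => H ω * DD old good lam j ω with hGdef
  have hG : Measurable G := hH.mul (DD_meas hS j)
  have hGD : Dep (old j) G := by
    intro ω ω' hw
    have h1 := hD ω ω' hw
    have h2 : DD old good lam j ω = DD old good lam j ω' := DD_dep hS j ω ω' hw
    simp only [hGdef, h1, h2]
  have hI1 : ∫⁻ ω, H ω ∂P = ∫⁻ ω, G ω ∂coin := hW.den j H hH hD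
  have hI2 : ∫⁻ ω in good j, H ω ∂P =
      ∫⁻ ω, (good j).indicator (fun ω => G ω *
        ENNReal.ofReal (1 + lam j * (1 - mu old good j ω))) ω ∂coin := by
    rw [← lintegral_indicator hE]
    rw [hW.den (j + 1) _ (hH.indicator hE) ?_]
    · refine lintegral_congr fun ω => ?_
      by_cases h : ω ∈ good j
      · rw [Set.indicator_of_mem h, Set.indicator_of_mem h]
        simp only [DD, hGdef, gg, if_pos h]
        ring
      · rw [Set.indicator_of_notMem h, Set.indicator_of_notMem h, zero_mul]
    · intro ω ω' hw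
      have h1 := hD ω ω' fun a ha => hw a (hS.mono j ha)
      have h2 : (ω ∈ good j) = (ω' ∈ good j) := hS.dep j ω ω' hw
      by_cases h : ω ∈ good j
      · rw [Set.indicator_of_mem h, Set.indicator_of_mem (h2 ▸ h), h1]
      · rw [Set.indicator_of_notMem h, Set.indicator_of_notMem (h2 ▸ h)]
  have hmeas : Measurable fun ω => G ω * ENNReal.ofReal (1 + lam j * (1 - mu old good j ω)) := by
    refine hG.mul ?_
    refine ENNReal.measurable_ofReal.comp ?_
    fun_prop
  rw [hI1, hI2, lint_mix (old j) _ (hmeas.indicator hE)]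
  rw [← lintegral_const_mul' _ _ ENNReal.ofReal_ne_top]
  refine lintegral_mono fun ω => ?_
  have h1 : ∀ τ : Om, (good j).indicator (fun ω => G ω *
      ENNReal.ofReal (1 + lam j * (1 - mu old good j ω))) (mixP (old j) ω τ) =
      {τ : Om | mixP (old j) ω τ ∈ good j}.indicator (fun _ => G ω *
        ENNReal.ofReal (1 + lam j * (1 - mu old good j ω))) τ := by
    intro τ
    have h2 : G (mixP (old j) ω τ) = G ω := hGD _ _ (mix_agree ω τ)
    have h3 : mu old good j (mixP (old j) ω τ) = mu old good j ω := mu_dep j _ _ (mix_agree ω τ)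
    by_cases h : mixP (old j) ω τ ∈ good j
    · rw [Set.indicator_of_mem h, Set.indicator_of_mem (by exact h), h2, h3]
    · rw [Set.indicator_of_notMem h, Set.indicator_of_notMem (by exact h)]
  simp only [h1]
  have hEω : MeasurableSet {τ : Om | mixP (old j) ω τ ∈ good j} := by
    have : Measurable fun τ : Om => mixP (old j) ω τ :=
      (Pool.Agent.RelM.mixp (old j)).measurable.comp (measurable_const.prodMk measurable_id)
    exact this hE
  rw [lintegral_indicator hEω, lintegral_const, Measure.restrict_apply_univ]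
  have h4 : coin {τ : Om | mixP (old j) ω τ ∈ good j} = ENNReal.ofReal (mu old good j ω) := by
    unfold mu
    rw [ENNReal.ofReal_toReal (measure_ne_top _ _)]
  rw [h4]
  have hm0 := hmu j ω
  have hm1 := mu_le_one (old := old) (good := good) j ω
  have h5 : ENNReal.ofReal (1 / 2 + lam j / 4) ≤
      ENNReal.ofReal (1 + lam j * (1 - mu old good j ω)) * ENNReal.ofReal (mu old good j ω) := by
    rw [← ENNReal.ofReal_mul (by nlinarith)]
    apply ENNReal.ofReal_le_ofReal
    set m := mu old good j ω
    set l := lam j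
    have : 0 ≤ (m - 1 / 2) * (1 - l * (m - 1 / 2)) := by
      apply mul_nonneg (by linarith)
      nlinarith
    nlinarith
  calc ENNReal.ofReal (1 / 2 + lam j / 4) * G ω
      ≤ (ENNReal.ofReal (1 + lam j * (1 - mu old good j ω)) *
          ENNReal.ofReal (mu old good j ω)) * G ω := by gcongr
    _ = _ := by ring

end Pool.Agent.RelO
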