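import Pool.Agent.RelO.MAIN
import Pool.Agent.RelO.LEV
import Pool.Agent.RelO.QRY
import Pool.Agent.RelO.NN
import Pool.Agent.RelO.EP
import Pool.Agent.RelO.DEN
import Pool.Agent.RelO.BITS
import Pool.Agent.RelO.ANS
import Pool.Agent.RelO.SYS
import Pool.Agent.RelO.PLIM
import Pool.Agent.RelO.TILT
import Pool.Agent.RelO.CROSS
import Pool.Agent.RelO.GROW
import Pool.Agent.RelO.COVA
import Pool.Agent.RelO.COVB
import Pool.Agent.RelO.HIT
import Pool.Agent.RelO.NONNULL
import Pool.Agent.RelO.FAST
import Pool.Agent.RelO.NPR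
import Pool.Agent.RelO.ER
import Pool.Agent.RelO.FAM
import Pool.Agent.RelM.LOC
import Pool.Agent.RelM.READ
import Pool.Agent.RelM.PROB

/-!
# An oracle relative to which `NP` has measure zero in `E` but dimension one in `E`
-/

set_option autoImplicit false

namespace Pool.Agent.Results.MP_a0edbc_lc.DimensionOne

open Pool.Agent.RelM (Lang NP E1 E2 Null1 Null2)
open Pool.Agent.RelO

/-- Let `F i` be countably many oracle languages such that membership of `x` in `F i O` depends
only on the words of length at most `(|x| + 2) ^ k i` of `O`. There is an oracle `O` relative to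
which the union of `NP` and of all `F i O` has a null cover that is computable in polynomial time
(and so also one that is computable in time `2 ^ ((log l) ^ O(1))`), whereas for every `ρ > 1/2`
there is no such null cover of `NP ∩ E` or of `NP ∩ E_2` at the odds `ρ`, and for every `s < 1`
there is no such null cover of `NP ∩ E` or of `NP ∩ E_2` by `s`-supergales. -/
theorem result (F : ℕ → Lang → Lang) (k : ℕ → ℕ)
    (hF : ∀ (i : ℕ) (O O' : Lang) (x : List Bool),
      (∀ q : List Bool, q.length ≤ (x.length + 2) ^ k i → O q = O' q) → F i O x = F i O' x) :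
    ∃ O : Lang,
      Null1 O (NP O ∪ Set.range fun i => F i O) ∧
      Null2 O (NP O ∪ Set.range fun i => F i O) ∧
      (∀ ρ : ℝ, 1 / 2 < ρ → ρ ≤ 1 →
        ¬ OddsNull1 ρ O (NP O ∩ E1 O) ∧ ¬ OddsNull2 ρ O (NP O ∩ E2 O)) ∧
      (∀ s : ℝ, s < 1 → ¬ GaleNull1 s O (NP O ∩ E1 O) ∧ ¬ GaleNull2 s O (NP O ∩ E2 O)) := by
  have hAns : T_ANSLOC := ansloc oloc (bloc dlocal) nnmono nnq nnnext
  have hHl : T_HLDEP := hldep nnmono
  have hSys : T_SYS := sys hAns hHl eppos nnmono shortfin
  have hMaj : T_MAJ := majok hAns hHl shortfin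
  have hA : T_COVA := cova grow hintp hMaj hSys eppos epdiv
  have hB : T_COVB := covb hAns hlval xxstr nnmono nnge
  have hHit : T_HIT := hit hSys keyp ocut ovis (bloc dlocal) hlval hHl jjspec nnmono levmono
  have hN : T_NONNULL := nonnull hHit cross sv hSys Pool.Agent.RelM.fd ovis hHl jjspec nnmono
    levmono levfin eplim Pool.Agent.RelM.strlen Pool.Agent.RelM.strinj
  exact main_of fam plim hSys hA hB (ddens nnmono nnge eppos) dlam (dlow eppos) nnge ott
    (Pool.Agent.RelM.read Pool.Agent.RelM.stay) bits (numok (ddens nnmono nnge eppos) dlam)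
    time t12 hN fast1 fast2 (npr Pool.Agent.RelM.stay owq levpow) (e1r osq0 osq1) (e2r osq0 osq1)
    F k hF

end Pool.Agent.Results.MP_a0edbc_lc.DimensionOne
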