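import Pool.Agent.RelO.Core

/-!
# The targets of the jobs
-/

set_option autoImplicit false

namespace Pool.Agent.RelO

open MeasureTheory Set
open scoped ENNReal
open Pool.Agent.RelM (Lang Instr Cfg step run Halts Decides E1 E2 NP pair triple binVal outVal
  Approx IsDensity str pre IsNullCover Null1 Null2 wq sq0 sq1 Asks hq Idx Om fair coin Rl mixP)

/-! ## Levels (job LEV) -/

def T_LEVFIN : Prop := ∀ (κ : ℕ) (x : List Bool) (m : ℕ), lev κ x ≤ m → κ ≤ m ∧ x.length ≤ m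

def T_LEVMONO : Prop := ∀ (κ : ℕ) (x y : List Bool), x.length ≤ y.length → lev κ x ≤ lev κ y

def T_LEVPOW : Prop := ∀ (κ : ℕ) (x : List Bool), lev κ x ≤ (x.length + 2) ^ (κ + 2)

def T_SHORTFIN : Prop := ∀ m, (Short m).Finite

/-! ## Values of the oracle (job QRY) -/

def T_OWQ : Prop := ∀ (S : ℕ → List Bool → Prop) (G : Lang) (ω : Om) (κ : ℕ) (x y : List Bool),
  orcV S G ω (wq κ x y) = true ↔ S κ x ∧ y = wit ω κ x ∧ Rl ω κ x = true

def T_OSQ0 : Prop := ∀ (S : ℕ → List Bool → Prop) (G : Lang) (ω : Om) (κ : ℕ) (x : List Bool)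
  (m : ℕ), orcV S G ω (sq0 κ x m) = true ↔ 2 ^ lev κ x ≤ m

def T_OSQ1 : Prop := ∀ (S : ℕ → List Bool → Prop) (G : Lang) (ω : Om) (κ : ℕ) (x : List Bool)
  (m : ℕ), orcV S G ω (sq1 κ x m) = true ↔ S κ x ∧ 2 ^ lev κ x ≤ m ∧ Rl ω κ x = true

def T_OTT : Prop := ∀ (S : ℕ → List Bool → Prop) (G : Lang) (ω : Om) (u : List Bool),
  orcV S G ω (true :: true :: u) = G u

/-- The answer to a word of length at most `m` depends only on the coins in `Short m` and on the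
words of length at most `m - 2` of `G`. -/
def T_OLOC : Prop := ∀ (S : ℕ → List Bool → Prop) (G G' : Lang) (ω ω' : Om) (m : ℕ),
  (∀ a ∈ Short m, ω a = ω' a) → (∀ u : List Bool, u.length + 2 ≤ m → G u = G' u) →
  ∀ q : List Bool, q.length ≤ m → orcV S G ω q = orcV S G' ω' q

/-- The answers depend only on the coins of the pairs in `S`. -/
def T_OVIS : Prop := ∀ (S : ℕ → List Bool → Prop) (G : Lang) (ω ω' : Om),
  (∀ κ x i, S κ x → i ≤ lev κ x → ω (κ, x, i) = ω' (κ, x, i)) →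
  ∀ q : List Bool, orcV S G ω q = orcV S G ω' q

/-- Where the oracle with hidden pairs and another part `11` differs from the oracle. -/
def T_OCUT : Prop := ∀ (S : ℕ → List Bool → Prop) (G G' : Lang) (ω : Om) (q : List Bool),
  orc G ω q ≠ orcV S G' ω q →
    (∃ κ x, ¬ S κ x ∧ q = wq κ x (wit ω κ x)) ∨
    (∃ κ x m, ¬ S κ x ∧ q = sq1 κ x m ∧ 2 ^ lev κ x ≤ m) ∨
    (∃ u, q = true :: true :: u ∧ G u ≠ G' u)

/-! ## Stages (job NN) -/

def T_NNMONO : Prop := ∀ Φ : Fam, StrictMono (nn Φ)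

def T_NNGE : Prop := ∀ (Φ : Fam) (j : ℕ), j + 2 ≤ nn Φ j

def T_NNQ : Prop := ∀ (Φ : Fam) (j : ℕ), qb Φ j (nn Φ j) + 2 < 2 ^ nn Φ j

def T_NNNEXT : Prop := ∀ (Φ : Fam) (j : ℕ), qb Φ j (nn Φ j) < nn Φ (j + 1)

def T_XX : Prop := ∀ (Φ : Fam) (j : ℕ), str (2 ^ nn Φ j - 1) = xx Φ j

def T_JJ : Prop := ∀ (Φ : Fam) (m : ℕ), m < nn Φ (jj Φ m) ∧ ∀ j, j < jj Φ m → nn Φ j ≤ m

/-! ## The advantages (job EP) -/

def T_EP : Prop := ∀ j, 0 < ep j ∧ ep j ≤ 1 / 16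

def T_EPLIM : Prop := Filter.Tendsto ep Filter.atTop (nhds 0)

def T_DIV : Prop := ∀ e : ℕ, ¬ Summable (fun j : ℕ => if st j = e then ep j ^ 2 else 0)

/-! ## The density functions (job DEN) -/

def T_DDENS : Prop := ∀ (Φ : Fam) (η : ℕ → Bool) (k : ℕ), IsDensity (dd Φ η k)

def T_DLAM : Prop := ∀ (Φ : Fam) (η : ℕ → Bool) (k : ℕ), dd Φ η k [] ≤ (1 / 2 : ℝ) ^ k

def T_DLOW : Prop := ∀ (Φ : Fam) (η : ℕ → Bool) (k e : ℕ) (w : List Bool), e < w.length →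
  (1 / 2 : ℝ) ^ (k + e + 1) * Mst Φ η e w ≤ dd Φ η k w

/-- The value on `w` depends only on the hints for words that are decided by `w`. -/
def T_DLOCAL : Prop := ∀ (Φ : Fam) (η η' : ℕ → Bool) (k : ℕ) (w : List Bool),
  (∀ j, 2 ^ nn Φ j ≤ w.length → η j = η' j) → dd Φ η k w = dd Φ η' k w

/-! ## The bits of the density functions (job BITS) -/

def T_BLOC : Prop := ∀ (Φ : Fam) (η η' : ℕ → Bool) (u : List Bool),
  (∀ j, 2 ^ nn Φ j ≤ u.length → η j = η' j) → bitsOf Φ η u = bitsOf Φ η' u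

def T_BITS : Prop := ∀ (Φ : Fam) (η : ℕ → Bool) (j k r : ℕ) (w : List Bool),
  (bitsOf Φ η (hq false false j k r w) = true ↔ j < Nat.size (num Φ η k r w)) ∧
  (bitsOf Φ η (hq false true j k r w) = true ↔ Nat.testBit (num Φ η k r w) j = true) ∧
  (bitsOf Φ η (hq true false j k r w) = true ↔ j < r + 1)

def T_NUM : Prop := ∀ (Φ : Fam) (η : ℕ → Bool) (k r : ℕ) (w : List Bool),
  Nat.size (num Φ η k r w) ≤ 2 * (triple k r w).length + 4 ∧
  |(num Φ η k r w : ℝ) / 2 ^ (r + 1) - dd Φ η k w| ≤ (1 / 2 : ℝ) ^ r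

/-! ## The hints (jobs ANS, SYS) -/

/-- The answer of stage `j` depends only on the hints before stage `j` and on the coins that are
old at stage `j + 1`. -/
def T_ANSLOC : Prop := ∀ (Φ : Fam) (j : ℕ) (η η' : ℕ → Bool) (ω ω' : Om),
  (∀ i, i < j → η i = η' i) → (∀ a ∈ Old Φ (j + 1), ω a = ω' a) → ans Φ j η ω = ans Φ j η' ω'

def T_HLVAL : Prop := ∀ (Φ : Fam) (ω : Om) (i j : ℕ), i < j → hl Φ ω j i = hints Φ ω i

/-- The hints before stage `j + 1` depend only on the coins that are old at stage `j`. -/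
def T_HLDEP : Prop := ∀ (Φ : Fam) (j : ℕ) (ω ω' : Om), (∀ a ∈ Old Φ j, ω a = ω' a) →
  hl Φ ω (j + 1) = hl Φ ω' (j + 1)

def T_SYS : Prop := ∀ Φ : Fam, Sys (Old Φ) (good Φ) lam

def T_MAJ : Prop := ∀ (Φ : Fam) (j : ℕ) (ω : Om), 1 / 2 ≤ mu (Old Φ) (good Φ) j ω

/-! ## The tilted measure (jobs PLIM, TILT) -/

def T_PLIM : Prop := ∀ (old : ℕ → Set Idx) (good : ℕ → Set Om) (lam : ℕ → ℝ),
  Sys old good lam → ∃ P : Measure Om, IsWorld old good lam P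

/-- A coin that becomes old at stage `j + 1` has any value with probability at most
`(1 + lam j) / 2`, given the other coins that are old at stage `j + 1`. -/
def T_SV : Prop := ∀ (old : ℕ → Set Idx) (good : ℕ → Set Om) (lam : ℕ → ℝ) (P : Measure Om),
  Sys old good lam → IsWorld old good lam P →
  ∀ (j : ℕ) (a : Idx) (b : Bool) (H : Om → ℝ≥0∞), a ∈ old (j + 1) → a ∉ old j →
    Measurable H → Dep (old (j + 1) \ {a}) H →
    ∫⁻ ω in {ω | ω a = b}, H ω ∂P ≤ ENNReal.ofReal ((1 + lam j) / 2) * ∫⁻ ω, H ω ∂P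

/-- Coins that become old at stage `j + 1` have given values with small probability, given the
other coins that are old at stage `j + 1`. -/
def T_KEYP : Prop := ∀ (old : ℕ → Set Idx) (good : ℕ → Set Om) (lam : ℕ → ℝ) (P : Measure Om),
  Sys old good lam → IsWorld old good lam P →
  ∀ (j : ℕ) (K : Finset Idx) (f : Om) (H : Om → ℝ≥0∞), (∀ a ∈ K, a ∈ old (j + 1) ∧ a ∉ old j) →
    Measurable H → Dep (old (j + 1) \ (K : Set Idx)) H →
    ∫⁻ ω in {ω | ∀ a ∈ K, ω a = f a}, H ω ∂P ≤ 3 * (2⁻¹ : ℝ≥0∞) ^ K.card * ∫⁻ ω, H ω ∂P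

/-- The hint of stage `j` is right with probability at least `1/2 + lam j / 4`, given the coins
that are old at stage `j`. -/
def T_HINTP : Prop := ∀ (old : ℕ → Set Idx) (good : ℕ → Set Om) (lam : ℕ → ℝ) (P : Measure Om),
  Sys old good lam → IsWorld old good lam P → (∀ j ω, 1 / 2 ≤ mu old good j ω) →
  ∀ (j : ℕ) (H : Om → ℝ≥0∞), Measurable H → Dep (old j) H →
    ENNReal.ofReal (1 / 2 + lam j / 4) * ∫⁻ ω, H ω ∂P ≤ ∫⁻ ω in good j, H ω ∂P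

/-! ## The maximal inequality (job CROSS) -/

/-- The value at time `t + 1` is `X t i` with `i` the bit number `t`. The numbers `X s i`, `s ≤ t`,
the bits number `s < t` and `Y` are functions of the class `r t` of `ω`, and given this class each
value of the bit number `t` has probability at most `ρ`. If the means of the two possible values at
time `t + 1` with the weights `ρ` and `1 - ρ` are at most the value at time `t` plus `ε t`, then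
the value `1/2` is reached with small probability. -/
def T_CROSS : Prop := ∀ (Ω : Type) (_ : MeasurableSpace Ω) (μ : Measure Ω)
  (_ : IsProbabilityMeasure μ)
  (b : ℕ → Ω → Bool) (X : ℕ → Bool → Ω → ℝ) (Y : Ω → ℝ) (r : ℕ → Ω → Ω → Prop) (ε : ℕ → ℝ)
  (a ρ : ℝ), 1 / 2 ≤ ρ → ρ ≤ 1 →
  (∀ t, Measurable (b t)) → (∀ t i, Measurable (X t i)) → Measurable Y →
  (∀ t ω ω', r t ω ω' → Y ω = Y ω') →
  (∀ s t, s < t → ∀ ω ω', r t ω ω' → b s ω = b s ω') →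
  (∀ s t, s ≤ t → ∀ i ω ω', r t ω ω' → X s i ω = X s i ω') →
  (∀ t i (H : Ω → ℝ≥0∞), Measurable H → (∀ ω ω', r t ω ω' → H ω = H ω') →
    ∫⁻ ω in {ω | b t ω = i}, H ω ∂μ ≤ ENNReal.ofReal ρ * ∫⁻ ω, H ω ∂μ) →
  (∀ t i ω, 0 ≤ X t i ω) → (∀ ω, 0 ≤ Y ω) → (∀ t, 0 ≤ ε t) → Summable ε → 0 ≤ a →
  μ {ω | Y ω ≤ a ∧
      (∀ t i, ρ * X t i ω + (1 - ρ) * X t (!i) ω ≤ proc b X Y t ω + ε t) ∧
      ∃ t, 1 / 2 ≤ proc b X Y t ω} ≤ ENNReal.ofReal (2 * (a + ∑' t, ε t))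

/-! ## Unbounded capital (job GROW) -/

open Classical in
/-- If the events `S j` have probability at least `1/2 + ε j` given the past, for the `j` in `J`,
and the sum of the squares of these `ε j` is infinite, then the capital of the gambler who bets the
fraction `ε j` on `S j` is unbounded. -/
def T_GROW : Prop := ∀ (Ω : Type) (_ : MeasurableSpace Ω) (μ : Measure Ω)
  (_ : IsProbabilityMeasure μ)
  (S : ℕ → Set Ω) (r : ℕ → Ω → Ω → Prop) (ε : ℕ → ℝ) (J : ℕ → Prop),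
  (∀ j, MeasurableSet (S j)) →
  (∀ i j, i < j → ∀ ω ω', r j ω ω' → (ω ∈ S i ↔ ω' ∈ S i)) →
  (∀ j, 0 < ε j ∧ ε j ≤ 1 / 4) →
  (∀ j (H : Ω → ℝ≥0∞), J j → Measurable H → (∀ ω ω', r j ω ω' → H ω = H ω') →
    ENNReal.ofReal (1 / 2 + ε j) * ∫⁻ ω, H ω ∂μ ≤ ∫⁻ ω in S j, H ω ∂μ) →
  ¬ Summable (fun j : ℕ => if J j then ε j ^ 2 else 0) →
  ∀ᵐ ω ∂μ, ∀ K : ℝ, ∃ n : ℕ,
    K ≤ ∏ j ∈ (Finset.range n).filter J, (if ω ∈ S j then 1 + ε j else 1 - ε j)

/-! ## Covering the family (jobs COVA, COVB) -/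

open Classical in
/-- The capital after the stages before `n`. -/
noncomputable def cap (Φ : Fam) (e n : ℕ) (ω : Om) : ℝ :=
  ∏ j ∈ (Finset.range n).filter (fun j => st j = e), (if ω ∈ good Φ j then 1 + ep j else 1 - ep j)

def T_COVA : Prop := ∀ (Φ : Fam) (P : Measure Om), IsWorld (Old Φ) (good Φ) lam P →
  ∀ e : ℕ, ∀ᵐ ω ∂P, ∀ K : ℝ, ∃ n : ℕ, K ≤ cap Φ e n ω

def T_COVB : Prop := ∀ (Φ : Fam) (e n : ℕ) (ω : Om),
  Mst Φ (hints Φ ω) e (pre (Φ.f e (oo Φ ω)) (2 ^ nn Φ n)) = cap Φ e (n + 1) ω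

/-! ## Finding a hidden key (job HIT) -/

/-- A machine that runs for `τ` steps on an input that depends only on the first `t` bits of
`Rl ω κ` finds no hidden key. -/
def T_HIT : Prop := ∀ (Φ : Fam) (P : Measure Om), IsWorld (Old Φ) (good Φ) lam P →
  ∀ (κ t : ℕ) (Pr : List Instr) (X : Om → List Bool) (τ : ℕ),
  nn Φ 0 ≤ lev κ (str t) →
  (∀ a : List Bool, MeasurableSet {ω | X ω = a}) →
  Dep {a | ∃ i < t, a = (κ, str i, 0)} X →
  (∀ ω, (X ω).length + τ < 2 ^ lev κ (str t)) →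
  P {ω | ∃ s ≤ τ, run (oo Φ ω) Pr (X ω) s ≠ run (ov Φ κ t ω) Pr (X ω) s}
    ≤ 3 * τ * (2⁻¹ : ℝ≥0∞) ^ lev κ (str t)

/-! ## The hidden languages are not covered (jobs NONNULL, FAST) -/

/-- The time bound `T` is small compared with the lengths of the keys of the family `κ`. -/
def Fast (κ : ℕ) (T : ℕ → ℕ) : Prop := ∃ t₀ : ℕ, ∀ t, t₀ ≤ t → ∀ l, l ≤ 8 * (t + 1) →
  l + T l < 2 ^ lev κ (str t) ∧ 6 * (t + 1) ^ 2 * T l ≤ 2 ^ lev κ (str t)

def T_NONNULL : Prop := ∀ (Φ : Fam) (P : Measure Om), IsWorld (Old Φ) (good Φ) lam P →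
  ∀ (κ : ℕ) (Pr : List Instr) (T : ℕ → ℕ) (ρ : ℝ), 1 / 2 < ρ → ρ ≤ 1 → Fast κ T →
  ∀ᵐ ω ∂P, ¬ ∃ d : ℕ → List Bool → ℝ, IsOddsCover ρ d {Rl ω κ} ∧ Approx (oo Φ ω) Pr T d

def T_FAST1 : Prop := ∀ c : ℕ, Fast (2 * (5 * c + 5) + 1) (fun l => (l + 2) ^ c)

def T_FAST2 : Prop := ∀ c : ℕ, Fast (2 * (c + 1)) (fun l => 2 ^ ((Nat.log 2 l + 2) ^ c))

/-! ## The hidden languages are in the classes (jobs NPR, ER) -/

def T_NPR : Prop := ∀ (G : Lang) (ω : Om) (κ : ℕ), Rl ω κ ∈ NP (orc G ω)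

def T_E1R : Prop := ∀ (G : Lang) (ω : Om) (c : ℕ), Rl ω (2 * c + 1) ∈ E1 (orc G ω)

def T_E2R : Prop := ∀ (G : Lang) (ω : Om) (c : ℕ), Rl ω (2 * c) ∈ E2 (orc G ω)

/-! ## The family and the time bounds (job FAM) -/

/-- Every countable family of polynomially local languages can be extended by all languages
in `NP`. -/
def T_FAM : Prop := ∀ (F : ℕ → Lang → Lang) (k : ℕ → ℕ),
  (∀ (i : ℕ) (O O' : Lang) (x : List Bool),
    (∀ q : List Bool, q.length ≤ (x.length + 2) ^ k i → O q = O' q) → F i O x = F i O' x) →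
  ∃ Φ : Fam, (∀ i, ∃ e, Φ.f e = F i) ∧ ∀ (O : Lang) (A : Lang), A ∈ NP O → ∃ e, Φ.f e O = A

def T_TIME : Prop := ∀ (O : Lang) (P : List Instr) (T T' : ℕ → ℕ) (d : ℕ → List Bool → ℝ),
  (∀ l, T l ≤ T' l) → Approx O P T d → Approx O P T' d

def T_T12 : Prop := ∀ c : ℕ, ∃ c' : ℕ, ∀ l : ℕ, (l + 2) ^ c ≤ 2 ^ ((Nat.log 2 l + 2) ^ c')

/-! ## The theorem (job MAIN) -/

def T_MAIN : Prop := ∀ (F : ℕ → Lang → Lang) (k : ℕ → ℕ),
  (∀ (i : ℕ) (O O' : Lang) (x : List Bool),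
    (∀ q : List Bool, q.length ≤ (x.length + 2) ^ k i → O q = O' q) → F i O x = F i O' x) →
  ∃ O : Lang, Null1 O (NP O ∪ Set.range fun i => F i O) ∧
    Null2 O (NP O ∪ Set.range fun i => F i O) ∧
    (∀ ρ : ℝ, 1 / 2 < ρ → ρ ≤ 1 →
      ¬ OddsNull1 ρ O (NP O ∩ E1 O) ∧ ¬ OddsNull2 ρ O (NP O ∩ E2 O)) ∧
    (∀ s : ℝ, s < 1 → ¬ GaleNull1 s O (NP O ∩ E1 O) ∧ ¬ GaleNull2 s O (NP O ∩ E2 O))

end Pool.Agent.RelO
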