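import Pool.Agent.RelM.NPR
import Pool.Agent.RelO.Targets

/-!
# Job RO-NPR: the languages `Rl ω κ` are in `NP`
-/

set_option autoImplicit false

namespace Pool.Agent.RelO

open MeasureTheory Set
open scoped ENNReal
open Pool.Agent.RelM (Lang Instr Cfg step run Halts Decides E1 E2 NP pair triple binVal outVal
  Approx IsDensity str pre IsNullCover Null1 Null2 wq sq0 sq1 Asks hq Idx Om fair coin Rl mixP)

theorem npr (hs : Pool.Agent.RelM.T_STAY) (ho : T_OWQ) (hl : T_LEVPOW) : T_NPR := by
  intro G ω κ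
  refine ⟨Pool.Agent.RelM.vprog κ, κ + 2, κ + 5, ?_⟩
  intro x
  have htime : κ + 5 ≤ (x.length + 2) ^ (κ + 5) :=
    le_trans (le_of_lt Nat.lt_two_pow_self) (Nat.pow_le_pow_left (by omega) _)
  have hhalt : ∀ y, Halts (orc G ω) (Pool.Agent.RelM.vprog κ) (pair x y) (κ + 5) := by
    intro y
    unfold Halts
    rw [Pool.Agent.RelM.vprog_length]
    by_cases h : orc G ω (wq κ x y) = true
    · exact (Pool.Agent.RelM.vprog_run_yes _ κ x y h).1.ge
    · exact (Pool.Agent.RelM.vprog_run_no _ κ x y h).1.ge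
  have hrun : ∀ y, run (orc G ω) (Pool.Agent.RelM.vprog κ) (pair x y)
      ((x.length + 2) ^ (κ + 5)) =
      run (orc G ω) (Pool.Agent.RelM.vprog κ) (pair x y) (κ + 5) :=
    fun y => hs _ _ _ _ _ (hhalt y) htime
  have hyes : ∀ y, (run (orc G ω) (Pool.Agent.RelM.vprog κ) (pair x y) (κ + 5)).st 1 = [true] ↔
      orc G ω (wq κ x y) = true := by
    intro y
    constructor
    · intro h
      by_contra hno
      rw [(Pool.Agent.RelM.vprog_run_no _ κ x y hno).2] at h
      simp at h
    · intro h
      exact (Pool.Agent.RelM.vprog_run_yes _ κ x y h).2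
  constructor
  · intro y _
    have := hhalt y
    unfold Halts at this ⊢
    rw [hrun y]
    exact this
  · constructor
    · intro hR
      refine ⟨wit ω κ x, ?_, ?_⟩
      · have hw : (wit ω κ x).length = lev κ x := by simp [wit]
        rw [hw]
        exact hl κ x
      · rw [hrun, hyes]
        exact (ho _ G ω κ x _).2 ⟨trivial, rfl, hR⟩
    · rintro ⟨y, -, hy⟩
      rw [hrun, hyes] at hy
      exact ((ho _ G ω κ x y).1 hy).2.2

end Pool.Agent.RelO
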